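import Pool.Agent.P.MP_8d62fb_al.Defs

/-! Trajectories, growth rates and relative entropies. -/

namespace Pool.Agent.P.MP_8d62fb_al

open scoped Pointwise ENNReal Topology
open Filter

variable {G : Type*} [Group G] {Q : Type*} [Group Q]

/-- The iterate of an endomorphism as a homomorphism. -/
def itr (φ : G →* G) : ℕ → (G →* G)
  | 0 => MonoidHom.id G
  | n + 1 => (itr φ n).comp φ

theorem coe_itr (φ : G →* G) (n : ℕ) : (itr φ n : G → G) = (φ : G → G)^[n] := by
  induction n with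
  | zero => rfl
  | succ n ih => funext x; simp [itr, ih]

theorem itr_apply (φ : G →* G) (n : ℕ) (x : G) : itr φ n x = (φ : G → G)^[n] x := by
  rw [← coe_itr]

theorem iter_mem {φ : G →* G} {L : Subgroup G} (hL : L ≤ L.comap φ) (n : ℕ) {x : G}
    (hx : x ∈ L) : (φ : G → G)^[n] x ∈ L := by
  induction n with
  | zero => exact hx
  | succ n ih => rw [Function.iterate_succ_apply']; exact hL ih

theorem image_iter_mul (φ : G →* G) (n : ℕ) (A B : Set G) :
    (φ : G → G)^[n] '' (A * B) = (φ : G → G)^[n] '' A * (φ : G → G)^[n] '' B := by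
  rw [← coe_itr]; exact Set.image_mul _

theorem traj_zero (φ : G →* G) (F : Set G) : traj φ F 0 = {1} := rfl

theorem traj_succ (φ : G →* G) (F : Set G) (n : ℕ) :
    traj φ F (n + 1) = traj φ F n * ((φ : G → G)^[n] '' F) := rfl

theorem traj_finite (φ : G →* G) {F : Set G} (hF : F.Finite) (n : ℕ) : (traj φ F n).Finite := by
  induction n with
  | zero => exact Set.finite_singleton _
  | succ n ih => exact ih.mul (hF.image _)

theorem one_mem_traj (φ : G →* G) {F : Set G} (h1 : (1 : G) ∈ F) (n : ℕ) :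
    (1 : G) ∈ traj φ F n := by
  induction n with
  | zero => rfl
  | succ n ih =>
    refine ⟨1, ih, 1, ⟨1, h1, ?_⟩, one_mul _⟩
    rw [← itr_apply]; exact map_one _

theorem traj_mono (φ : G →* G) {F F' : Set G} (h : F ⊆ F') (n : ℕ) :
    traj φ F n ⊆ traj φ F' n := by
  induction n with
  | zero => exact subset_rfl
  | succ n ih => exact Set.mul_subset_mul ih (Set.image_mono h)

theorem traj_add (φ : G →* G) (F : Set G) (a b : ℕ) :
    traj φ F (a + b) = traj φ F a * ((φ : G → G)^[a] '' traj φ F b) := by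
  induction b with
  | zero =>
    have : (φ : G → G)^[a] 1 = 1 := by rw [← itr_apply]; exact map_one _
    simp [traj_zero, this]
  | succ b ih =>
    rw [← add_assoc, traj_succ, ih, traj_succ, image_iter_mul, mul_assoc, Set.image_image,
      Function.iterate_add]
    rfl

theorem traj_one (φ : G →* G) (F : Set G) : traj φ F 1 = F := by
  rw [traj_succ, traj_zero]; simp

theorem traj_succ' (φ : G →* G) (F : Set G) (n : ℕ) :
    traj φ F (n + 1) = F * (φ '' traj φ F n) := by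
  rw [add_comm, traj_add, traj_one]; rfl

theorem subset_traj (φ : G →* G) {F : Set G} (h1 : (1 : G) ∈ F) {n : ℕ} (hn : n ≠ 0) :
    F ⊆ traj φ F n := by
  obtain ⟨k, rfl⟩ := Nat.exists_eq_succ_of_ne_zero hn
  rw [Nat.succ_eq_add_one, traj_succ']
  intro x hx
  exact ⟨x, hx, 1, ⟨1, one_mem_traj φ h1 k, map_one _⟩, mul_one _⟩

theorem traj_subset {φ : G →* G} {L : Subgroup G} (hL : L ≤ L.comap φ) {F : Set G}
    (hF : F ⊆ L) (n : ℕ) : traj φ F n ⊆ L := by
  induction n with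
  | zero => intro x hx; rw [hx]; exact L.one_mem
  | succ n ih =>
    rintro _ ⟨a, ha, _, ⟨b, hb, rfl⟩, rfl⟩
    exact L.mul_mem (ih ha) (iter_mem hL n (hF hb))

theorem image_traj {φ : G →* G} {ψ : Q →* Q} (π : G →* Q) (hπ : ∀ x, π (φ x) = ψ (π x))
    (F : Set G) (n : ℕ) : π '' traj φ F n = traj ψ (π '' F) n := by
  induction n with
  | zero => simp [traj_zero]
  | succ n ih =>
    rw [traj_succ', traj_succ', Set.image_mul, ← ih, Set.image_image, Set.image_image]
    simp only [hπ]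

/-- Exponential growth rate of a sequence of naturals. -/
noncomputable def rate (u : ℕ → ℕ) : ℝ :=
  limsup (fun n : ℕ => Real.log (u n : ℝ) / (n : ℝ)) atTop

theorem rate_spec {u : ℕ → ℕ} (h1 : ∀ n, 1 ≤ u n) (hs : ∀ a b, u (a + b) ≤ u a * u b) :
    Tendsto (fun n : ℕ => Real.log (u n : ℝ) / (n : ℝ)) atTop (𝓝 (rate u)) ∧
    (∀ n, n ≠ 0 → rate u ≤ Real.log (u n : ℝ) / (n : ℝ)) ∧ 0 ≤ rate u := by
  have hpos : ∀ n, (0 : ℝ) < u n := fun n => by exact_mod_cast h1 n
  have hsub : Subadditive (fun n => Real.log (u n : ℝ)) := by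
    intro a b
    rw [← Real.log_mul (hpos a).ne' (hpos b).ne']
    exact Real.log_le_log (hpos _) (by exact_mod_cast hs a b)
  have hnn : ∀ n : ℕ, 0 ≤ Real.log (u n : ℝ) / (n : ℝ) := fun n =>
    div_nonneg (Real.log_nonneg (by exact_mod_cast h1 n)) (Nat.cast_nonneg n)
  have hbdd : BddBelow (Set.range fun n : ℕ => Real.log (u n : ℝ) / (n : ℝ)) :=
    ⟨0, by rintro _ ⟨n, rfl⟩; exact hnn n⟩
  have ht := hsub.tendsto_lim hbdd
  have he : rate u = hsub.lim := ht.limsup_eq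
  refine ⟨he ▸ ht, fun n hn => he ▸ hsub.lim_le_div hbdd hn, ?_⟩
  rw [he]; exact ge_of_tendsto' ht hnn

/-- The number of cosets of `K` met by the trajectory. -/
noncomputable def cnt (φ : G →* G) (F : Set G) (K : Subgroup G) (n : ℕ) : ℕ :=
  ((QuotientGroup.mk : G → G ⧸ K) '' traj φ F n).ncard

/-- Relative growth rate. -/
noncomputable def HR (φ : G →* G) (F : Set G) (K : Subgroup G) : ℝ := rate (cnt φ F K)

/-- Entropy of the section `L K / K`. -/
noncomputable def ent (φ : G →* G) (L K : Subgroup G) : ℝ≥0∞ :=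
  ⨆ (F : Set G) (_ : F.Finite ∧ (1 : G) ∈ F ∧ F ⊆ L), ENNReal.ofReal (HR φ F K)

theorem ncard_image_le_of_imp {α β γ : Type*} {T : Set α} (hT : T.Finite) (f : α → β)
    (g : α → γ) (h : ∀ x ∈ T, ∀ y ∈ T, f x = f y → g x = g y) :
    (g '' T).ncard ≤ (f '' T).ncard := by
  classical
  by_cases hne : T.Nonempty
  · obtain ⟨x0, hx0⟩ := hne
    let k : β → γ := fun b => if hb : b ∈ f '' T then g hb.choose else g x0
    have : g '' T = k '' (f '' T) := by
      rw [Set.image_image]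
      refine Set.image_congr fun x hx => ?_
      have hb : f x ∈ f '' T := ⟨x, hx, rfl⟩
      simp only [k, dif_pos hb]
      exact h x hx _ hb.choose_spec.1 hb.choose_spec.2.symm
    rw [this]
    exact Set.ncard_image_le (hT.image f)
  · rw [Set.not_nonempty_iff_eq_empty.1 hne]; simp

theorem ncard_image_eq_of_iff {α β γ : Type*} {T : Set α} (hT : T.Finite) (f : α → β)
    (g : α → γ) (h : ∀ x ∈ T, ∀ y ∈ T, f x = f y ↔ g x = g y) :
    (g '' T).ncard = (f '' T).ncard :=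
  le_antisymm (ncard_image_le_of_imp hT f g fun x hx y hy => (h x hx y hy).1)
    (ncard_image_le_of_imp hT g f fun x hx y hy => (h x hx y hy).2)

theorem cnt_bot (φ : G →* G) {F : Set G} (hF : F.Finite) (n : ℕ) :
    cnt φ F ⊥ n = (traj φ F n).ncard := by
  have := ncard_image_eq_of_iff (traj_finite φ hF n) id (QuotientGroup.mk : G → G ⧸ (⊥ : Subgroup G))
    (fun x _ y _ => by
      rw [QuotientGroup.eq, Subgroup.mem_bot, inv_mul_eq_one]; rfl)
  simpa [cnt] using this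

theorem cnt_transfer {φ : G →* G} {ψ : Q →* Q} (π : G →* Q) (hπ : ∀ x, π (φ x) = ψ (π x))
    {F : Set G} (hF : F.Finite) (K : Subgroup Q) (n : ℕ) :
    cnt ψ (π '' F) K n = cnt φ F (K.comap π) n := by
  unfold cnt
  rw [← image_traj π hπ, Set.image_image]
  refine ncard_image_eq_of_iff (traj_finite φ hF n) _ _ fun x _ y _ => ?_
  rw [QuotientGroup.eq, QuotientGroup.eq, Subgroup.mem_comap, map_mul, map_inv]

theorem HR_transfer {φ : G →* G} {ψ : Q →* Q} (π : G →* Q) (hπ : ∀ x, π (φ x) = ψ (π x))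
    {F : Set G} (hF : F.Finite) (K : Subgroup Q) :
    HR ψ (π '' F) K = HR φ F (K.comap π) := by
  unfold HR
  congr 1
  funext n
  exact cnt_transfer π hπ hF K n

theorem HR_bot (φ : G →* G) {F : Set G} (hF : F.Finite) : HR φ F ⊥ = Halg φ F := by
  unfold HR rate Halg
  congr 1
  funext n
  rw [cnt_bot φ hF]

theorem le_ent {φ : G →* G} {L : Subgroup G} (K : Subgroup G) {F : Set G} (hF : F.Finite)
    (h1 : (1 : G) ∈ F) (hL : F ⊆ L) : ENNReal.ofReal (HR φ F K) ≤ ent φ L K :=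
  le_iSup₂_of_le (f := fun (F : Set G) (_ : F.Finite ∧ (1 : G) ∈ F ∧ F ⊆ L) =>
    ENNReal.ofReal (HR φ F K)) F ⟨hF, h1, hL⟩ le_rfl

theorem ent_le {φ : G →* G} {L K : Subgroup G} {c : ℝ≥0∞}
    (h : ∀ F : Set G, F.Finite → (1 : G) ∈ F → F ⊆ L → ENNReal.ofReal (HR φ F K) ≤ c) :
    ent φ L K ≤ c :=
  iSup₂_le fun F hF => h F hF.1 hF.2.1 hF.2.2

theorem halg_eq_ent (φ : G →* G) : halg φ = ent φ ⊤ ⊥ := by
  apply le_antisymm
  · refine iSup₂_le fun F hF => ?_
    rw [← HR_bot φ hF.1]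
    exact le_ent ⊥ hF.1 hF.2 (by simp)
  · refine ent_le fun F hF h1 _ => ?_
    rw [HR_bot φ hF]
    exact le_iSup₂_of_le (f := fun (F : Set G) (_ : F.Finite ∧ (1 : G) ∈ F) =>
      ENNReal.ofReal (Halg φ F)) F ⟨hF, h1⟩ le_rfl

theorem ent_transfer {φ : G →* G} {ψ : Q →* Q} (π : G →* Q) (hπ : ∀ x, π (φ x) = ψ (π x))
    (L : Subgroup G) (K : Subgroup Q) : ent ψ (L.map π) K = ent φ L (K.comap π) := by
  apply le_antisymm
  · refine ent_le fun F' hF' h1 hL => ?_
    have hsub : F' ⊆ π '' (L : Set G) := hL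
    obtain ⟨F0, hF0L, hF0, hF0i⟩ := hF'.exists_subset_finite_image_eq hsub
    have himg : π '' (insert 1 F0) = F' := by
      rw [Set.image_insert_eq, hF0i, map_one, Set.insert_eq_of_mem h1]
    rw [← himg, HR_transfer π hπ (hF0.insert 1)]
    exact le_ent _ (hF0.insert 1) (Set.mem_insert _ _)
      (Set.insert_subset L.one_mem hF0L)
  · refine ent_le fun F hF h1 hL => ?_
    rw [← HR_transfer π hπ hF]
    exact le_ent _ (hF.image _) ⟨1, h1, map_one _⟩ (Set.image_mono hL)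

theorem mk_comm (φ : G →* G) (K : Subgroup G) [K.Normal] (h : K ≤ K.comap φ) (x : G) :
    QuotientGroup.mk' K (φ x) = QuotientGroup.map K K φ h (QuotientGroup.mk' K x) := rfl

theorem comap_mk_bot (K : Subgroup G) [K.Normal] :
    (⊥ : Subgroup (G ⧸ K)).comap (QuotientGroup.mk' K) = K := by
  rw [MonoidHom.comap_bot, QuotientGroup.ker_mk']

theorem halg_quot (φ : G →* G) (H : Subgroup G) [H.Normal] (h : H ≤ H.comap φ) :
    halg (QuotientGroup.map H H φ h) = ent φ ⊤ H := by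
  have := ent_transfer (QuotientGroup.mk' H) (mk_comm φ H h) ⊤ ⊥
  rw [comap_mk_bot, Subgroup.map_top_of_surjective _ (QuotientGroup.mk'_surjective H)] at this
  rw [halg_eq_ent, this]

theorem halg_restr (φ : G →* G) (H : Subgroup G) (h : H ≤ H.comap φ) :
    halg (restr φ H h) = ent φ H ⊥ := by
  have := ent_transfer (φ := restr φ H h) (ψ := φ) H.subtype (fun _ => rfl) ⊤ ⊥
  rw [MonoidHom.comap_bot, Subgroup.ker_subtype, ← MonoidHom.range_eq_map,
    Subgroup.range_subtype] at this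
  rw [halg_eq_ent, this]

theorem cnt_pos (φ : G →* G) {F : Set G} (hF : F.Finite) (h1 : (1 : G) ∈ F) (K : Subgroup G)
    (n : ℕ) : 1 ≤ cnt φ F K n :=
  (Set.ncard_pos ((traj_finite φ hF n).image _)).2 ⟨_, _, one_mem_traj φ h1 n, rfl⟩

theorem ncard_mul_le' {A B : Set G} (hA : A.Finite) (hB : B.Finite) :
    (A * B).ncard ≤ A.ncard * B.ncard := by
  rw [← Set.ncard_prod, ← Set.image_mul_prod]
  exact Set.ncard_image_le (hA.prod hB)

theorem ncard_traj_add (φ : G →* G) {F : Set G} (hF : F.Finite) (a b : ℕ) :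
    (traj φ F (a + b)).ncard ≤ (traj φ F a).ncard * (traj φ F b).ncard := by
  rw [traj_add]
  refine (ncard_mul_le' (traj_finite φ hF a) ((traj_finite φ hF b).image _)).trans
    (Nat.mul_le_mul_left _ ?_)
  exact Set.ncard_image_le (traj_finite φ hF b)

theorem cnt_add (φ : G →* G) {F : Set G} (hF : F.Finite) (K : Subgroup G) [K.Normal]
    (h : K ≤ K.comap φ) (a b : ℕ) : cnt φ F K (a + b) ≤ cnt φ F K a * cnt φ F K b := by
  have e : ∀ n, cnt φ F K n =
      (traj (QuotientGroup.map K K φ h) (QuotientGroup.mk' K '' F) n).ncard := by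
    intro n
    rw [← image_traj (QuotientGroup.mk' K) (mk_comm φ K h)]; rfl
  rw [e, e, e]
  exact ncard_traj_add _ (hF.image _) a b

theorem HR_spec (φ : G →* G) {F : Set G} (hF : F.Finite) (h1 : (1 : G) ∈ F) (K : Subgroup G)
    [K.Normal] (h : K ≤ K.comap φ) :
    Tendsto (fun n : ℕ => Real.log (cnt φ F K n : ℝ) / (n : ℝ)) atTop (𝓝 (HR φ F K)) ∧
    (∀ n, n ≠ 0 → HR φ F K ≤ Real.log (cnt φ F K n : ℝ) / (n : ℝ)) ∧ 0 ≤ HR φ F K :=
  rate_spec (cnt_pos φ hF h1 K) (cnt_add φ hF K h)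

theorem HR_le_of_cnt_le (φ : G →* G) {F F' : Set G} (hF : F.Finite) (h1 : (1 : G) ∈ F)
    (hF' : F'.Finite) (h1' : (1 : G) ∈ F') (K K' : Subgroup G) [K.Normal] [K'.Normal]
    (h : K ≤ K.comap φ) (h' : K' ≤ K'.comap φ) (hc : ∀ n, cnt φ F K n ≤ cnt φ F' K' n) :
    HR φ F K ≤ HR φ F' K' := by
  refine le_of_tendsto_of_tendsto' (HR_spec φ hF h1 K h).1 (HR_spec φ hF' h1' K' h').1 fun n => ?_
  refine div_le_div_of_nonneg_right (Real.log_le_log ?_ ?_) (Nat.cast_nonneg n)
  · exact_mod_cast cnt_pos φ hF h1 K n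
  · exact_mod_cast hc n

theorem cnt_mono (φ : G →* G) {F F' : Set G} (hF' : F'.Finite) (hFF : F ⊆ F')
    (K : Subgroup G) (n : ℕ) : cnt φ F K n ≤ cnt φ F' K n :=
  Set.ncard_le_ncard (Set.image_mono (traj_mono φ hFF n)) ((traj_finite φ hF' n).image _)

theorem cnt_anti (φ : G →* G) {F : Set G} (hF : F.Finite) {K K' : Subgroup G} (hK : K ≤ K')
    (n : ℕ) : cnt φ F K' n ≤ cnt φ F K n :=
  ncard_image_le_of_imp (traj_finite φ hF n) _ _ fun x _ y _ hxy => by
    rw [QuotientGroup.eq] at hxy ⊢; exact hK hxy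

theorem ent_mono_left (φ : G →* G) {L L' : Subgroup G} (h : L ≤ L') (K : Subgroup G) :
    ent φ L K ≤ ent φ L' K :=
  ent_le fun _ hF h1 hL => le_ent K hF h1 (hL.trans h)

theorem ent_anti_right (φ : G →* G) (L : Subgroup G) {K K' : Subgroup G} [K.Normal] [K'.Normal]
    (h : K ≤ K.comap φ) (h' : K' ≤ K'.comap φ) (hK : K ≤ K') : ent φ L K' ≤ ent φ L K :=
  ent_le fun _ hF h1 hL => (ENNReal.ofReal_le_ofReal
    (HR_le_of_cnt_le φ hF h1 hF h1 K' K h' h (cnt_anti φ hF hK))).trans (le_ent K hF h1 hL)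

theorem ent_inf (φ : G →* G) {L : Subgroup G} (hL : L ≤ L.comap φ) (K : Subgroup G) :
    ent φ L (L ⊓ K) = ent φ L K := by
  unfold ent
  refine iSup_congr fun F => iSup_congr fun hF => ?_
  have : cnt φ F (L ⊓ K) = cnt φ F K := by
    funext n
    refine ncard_image_eq_of_iff (traj_finite φ hF.1 n) _ _ fun x hx y hy => ?_
    rw [QuotientGroup.eq, QuotientGroup.eq, Subgroup.mem_inf]
    have hxy : x⁻¹ * y ∈ L :=
      L.mul_mem (L.inv_mem (traj_subset hL hF.2.2 n hx)) (traj_subset hL hF.2.2 n hy)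
    tauto
  unfold HR
  rw [this]

theorem ent_sup (φ : G →* G) (L K : Subgroup G) [K.Normal] (h : K ≤ K.comap φ) :
    ent φ (L ⊔ K) K = ent φ L K := by
  have e1 := ent_transfer (QuotientGroup.mk' K) (mk_comm φ K h) (L ⊔ K) ⊥
  have e2 := ent_transfer (QuotientGroup.mk' K) (mk_comm φ K h) L ⊥
  rw [comap_mk_bot] at e1 e2
  rw [← e1, ← e2, Subgroup.map_sup, QuotientGroup.map_mk'_self, sup_bot_eq]

theorem ent_of_le (φ : G →* G) {L K : Subgroup G} (hL : L ≤ L.comap φ) (h : L ≤ K) :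
    ent φ L K = 0 := by
  refine le_antisymm (ent_le fun F hF h1 hFL => ?_) bot_le
  have : cnt φ F K = fun _ => 1 := by
    funext n
    unfold cnt
    rw [Set.ncard_eq_one]
    refine ⟨QuotientGroup.mk 1, Set.eq_singleton_iff_unique_mem.2
      ⟨⟨1, one_mem_traj φ h1 n, rfl⟩, ?_⟩⟩
    rintro _ ⟨x, hx, rfl⟩
    rw [QuotientGroup.eq, mul_one]
    exact K.inv_mem (h (traj_subset hL hFL n hx))
  unfold HR rate
  rw [this]
  simp

end Pool.Agent.P.MP_8d62fb_al
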