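import Pool.Agent.P.MP_8d62fb_al.QH

/-! Special cases of the main theorem (sanity checks, not hand-ins). -/

namespace Pool.Agent.P.MP_8d62fb_al

variable {G : Type*} [Group G]

theorem quasihamiltonian_quot_top : Quasihamiltonian (G ⧸ (⊤ : Subgroup G)) := by
  have : Subsingleton (G ⧸ (⊤ : Subgroup G)) := QuotientGroup.subsingleton_quotient_top
  intro X Y
  rw [Subsingleton.elim X Y]

theorem at_of_quasihamiltonian (hq : Quasihamiltonian G) (φ : G →* G) : AdditionTheorem φ :=
  additionTheorem_of (N := ⊥) FCHyper.bot
    (hq.of_surjective (QuotientGroup.mk' _) (QuotientGroup.mk'_surjective _))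

theorem at_of_fc (h : ∀ x : G, (Set.range fun g : G => g * x * g⁻¹).Finite) (φ : G →* G) :
    AdditionTheorem φ := by
  refine additionTheorem_of (N := ⊤) (FCHyper.step ⊥ ⊤ FCHyper.bot bot_le inferInstance
    (top_inv φ) fun x _ => ((h x).image QuotientGroup.mk).subset ?_) quasihamiltonian_quot_top
  rintro _ ⟨g, rfl⟩
  exact ⟨_, ⟨g, rfl⟩, rfl⟩

theorem lcs_inv (φ : G →* G) (k : ℕ) : (⊤ : Subgroup G).lowerCentralSeries k ≤
    ((⊤ : Subgroup G).lowerCentralSeries k).comap φ := by
  induction k with
  | zero => exact top_inv φ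
  | succ k ih =>
    rw [← Subgroup.map_le_iff_le_comap] at ih ⊢
    rw [Subgroup.lowerCentralSeries_succ, Subgroup.map_commutator]
    exact Subgroup.commutator_mono ih le_top

theorem at_of_nilpotent [Group.IsNilpotent G] (φ : G →* G) : AdditionTheorem φ := by
  obtain ⟨n, hn⟩ := Subgroup.nilpotent_iff_lowerCentralSeries.1
    (inferInstance : Group.IsNilpotent G)
  have key : ∀ j k, k + j = n → FCHyper φ ((⊤ : Subgroup G).lowerCentralSeries k) := by
    intro j
    induction j with
    | zero => intro k hk; rw [add_zero] at hk; rw [hk, hn]; exact FCHyper.bot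
    | succ j ih =>
      intro k hk
      refine FCHyper.step _ _ (ih (k + 1) (by omega))
        (Subgroup.lowerCentralSeries_antitone ⊤ (Nat.le_succ k))
        inferInstance (lcs_inv φ k) fun x hx => ?_
      refine (Set.finite_singleton (QuotientGroup.mk x)).subset ?_
      rintro _ ⟨g, rfl⟩
      rw [Set.mem_singleton_iff, eq_comm, QuotientGroup.eq]
      have := Subgroup.commutator_mem_commutator (Subgroup.inv_mem _ hx) (Subgroup.mem_top g)
      rw [commutatorElement_def, inv_inv, ← Subgroup.lowerCentralSeries_succ] at this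
      simpa [mul_assoc] using this
  exact additionTheorem_of (N := ⊤) (key n 0 (zero_add n)) quasihamiltonian_quot_top

end Pool.Agent.P.MP_8d62fb_al
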