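import Pool.Agent.P.MP_8d62fb_al.Perm

/-! Special cases of the FC-hypercentre theorem (sanity checks, not hand-ins). -/

namespace Pool.Agent.P.MP_8d62fb_al

variable {G : Type*} [Group G]

theorem fcHypercentral_bot : FCHypercentral (⊥ : Subgroup G) := fun _ _ h => absurd h not_lt_bot

theorem allPermutable_bot : AllPermutable (⊥ : Subgroup G) := by
  intro X Y hX
  rw [le_bot_iff.1 hX]
  simp

theorem allPermutable_of_qh (hq : Quasihamiltonian G) (K : Subgroup G) : AllPermutable K :=
  fun X Y _ => hq X Y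

/-- The question of the problem file, without the torsion hypothesis. -/
theorem at_of_qh (hq : Quasihamiltonian G) (φ : G →* G) : AdditionTheorem φ := fun H _ h =>
  addition_of_fcHypercentral φ ⊥ H h fcHypercentral_bot (allPermutable_of_qh
    (hq.of_surjective (QuotientGroup.mk' _) (QuotientGroup.mk'_surjective _)) _)

/-- Subgroups of the FC-hypercentre of an arbitrary group. -/
theorem at_of_le (φ : G →* G) (N H : Subgroup G) [N.Normal] [H.Normal] (h : H ≤ H.comap φ)
    (hN : FCHypercentral N) (hle : H ≤ N) :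
    halg φ = halg (QuotientGroup.map H H φ h) + halg (restr φ H h) := by
  refine addition_of_fcHypercentral φ N H h hN ?_
  have : H.map (QuotientGroup.mk' N) = ⊥ := by
    rw [Subgroup.map_eq_bot_iff, QuotientGroup.ker_mk']; exact hle
  rw [this]
  exact allPermutable_bot

/-- All endomorphisms of FC-hypercentral groups. -/
theorem at_of_fcHypercentral (hG : FCHypercentral (⊤ : Subgroup G)) (φ : G →* G) :
    AdditionTheorem φ := fun H _ h => at_of_le φ ⊤ H h hG le_top

/-- Ascending FC-central series (for any endomorphism `ψ`, for instance the identity) give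
subgroups of the FC-hypercentre. -/
theorem FCHyper.fcHypercentral {ψ : G →* G} {N : Subgroup G} (h : FCHyper ψ N) :
    FCHypercentral N := by
  have key : ∀ M : Subgroup G, M.Normal → ¬ N ≤ M → ∃ x ∈ N, x ∉ M ∧
      (Set.range fun g : G => (QuotientGroup.mk (g * x * g⁻¹) : G ⧸ M)).Finite := by
    induction h with
    | bot => exact fun M _ h => absurd bot_le h
    | step A B _ hAB _ _ hfc ih =>
      intro M hM hB
      by_cases hA : A ≤ M
      · obtain ⟨x, hx, hxM⟩ := SetLike.not_le_iff_exists.1 hB
        refine ⟨x, hx, hxM, ((hfc x hx).image (Subgroup.quotientMapOfLE hA)).subset ?_⟩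
        rintro _ ⟨g, rfl⟩
        exact ⟨_, ⟨g, rfl⟩, rfl⟩
      · obtain ⟨x, hx, h⟩ := ih M hM hA
        exact ⟨x, hAB hx, h⟩
    | union c _ _ _ ih =>
      intro M hM hB
      rw [sSup_le_iff] at hB
      push Not at hB
      obtain ⟨A, hA, hAM⟩ := hB
      obtain ⟨x, hx, h⟩ := ih A hA M hM hAM
      exact ⟨x, le_sSup hA hx, h⟩
  exact fun M hM hlt => key M hM hlt.not_ge

/-- The earlier form with an invariant series, now for a series invariant under any `ψ`. -/
theorem at_of_series (φ ψ : G →* G) (N : Subgroup G) [N.Normal] (hN : FCHyper ψ N)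
    (hq : Quasihamiltonian (G ⧸ N)) : AdditionTheorem φ := fun H _ h =>
  addition_of_fcHypercentral φ N H h hN.fcHypercentral (allPermutable_of_qh hq _)

/-- Hypercentral groups: every nontrivial quotient has a nontrivial centre. -/
theorem at_of_hypercentral
    (hG : ∀ (M : Subgroup G) [M.Normal], M ≠ ⊤ → Subgroup.center (G ⧸ M) ≠ ⊥) (φ : G →* G) :
    AdditionTheorem φ := by
  refine at_of_fcHypercentral (fun M hM hlt => ?_) φ
  obtain ⟨q, hq, hq1⟩ := (Subgroup.ne_bot_iff_exists_ne_one.1 (hG M hlt.ne)).elim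
    fun q h => (⟨q.1, q.2, fun e => h (Subtype.ext e)⟩ :
      ∃ q ∈ Subgroup.center (G ⧸ M), q ≠ 1)
  obtain ⟨x, rfl⟩ := QuotientGroup.mk_surjective q
  refine ⟨x, trivial, fun h => hq1 ((QuotientGroup.eq_one_iff _).2 h),
    (Set.finite_singleton (QuotientGroup.mk x)).subset ?_⟩
  rintro _ ⟨g, rfl⟩
  simp only [QuotientGroup.mk_mul, QuotientGroup.mk_inv, Set.mem_singleton_iff]
  rw [Subgroup.mem_center_iff.1 hq (QuotientGroup.mk g), mul_inv_cancel_right]

end Pool.Agent.P.MP_8d62fb_al
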