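import Mathlib

/-! A two-sided Rudin-Shapiro type sequence with values in `ZMod 3`. -/

namespace Pool.Agent.P.MP_8d62fb_al

open Finset

/-- `-1` on even and `1` on odd integers. -/
def eta (j : ℤ) : ZMod 3 := if j % 2 = 0 then -1 else 1

/-- The sign counting the blocks `01` of the dyadic expansion. -/
def gam (j : ℤ) : ZMod 3 :=
  if j = 0 ∨ j = -1 then 1 else if j % 2 = 0 then gam (j / 2) else eta (j / 2) * gam (j / 2)
termination_by j.natAbs
decreasing_by all_goals omega

theorem gam_zero : gam 0 = 1 := by rw [gam]; simp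

theorem gam_neg_one : gam (-1) = 1 := by rw [gam]; simp

theorem gam_even (j : ℤ) : gam (2 * j) = gam j := by
  by_cases h : j = 0
  · rw [h, mul_zero]
  · rw [gam, if_neg (by omega), if_pos (by omega), show 2 * j / 2 = j by omega]

theorem gam_odd (j : ℤ) : gam (2 * j + 1) = eta j * gam j := by
  by_cases h : j = -1
  · subst h
    rw [show 2 * (-1 : ℤ) + 1 = -1 by norm_num, show eta (-1) = 1 by decide, one_mul]
  · rw [gam, if_neg (by omega), if_neg (by omega), show (2 * j + 1) / 2 = j by omega]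

theorem eta_sq (j : ℤ) : eta j * eta j = 1 := by
  unfold eta; split_ifs <;> simp

theorem eta_add_two_mul (j k : ℤ) : eta (j + 2 * k) = eta j := by
  unfold eta; rw [show (j + 2 * k) % 2 = j % 2 by omega]

theorem eta_succ (j : ℤ) : eta (j + 1) = - eta j := by
  unfold eta
  by_cases h : j % 2 = 0
  · rw [if_neg (by omega), if_pos h, neg_neg]
  · rw [if_pos (by omega), if_neg h]

theorem gam_sq (j : ℤ) : gam j * gam j = 1 := by
  induction h : j.natAbs using Nat.strong_induction_on generalizing j with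
  | _ n ih =>
    by_cases h0 : j = 0 ∨ j = -1
    · rw [gam, if_pos h0, one_mul]
    · have := ih (j / 2).natAbs (by omega) (j / 2) rfl
      rw [gam, if_neg h0]
      split_ifs
      · exact this
      · linear_combination (gam (j / 2) * gam (j / 2)) * eta_sq (j / 2) + this

/-- The Toeplitz sequence `s(n) = γ(n) γ(n+1)`. -/
def tpl (n : ℤ) : ZMod 3 := gam n * gam (n + 1)

theorem tpl_sq (n : ℤ) : tpl n * tpl n = 1 := by
  unfold tpl
  linear_combination (gam (n + 1) * gam (n + 1)) * gam_sq n + gam_sq (n + 1)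

theorem tpl_even (j : ℤ) : tpl (2 * j) = eta j := by
  unfold tpl
  rw [gam_even, gam_odd]
  linear_combination eta j * gam_sq j

theorem tpl_odd (j : ℤ) : tpl (2 * j + 1) = eta j * tpl j := by
  unfold tpl
  rw [show 2 * j + 1 + 1 = 2 * (j + 1) by ring, gam_even, gam_odd, mul_assoc]

theorem tpl_toeplitz (K : ℕ) : ∀ n : ℤ, ¬ (2 : ℤ) ^ K ∣ n + 1 → tpl (n + 2 ^ (K + 1)) = tpl n := by
  induction K with
  | zero => intro n h; exact absurd (by simp) h
  | succ K ih =>
    intro n h
    rcases Int.even_or_odd' n with ⟨j, rfl | rfl⟩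
    · rw [show 2 * j + 2 ^ (K + 1 + 1) = 2 * (j + 2 * 2 ^ K) by ring, tpl_even, tpl_even,
        eta_add_two_mul]
    · have hj : ¬ (2 : ℤ) ^ K ∣ j + 1 := fun hd => h (by
        rw [show 2 * j + 1 + 1 = (j + 1) * 2 by ring, pow_succ]
        exact mul_dvd_mul_right hd 2)
      rw [show 2 * j + 1 + 2 ^ (K + 1 + 1) = 2 * (j + 2 ^ (K + 1)) + 1 by ring, tpl_odd, tpl_odd,
        ih j hj, show (2 : ℤ) ^ (K + 1) = 2 * 2 ^ K by ring, eta_add_two_mul]

theorem tpl_both (a : ℤ) : ∃ m m' : ℤ, tpl (2 * m + a) = 1 ∧ tpl (2 * m' + a) = -1 := by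
  rcases Int.even_or_odd' a with ⟨j, rfl | rfl⟩
  · refine ⟨1 - j, -j, ?_, ?_⟩
    · rw [show 2 * (1 - j) + 2 * j = 2 * 1 by ring, tpl_even]; decide
    · rw [show 2 * (-j) + 2 * j = 2 * 0 by ring, tpl_even]; decide
  · refine ⟨-j, 2 - j, ?_, ?_⟩
    · rw [show 2 * (-j) + (2 * j + 1) = 2 * (2 * 0) + 1 by ring, tpl_odd, tpl_even]; decide
    · rw [show 2 * (2 - j) + (2 * j + 1) = 2 * (2 * 1) + 1 by ring, tpl_odd, tpl_even]; decide

/-- No linear recurrence of length `L` holds along a residue class mod `2`. -/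
def NoRec (L : ℕ) : Prop :=
  ∀ (a : ℤ) (c : ℕ → ZMod 3), (∀ m : ℤ, ∑ i ∈ range L, c i * gam (2 * m + a + i) = 0) →
    ∀ i < L, c i = 0

theorem pad_right {L : ℕ} {a : ℤ} {c : ℕ → ZMod 3}
    (h : ∀ m : ℤ, ∑ i ∈ range L, c i * gam (2 * m + a + i) = 0) (m : ℤ) :
    ∑ i ∈ range (L + 1), (if i < L then c i else 0) * gam (2 * m + a + i) = 0 := by
  rw [sum_range_succ, if_neg (lt_irrefl _), zero_mul, add_zero, ← h m]
  exact sum_congr rfl fun i hi => by rw [if_pos (mem_range.1 hi)]

theorem NoRec.anti {L : ℕ} (h : NoRec (L + 1)) : NoRec L := by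
  intro a c hc i hi
  have := h a _ (pad_right hc) i (by omega)
  rwa [if_pos hi] at this

theorem NoRec.of_le {L L' : ℕ} (hle : L ≤ L') (h : NoRec L') : NoRec L := by
  induction hle with
  | refl => exact h
  | step _ ih => exact ih h.anti

theorem sum_pairs (f : ℕ → ZMod 3) (L : ℕ) :
    ∑ i ∈ range (2 * L), f i = ∑ e ∈ range L, (f (2 * e) + f (2 * e + 1)) := by
  induction L with
  | zero => simp
  | succ L ih => rw [show 2 * (L + 1) = 2 * L + 1 + 1 by ring, sum_range_succ, sum_range_succ, ih,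
      sum_range_succ, add_assoc]

theorem NoRec.even {L : ℕ} (h : NoRec L) (a : ℤ) (c : ℕ → ZMod 3)
    (hc : ∀ m : ℤ, ∑ i ∈ range (2 * L), c i * gam (2 * m + 2 * a + i) = 0) :
    ∀ i < 2 * L, c i = 0 := by
  have key : ∀ m : ℤ, ∑ e ∈ range L,
      (c (2 * e) + eta (m + a + e) * c (2 * e + 1)) * gam (m + a + e) = 0 := by
    intro m
    rw [← hc m, sum_pairs]
    refine sum_congr rfl fun e _ => ?_
    rw [show 2 * m + 2 * a + ((2 * e : ℕ) : ℤ) = 2 * (m + a + e) by push_cast; ring,
      show 2 * m + 2 * a + ((2 * e + 1 : ℕ) : ℤ) = 2 * (m + a + e) + 1 by push_cast; ring,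
      gam_even, gam_odd]
    ring
  have k0 := h a (fun e => c (2 * e) + eta (a + e) * c (2 * e + 1)) fun m => by
    rw [← key (2 * m)]
    refine sum_congr rfl fun e _ => ?_
    rw [show 2 * m + a + (e : ℤ) = a + e + 2 * m by ring, eta_add_two_mul]
  have k1 := h (a + 1) (fun e => c (2 * e) - eta (a + e) * c (2 * e + 1)) fun m => by
    rw [← key (2 * m + 1)]
    refine sum_congr rfl fun e _ => ?_
    rw [show 2 * m + 1 + a + (e : ℤ) = a + e + 1 + 2 * m by ring, eta_add_two_mul, eta_succ,
      show 2 * m + (a + 1) + (e : ℤ) = a + e + 1 + 2 * m by ring]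
    ring
  have h3 : (3 : ZMod 3) = 0 := rfl
  intro i hi
  rcases Nat.even_or_odd' i with ⟨e, rfl | rfl⟩
  · have a0 := k0 e (by omega)
    have a1 := k1 e (by omega)
    linear_combination (-1) * a0 - a1 + c (2 * e) * h3
  · have a0 := k0 e (by omega)
    have a1 := k1 e (by omega)
    linear_combination (-eta (a + e)) * a0 + eta (a + e) * a1 +
      2 * c (2 * e + 1) * eta_sq (a + e) + c (2 * e + 1) * h3

theorem NoRec.double {L : ℕ} (h : NoRec (L + 1)) : NoRec (2 * L + 1) := by
  intro a c hc i hi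
  rcases Int.even_or_odd' a with ⟨j, rfl | rfl⟩
  · have := h.even j (fun i => if i < 2 * L + 1 then c i else 0) (pad_right hc) i (by omega)
    rwa [if_pos hi] at this
  · have := h.even j (fun k => if k = 0 then 0 else c (k - 1)) (fun m => by
      rw [show 2 * (L + 1) = 2 * L + 1 + 1 by ring, sum_range_succ']
      simp only [Nat.add_eq_zero_iff, one_ne_zero, and_false, if_false, if_true, zero_mul, add_zero,
        Nat.add_sub_cancel]
      refine Eq.trans (sum_congr rfl fun k _ => ?_) (hc m)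
      congr 2
      push_cast; ring) (i + 1) (by omega)
    simpa using this

theorem noRec_two : NoRec 2 := by
  intro a c hc
  have key : ∀ m : ℤ, c 0 + c 1 * tpl (2 * m + a) = 0 := by
    intro m
    have := hc m
    simp only [sum_range_succ, range_zero, sum_empty, zero_add, Nat.cast_zero, add_zero,
      Nat.cast_one] at this
    unfold tpl
    linear_combination gam (2 * m + a) * this - c 0 * gam_sq (2 * m + a)
  obtain ⟨m, m', h1, h2⟩ := tpl_both a
  have a0 := key m
  have a1 := key m'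
  rw [h1] at a0
  rw [h2] at a1
  have h3 : (3 : ZMod 3) = 0 := rfl
  intro i hi
  interval_cases i
  · linear_combination (-1) * a0 - a1 + c 0 * h3
  · linear_combination (-1) * a0 + a1 + c 1 * h3

theorem noRec (L : ℕ) : NoRec L := by
  have : ∀ k, NoRec (k + 2) := by
    intro k
    induction k with
    | zero => exact noRec_two
    | succ k ih => exact NoRec.of_le (by omega) (NoRec.double (L := k + 1) ih)
  exact NoRec.of_le (by omega) (this L)

end Pool.Agent.P.MP_8d62fb_al
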