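import Pool.Agent.P.MP_8d62fb_al.Basic
import Pool.Agent.P.MP_8d62fb_al.RS

/-! A shift invariant subgroup of a Cartesian power of the symmetric group of degree three for
which the Addition Theorem fails. -/

namespace Pool.Agent.P.MP_8d62fb_al

open scoped Pointwise ENNReal Topology
open Filter

section growth

variable {G : Type*} [Group G]

theorem ent_le_log (φ : G →* G) (L K : Subgroup G) [K.Normal] (hK : K ≤ K.comap φ) {k : ℕ}
    (hk : 0 < k)
    (h : ∀ F : Set G, F.Finite → (1 : G) ∈ F → F ⊆ L → ∃ C : ℕ, ∀ n, cnt φ F K n ≤ C * k ^ n) :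
    ent φ L K ≤ ENNReal.ofReal (Real.log k) := by
  refine ent_le fun F hF h1 hL => ENNReal.ofReal_le_ofReal ?_
  obtain ⟨C, hC⟩ := h F hF h1 hL
  have hC0 : (0 : ℝ) < C := by
    have := (cnt_pos φ hF h1 K 0).trans (hC 0)
    exact_mod_cast (by simpa using this : 1 ≤ C)
  have hk' : (0 : ℝ) < k := by exact_mod_cast hk
  have t2 : Tendsto (fun n : ℕ => Real.log C / (n : ℝ) + Real.log k) atTop
      (𝓝 (0 + Real.log k)) := (tendsto_const_div_atTop_nhds_zero_nat _).add_const _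
  rw [zero_add] at t2
  refine le_of_tendsto_of_tendsto (HR_spec φ hF h1 K hK).1 t2 ?_
  filter_upwards [eventually_ne_atTop 0] with n hn
  have hn' : (0 : ℝ) < n := by exact_mod_cast Nat.pos_of_ne_zero hn
  have p1 : (0 : ℝ) < cnt φ F K n := by exact_mod_cast cnt_pos φ hF h1 K n
  have hle : (cnt φ F K n : ℝ) ≤ C * (k : ℝ) ^ n := by exact_mod_cast hC n
  have := Real.log_le_log p1 hle
  rw [Real.log_mul hC0.ne' (pow_pos hk' n).ne', Real.log_pow] at this
  rw [div_add' _ _ _ hn'.ne']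
  exact div_le_div_of_nonneg_right (by linarith) hn'.le

theorem log_le_ent (φ : G →* G) {F : Set G} (hF : F.Finite) (h1 : (1 : G) ∈ F) {k : ℕ}
    (hk : 0 < k) (h : ∀ n, k ^ n ≤ (traj φ F n).ncard) :
    ENNReal.ofReal (Real.log k) ≤ ent φ ⊤ ⊥ := by
  refine le_trans (ENNReal.ofReal_le_ofReal ?_) (le_ent ⊥ hF h1 (by simp))
  refine ge_of_tendsto (HR_spec φ hF h1 ⊥ bot_le).1 ?_
  filter_upwards [eventually_ne_atTop 0] with n hn
  have hn' : (0 : ℝ) < n := by exact_mod_cast Nat.pos_of_ne_zero hn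
  have hk' : (0 : ℝ) < k := by exact_mod_cast hk
  have hle : (k : ℝ) ^ n ≤ cnt φ F ⊥ n := by rw [cnt_bot φ hF]; exact_mod_cast h n
  have := Real.log_le_log (pow_pos hk' n) hle
  rw [Real.log_pow] at this
  rw [le_div_iff₀ hn']
  linarith

end growth

section windows

variable {R : Type} [Field R]

/-- Translation of functions on the integers. -/
def tr (t : ℤ) : (ℤ → R) →ₗ[R] (ℤ → R) := LinearMap.funLeft R R (· + t)

theorem tr_apply (t : ℤ) (f : ℤ → R) (n : ℤ) : tr t f n = f (n + t) := rfl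

theorem tr_tr (t u : ℤ) (f : ℤ → R) : tr t (tr u f) = tr (t + u) f := by
  funext n; simp [tr_apply, add_assoc]

/-- The span of all translates. -/
def Sp (f : ℤ → R) : Submodule R (ℤ → R) := Submodule.span R (Set.range fun i => tr i f)

/-- The span of the translates in a window. -/
def Wd (f : ℤ → R) (K n : ℕ) : Submodule R (ℤ → R) :=
  Submodule.span R ((fun i => tr i f) '' (Finset.Ico (-(K : ℤ)) (K + n) : Finset ℤ))

theorem Sp_tr {f g : ℤ → R} (t : ℤ) (h : g ∈ Sp f) : tr t g ∈ Sp f := by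
  have : (Sp f).map (tr t) ≤ Sp f := by
    rw [Sp, Submodule.map_span, Submodule.span_le]
    rintro _ ⟨_, ⟨i, rfl⟩, rfl⟩
    exact Submodule.subset_span ⟨t + i, (tr_tr t i f).symm⟩
  exact this ⟨g, h, rfl⟩

theorem Wd_mono (f : ℤ → R) {K K' n n' : ℕ} (hK : K ≤ K') (hn : n ≤ n') :
    Wd f K n ≤ Wd f K' n' := by
  refine Submodule.span_mono (Set.image_mono ?_)
  intro i hi
  simp only [Finset.coe_Ico, Set.mem_Ico] at hi ⊢
  omega

theorem Wd_tr {f g : ℤ → R} {K n : ℕ} (h : g ∈ Wd f K n) : tr 1 g ∈ Wd f K (n + 1) := by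
  have : (Wd f K n).map (tr 1) ≤ Wd f K (n + 1) := by
    rw [Wd, Submodule.map_span, Submodule.span_le]
    rintro _ ⟨_, ⟨i, hi, rfl⟩, rfl⟩
    refine Submodule.subset_span ⟨1 + i, ?_, (tr_tr 1 i f).symm⟩
    simp only [Finset.coe_Ico, Set.mem_Ico] at hi ⊢
    push_cast
    omega
  exact this ⟨g, h, rfl⟩

theorem exists_Wd {f g : ℤ → R} (h : g ∈ Sp f) : ∃ K, g ∈ Wd f K 0 := by
  induction h using Submodule.span_induction with
  | mem x hx =>
    obtain ⟨i, rfl⟩ := hx
    refine ⟨i.natAbs + 1, Submodule.subset_span ⟨i, ?_, rfl⟩⟩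
    simp only [Finset.coe_Ico, Set.mem_Ico]
    omega
  | zero => exact ⟨0, Submodule.zero_mem _⟩
  | add x y _ _ hx hy =>
    obtain ⟨K, hK⟩ := hx
    obtain ⟨K', hK'⟩ := hy
    exact ⟨max K K', Submodule.add_mem _ (Wd_mono f (le_max_left _ _) le_rfl hK)
      (Wd_mono f (le_max_right _ _) le_rfl hK')⟩
  | smul a x _ hx =>
    obtain ⟨K, hK⟩ := hx
    exact ⟨K, Submodule.smul_mem _ a hK⟩

theorem Wd_card [Finite R] (f : ℤ → R) (K n : ℕ) :
    (Wd f K n : Set (ℤ → R)).Finite ∧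
      (Wd f K n : Set (ℤ → R)).ncard ≤ Nat.card R ^ (2 * K) * Nat.card R ^ n := by
  classical
  have hfin : ((fun i => tr i f) '' (Finset.Ico (-(K : ℤ)) (K + n) : Finset ℤ)).Finite :=
    (Finset.finite_toSet _).image _
  have hfd : Module.Finite R (Wd f K n) := Module.Finite.span_of_finite R hfin
  refine ⟨Module.finite_of_finite R, ?_⟩
  change Nat.card (Wd f K n) ≤ _
  rw [Module.natCard_eq_pow_finrank (K := R), ← pow_add]
  refine Nat.pow_le_pow_right Nat.card_pos ?_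
  have e : Wd f K n = Submodule.span R
      (((Finset.Ico (-(K : ℤ)) (K + n)).image fun i => tr i f : Finset (ℤ → R)) : Set (ℤ → R)) := by
    rw [Wd, Finset.coe_image]
  rw [e]
  refine (finrank_span_finset_le_card _).trans (Finset.card_image_le.trans ?_)
  rw [Int.card_Ico]
  omega

/-- Functions with period `2 ^ K`. -/
def Pk (R : Type) [Field R] (K : ℕ) : Submodule R (ℤ → R) where
  carrier := {f | ∀ n, f (n + 2 ^ K) = f n}
  add_mem' := fun {a b} ha hb n => by simp [ha n, hb n]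
  zero_mem' := fun _ => rfl
  smul_mem' := fun c f hf n => by simp [hf n]

theorem Pk_dvd {K : ℕ} {f : ℤ → R} (h : f ∈ Pk R K) {n m : ℤ} (hd : (2 : ℤ) ^ K ∣ n - m) :
    f n = f m := by
  obtain ⟨c, hc⟩ := hd
  have hp : Function.Periodic f ((2 : ℤ) ^ K) := h
  have := (hp.int_mul c) m
  rw [← this]
  congr 1
  simp only [Int.cast_id]
  linarith

theorem Pk_mono {K K' : ℕ} (h : K ≤ K') : Pk R K ≤ Pk R K' := fun _ hf n =>
  Pk_dvd hf (by rw [add_sub_cancel_left]; exact pow_dvd_pow 2 h)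

theorem Pk_tr {K : ℕ} {f : ℤ → R} (t : ℤ) (h : f ∈ Pk R K) : tr t f ∈ Pk R K := fun n => by
  rw [tr_apply, tr_apply, add_right_comm, h]

theorem Pk_finite [Finite R] (K : ℕ) : (Pk R K : Set (ℤ → R)).Finite := by
  have : Finite (Finset.Ico (0 : ℤ) (2 ^ K) → R) := inferInstance
  refine Set.Finite.of_finite_image
    (f := fun f (i : Finset.Ico (0 : ℤ) (2 ^ K)) => f i.1) (Set.toFinite _) ?_
  intro f hf g hg e
  funext n
  have hpos : (0 : ℤ) < 2 ^ K := by positivity
  have hd : (2 : ℤ) ^ K ∣ n - n % 2 ^ K := Int.dvd_sub_self_of_emod_eq rfl |>.neg_right |> fun h =>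
    by simpa using h
  rw [Pk_dvd hf hd, Pk_dvd hg hd]
  exact congrFun e ⟨n % 2 ^ K, Finset.mem_Ico.2
    ⟨Int.emod_nonneg _ hpos.ne', Int.emod_lt_of_pos _ hpos⟩⟩

/-- Functions with a period that is a power of two. -/
def Per (R : Type) [Field R] : Submodule R (ℤ → R) where
  carrier := {f | ∃ K, f ∈ Pk R K}
  add_mem' := fun {_ _} ⟨K, ha⟩ ⟨K', hb⟩ => ⟨max K K', Submodule.add_mem _
    (Pk_mono (le_max_left _ _) ha) (Pk_mono (le_max_right _ _) hb)⟩
  zero_mem' := ⟨0, Submodule.zero_mem _⟩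
  smul_mem' := fun c _ ⟨K, hf⟩ => ⟨K, Submodule.smul_mem _ c hf⟩

end windows

instance fact_prime_three' : Fact (Nat.Prime 3) := ⟨by norm_num⟩

/-- The module of translation parts. -/
def AA : Submodule (ZMod 3) (ℤ → ZMod 3) := Per (ZMod 3) ⊔ Sp tpl

theorem AA_tr {f : ℤ → ZMod 3} (t : ℤ) (h : f ∈ AA) : tr t f ∈ AA := by
  obtain ⟨p, ⟨K, hp⟩, q, hq, rfl⟩ := Submodule.mem_sup.1 h
  rw [map_add]
  exact Submodule.add_mem_sup ⟨K, Pk_tr t hp⟩ (Sp_tr t hq)

theorem per_mul_tpl {K : ℕ} {q : ℤ → ZMod 3} (hq : q ∈ Pk (ZMod 3) K) (j : ℤ)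
    (h0 : ∀ n, (2 : ℤ) ^ K ∣ n + j + 1 → q n = 0) : q * tr j tpl ∈ Pk (ZMod 3) (K + 1) := by
  intro n
  simp only [Pi.mul_apply, tr_apply]
  rw [Pk_mono (Nat.le_succ K) hq n]
  by_cases h : (2 : ℤ) ^ K ∣ n + j + 1
  · rw [h0 n h, zero_mul, zero_mul]
  · rw [add_right_comm, tpl_toeplitz K _ h]

theorem tpl_mul_per {p : ℤ → ZMod 3} (hp : p ∈ Per (ZMod 3)) (j : ℤ) : tr j tpl * p ∈ AA := by
  obtain ⟨K, hp⟩ := hp
  have e : tr j tpl * p = (fun n => p n - p (-1 - j)) * tr j tpl + p (-1 - j) • tr j tpl := by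
    funext n; simp only [Pi.mul_apply, Pi.add_apply, Pi.smul_apply, smul_eq_mul]; ring
  rw [e]
  refine Submodule.add_mem_sup ⟨K + 1, per_mul_tpl (fun n => by simp only [hp n]) j fun n hn => ?_⟩
    (Submodule.smul_mem _ _ (Submodule.subset_span ⟨j, rfl⟩))
  rw [Pk_dvd hp (m := -1 - j) (by rwa [show n - (-1 - j) = n + j + 1 by ring]), sub_self]

theorem tpl_mul_tpl (i j : ℤ) : tr j tpl * tr i tpl ∈ AA := by
  by_cases hij : i = j
  · subst hij
    refine Submodule.mem_sup_left ⟨0, fun n => ?_⟩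
    simp only [Pi.mul_apply, tr_apply, tpl_sq]
  obtain ⟨K, hK⟩ : ∃ K : ℕ, ¬ (2 : ℤ) ^ K ∣ i - j := by
    refine ⟨(i - j).natAbs, fun h => ?_⟩
    have h1 := Int.natAbs_le_of_dvd_ne_zero h (sub_ne_zero.2 hij)
    rw [Int.natAbs_pow] at h1
    exact absurd h1 (not_le.2 Nat.lt_two_pow_self)
  let χ : ℤ → ZMod 3 := fun n => if (2 : ℤ) ^ K ∣ n + i + 1 then 1 else 0
  have hχ : χ ∈ Pk (ZMod 3) K := fun n => by
    simp only [χ]
    rw [show n + 2 ^ K + i + 1 = n + i + 1 + 2 ^ K by ring]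
    simp only [dvd_add_self_right]
  have h1 : χ * tr j tpl ∈ Per (ZMod 3) := ⟨K + 1, per_mul_tpl hχ j fun n hn => by
    simp only [χ]
    refine if_neg fun h => hK ?_
    have := dvd_sub h hn
    rwa [show n + i + 1 - (n + j + 1) = i - j by ring] at this⟩
  have h2 : (fun n => 1 - χ n) * tr i tpl ∈ Per (ZMod 3) :=
    ⟨K + 1, per_mul_tpl (fun n => by simp only [hχ n]) i fun n hn => by
      simp only [χ]; rw [if_pos hn, sub_self]⟩
  have e : tr j tpl * tr i tpl =
      tr i tpl * (χ * tr j tpl) + tr j tpl * ((fun n => 1 - χ n) * tr i tpl) := by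
    funext n; simp only [Pi.mul_apply, Pi.add_apply]; ring
  rw [e]
  exact AA.add_mem (tpl_mul_per h1 i) (tpl_mul_per h2 j)

theorem tpl_mul_AA {f : ℤ → ZMod 3} (h : f ∈ AA) (j : ℤ) : tr j tpl * f ∈ AA := by
  obtain ⟨p, hp, q, hq, rfl⟩ := Submodule.mem_sup.1 h
  rw [mul_add]
  refine AA.add_mem (tpl_mul_per hp j) ?_
  induction hq using Submodule.span_induction with
  | mem x hx => obtain ⟨i, rfl⟩ := hx; exact tpl_mul_tpl i j
  | zero => simp
  | add x y hx' hy' hx hy =>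
    rw [mul_add]
    exact AA.add_mem (hx (Submodule.add_mem_sup hp hx')) (hy (Submodule.add_mem_sup hp hy'))
  | smul a x hx' hx =>
    rw [mul_smul_comm]
    exact AA.smul_mem a (hx (Submodule.add_mem_sup hp hx'))

/-- The sign character. -/
def sg (b : ZMod 2) : ZMod 3 := if b = 0 then 1 else -1

theorem sg_add : ∀ a b : ZMod 2, sg (a + b) = sg a * sg b := by decide

/-- The sign sequence written additively. -/
def bet (n : ℤ) : ZMod 2 := if tpl n = 1 then 0 else 1

theorem sg_bet (n : ℤ) : sg (bet n) = tpl n := by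
  have : ∀ x : ZMod 3, x * x = 1 → sg (if x = 1 then 0 else 1) = x := by decide
  exact this _ (tpl_sq n)

theorem sg_mul_AA {b : ℤ → ZMod 2} (hb : b ∈ Sp bet) :
    ∀ f ∈ AA, (fun n => sg (b n)) * f ∈ AA := by
  induction hb using Submodule.span_induction with
  | mem x hx =>
    obtain ⟨i, rfl⟩ := hx
    intro f hf
    have : (fun n => sg (tr i bet n)) = tr i tpl := by funext n; exact sg_bet _
    rw [this]; exact tpl_mul_AA hf i
  | zero =>
    intro f hf
    have : (fun n => sg ((0 : ℤ → ZMod 2) n)) = 1 := by funext n; rfl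
    rwa [this, one_mul]
  | add x y _ _ hx hy =>
    intro f hf
    have : (fun n => sg ((x + y) n)) = (fun n => sg (x n)) * fun n => sg (y n) := by
      funext n; exact sg_add _ _
    rw [this, mul_assoc]
    exact hx _ (hy f hf)
  | smul a x _ hx =>
    intro f hf
    have ha : a = 0 ∨ a = 1 := by revert a; decide
    rcases ha with rfl | rfl
    · have : (fun n => sg (((0 : ZMod 2) • x) n)) = 1 := by funext n; simp [sg]
      rwa [this, one_mul]
    · rw [one_smul]; exact hx f hf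

/-- The affine group of the field with three elements. -/
@[ext] structure Aff3 where
  a : ZMod 3
  b : ZMod 2
deriving DecidableEq, Fintype

instance : Mul Aff3 := ⟨fun x y => ⟨x.a + sg x.b * y.a, x.b + y.b⟩⟩
instance : One Aff3 := ⟨⟨0, 0⟩⟩
instance : Inv Aff3 := ⟨fun x => ⟨-(sg x.b * x.a), x.b⟩⟩

instance : Group Aff3 := Group.ofLeftAxioms (by decide) (by decide) (by decide)

theorem Aff3.mul_a (x y : Aff3) : (x * y).a = x.a + sg x.b * y.a := rfl
theorem Aff3.mul_b (x y : Aff3) : (x * y).b = x.b + y.b := rfl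
theorem Aff3.inv_a (x : Aff3) : (x⁻¹).a = -(sg x.b * x.a) := rfl
theorem Aff3.inv_b (x : Aff3) : (x⁻¹).b = x.b := rfl

/-- The group of the example. -/
def GG : Subgroup (ℤ → Aff3) where
  carrier := {g | (fun n => (g n).a) ∈ AA ∧ (fun n => (g n).b) ∈ Sp bet}
  one_mem' := ⟨AA.zero_mem, (Sp bet).zero_mem⟩
  mul_mem' := fun {_ _} hx hy => ⟨AA.add_mem hx.1 (sg_mul_AA hx.2 _ hy.1),
    (Sp bet).add_mem hx.2 hy.2⟩
  inv_mem' := fun {_} hx => ⟨AA.neg_mem (sg_mul_AA hx.2 _ hx.1), hx.2⟩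

/-- The shift. -/
def sh : GG ≃* GG where
  toFun g := ⟨fun n => g.1 (n + 1), AA_tr 1 g.2.1, Sp_tr 1 g.2.2⟩
  invFun g := ⟨fun n => g.1 (n + -1), AA_tr (-1) g.2.1, Sp_tr (-1) g.2.2⟩
  left_inv g := Subtype.ext (funext fun n => by simp)
  right_inv g := Subtype.ext (funext fun n => by simp)
  map_mul' _ _ := rfl

/-- The translation subgroup. -/
def HH : Subgroup GG where
  carrier := {g | ∀ n, (g.1 n).b = 0}
  one_mem' := fun _ => rfl
  mul_mem' := fun {x y} hx hy n => by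
    change (x.1 n).b + (y.1 n).b = 0
    rw [hx n, hy n, add_zero]
  inv_mem' := fun {_} hx n => hx n

instance HH_normal : HH.Normal := ⟨fun x hx g n => by
  change (g.1 n).b + (x.1 n).b + (g.1 n).b = 0
  rw [hx n, add_zero]
  generalize (g.1 n).b = c
  revert c; decide⟩

theorem HH_inv : HH ≤ HH.comap sh.toMonoidHom := fun _ hx n => hx (n + 1)

theorem HH_map : HH.map sh.toMonoidHom = HH := by
  apply le_antisymm
  · rintro _ ⟨x, hx, rfl⟩; exact HH_inv hx
  · intro x hx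
    exact ⟨sh.symm x, fun n => hx (n + -1), sh.apply_symm_apply x⟩

theorem finite_bound {α : Type*} {F : Set α} (hF : F.Finite) (P : ℕ → α → Prop)
    (hm : ∀ K K', K ≤ K' → ∀ x, P K x → P K' x) (h : ∀ x ∈ F, ∃ K, P K x) :
    ∃ K, ∀ x ∈ F, P K x := by
  induction F, hF using Set.Finite.induction_on with
  | empty => exact ⟨0, fun _ hx => hx.elim⟩
  | @insert a s _ _ ih =>
    obtain ⟨K, hK⟩ := ih fun x hx => h x (Set.mem_insert_of_mem _ hx)
    obtain ⟨K', hK'⟩ := h a (Set.mem_insert _ _)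
    refine ⟨max K K', ?_⟩
    rintro x (rfl | hx)
    · exact hm _ _ (le_max_right _ _) _ hK'
    · exact hm _ _ (le_max_left _ _) _ (hK x hx)

theorem ent_quot_le : ent sh.toMonoidHom ⊤ HH ≤ ENNReal.ofReal (Real.log (2 : ℕ)) := by
  refine ent_le_log _ _ _ HH_inv (by norm_num) fun F hF _ _ => ?_
  obtain ⟨K, hK⟩ := finite_bound hF (fun K g => (fun n => (g.1 n).b) ∈ Wd bet K 0)
    (fun K K' h x hx => Wd_mono bet h le_rfl hx) fun g _ => exists_Wd g.2.2
  refine ⟨2 ^ (2 * K), fun n => ?_⟩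
  have hsub : ∀ g ∈ traj sh.toMonoidHom F n, (fun m => (g.1 m).b) ∈ Wd bet K n := by
    induction n with
    | zero => rintro g rfl; exact Submodule.zero_mem _
    | succ n ih =>
      rw [traj_succ']
      rintro _ ⟨f, hf, _, ⟨t, ht, rfl⟩, rfl⟩
      exact Submodule.add_mem _ (Wd_mono bet le_rfl (Nat.zero_le _) (hK f hf)) (Wd_tr (ih t ht))
  have h1 := ncard_image_le_of_imp (traj_finite sh.toMonoidHom hF n)
    (fun g : GG => fun m => (g.1 m).b) (QuotientGroup.mk : GG → GG ⧸ HH) fun x _ y _ e => by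
      rw [QuotientGroup.eq]
      intro m
      change (x.1 m).b + (y.1 m).b = 0
      rw [show (x.1 m).b = (y.1 m).b from congrFun e m]
      generalize (y.1 m).b = c
      revert c; decide
  obtain ⟨hf, hc⟩ := Wd_card bet K n
  rw [Nat.card_zmod] at hc
  refine h1.trans (le_trans (Set.ncard_le_ncard ?_ hf) hc)
  rintro _ ⟨g, hg, rfl⟩
  exact hsub g hg

theorem ent_sub_le : ent sh.toMonoidHom HH ⊥ ≤ ENNReal.ofReal (Real.log (3 : ℕ)) := by
  refine ent_le_log _ _ _ bot_le (by norm_num) fun F hF _ hFH => ?_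
  obtain ⟨K, hK⟩ := finite_bound hF
    (fun K g => (fun n => (g.1 n).a) ∈ Pk (ZMod 3) K ⊔ Wd tpl K 0)
    (fun K K' h x hx => sup_le_sup (Pk_mono h) (Wd_mono tpl h le_rfl) hx) fun g _ => by
      obtain ⟨p, ⟨K, hp⟩, q, hq, e⟩ := Submodule.mem_sup.1 g.2.1
      obtain ⟨K', hq'⟩ := exists_Wd hq
      refine ⟨max K K', ?_⟩
      rw [← e]
      exact Submodule.add_mem_sup (Pk_mono (le_max_left _ _) hp)
        (Wd_mono tpl (le_max_right _ _) le_rfl hq')
  refine ⟨(Pk (ZMod 3) K : Set (ℤ → ZMod 3)).ncard * 3 ^ (2 * K), fun n => ?_⟩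
  have hsub : ∀ g ∈ traj sh.toMonoidHom F n,
      (fun m => (g.1 m).a) ∈ Pk (ZMod 3) K ⊔ Wd tpl K n := by
    induction n with
    | zero => rintro g rfl; exact Submodule.zero_mem _
    | succ n ih =>
      rw [traj_succ']
      rintro _ ⟨f, hf, _, ⟨t, ht, rfl⟩, rfl⟩
      have e : (fun m => ((f * sh.toMonoidHom t).1 m).a) =
          (fun m => (f.1 m).a) + tr 1 (fun m => (t.1 m).a) := by
        funext m
        change (f.1 m).a + sg (f.1 m).b * (t.1 (m + 1)).a = (f.1 m).a + (t.1 (m + 1)).a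
        rw [hFH hf m]; simp [sg]
      simp only
      rw [e]
      refine Submodule.add_mem _
        (sup_le_sup_left (Wd_mono tpl le_rfl (Nat.zero_le _)) _ (hK f hf)) ?_
      obtain ⟨p, hp, q, hq, e'⟩ := Submodule.mem_sup.1 (ih t ht)
      rw [← e', map_add]
      exact Submodule.add_mem_sup (Pk_tr 1 hp) (Wd_tr hq)
  have h1 := ncard_image_le_of_imp (traj_finite sh.toMonoidHom hF n)
    (fun g : GG => fun m => (g.1 m).a) (QuotientGroup.mk : GG → GG ⧸ (⊥ : Subgroup GG))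
    fun x hx y hy e => by
      congr 1
      refine Subtype.ext (funext fun m => Aff3.ext (congrFun e m) ?_)
      rw [traj_subset HH_inv hFH n hx m, traj_subset HH_inv hFH n hy m]
  obtain ⟨hf, hc⟩ := Wd_card tpl K n
  rw [Nat.card_zmod] at hc
  have hP := Pk_finite (R := ZMod 3) K
  refine h1.trans (le_trans (Set.ncard_le_ncard (t := (fun p : _ × _ => p.1 + p.2) ''
    ((Pk (ZMod 3) K : Set (ℤ → ZMod 3)) ×ˢ (Wd tpl K n : Set (ℤ → ZMod 3)))) ?_
    ((hP.prod hf).image _)) ?_)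
  · rintro _ ⟨g, hg, rfl⟩
    obtain ⟨p, hp, q, hq, e'⟩ := Submodule.mem_sup.1 (hsub g hg)
    exact ⟨(p, q), ⟨hp, hq⟩, e'⟩
  · refine (Set.ncard_image_le (hP.prod hf)).trans ?_
    rw [Set.ncard_prod, mul_assoc]
    exact Nat.mul_le_mul le_rfl hc

/-- A function of period two. -/
def per2 (c : ZMod 3 × ZMod 3) (n : ℤ) : ZMod 3 := if n % 2 = 0 then c.1 else c.2

theorem per2_add (c : ZMod 3 × ZMod 3) (n m : ℤ) : per2 c (2 * m + n) = per2 c n := by
  unfold per2; rw [show (2 * m + n) % 2 = n % 2 by omega]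

/-- The generators of the fast growing trajectory. -/
def gen (c : ZMod 3 × ZMod 3) : GG :=
  ⟨fun n => ⟨per2 c n, bet n⟩, Submodule.mem_sup_left ⟨1, fun n => by
    have := per2_add c n 1
    simpa [add_comm] using this⟩, Submodule.subset_span ⟨0, by funext n; simp [tr_apply]⟩⟩

theorem iter_sh (n : ℕ) (g : GG) (m : ℤ) :
    ((sh.toMonoidHom : GG → GG)^[n] g).1 m = g.1 (m + n) := by
  induction n generalizing m with
  | zero => simp
  | succ n ih =>
    rw [Function.iterate_succ_apply']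
    change ((sh.toMonoidHom : GG → GG)^[n] g).1 (m + 1) = _
    rw [ih, show m + 1 + (n : ℤ) = m + ((n + 1 : ℕ) : ℤ) by push_cast; ring]

theorem exists_traj (c : ℕ → ZMod 3 × ZMod 3) (n : ℕ) :
    ∃ t ∈ traj sh.toMonoidHom (insert 1 (Set.range gen)) n, ∀ m : ℤ,
      sg (t.1 m).b = gam m * gam (m + n) ∧
      (t.1 m).a = gam m * ∑ i ∈ Finset.range n, per2 (c i) (m + i) * gam (m + i) := by
  induction n with
  | zero =>
    refine ⟨1, rfl, fun m => ⟨?_, by simp; rfl⟩⟩
    simp only [Nat.cast_zero, add_zero, gam_sq]; rfl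
  | succ n ih =>
    obtain ⟨t, ht, h⟩ := ih
    refine ⟨_, ⟨t, ht, _, ⟨gen (c n), Set.mem_insert_of_mem _ ⟨_, rfl⟩, rfl⟩, rfl⟩, fun m => ?_⟩
    obtain ⟨h1, h2⟩ := h m
    have e : ((fun x1 x2 => x1 * x2) t ((sh.toMonoidHom : GG → GG)^[n] (gen (c n)))).1 m =
        t.1 m * ⟨per2 (c n) (m + n), bet (m + n)⟩ := by
      change t.1 m * ((sh.toMonoidHom : GG → GG)^[n] (gen (c n))).1 m = _
      rw [iter_sh]; rfl
    rw [e, Aff3.mul_a, Aff3.mul_b, sg_add, h1, h2, sg_bet, Finset.sum_range_succ]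
    constructor
    · unfold tpl
      push_cast
      rw [← add_assoc]
      linear_combination gam m * gam (m + n + 1) * gam_sq (m + n)
    · ring

theorem ent_ge : ENNReal.ofReal (Real.log (9 : ℕ)) ≤ ent sh.toMonoidHom ⊤ ⊥ := by
  have hF : (insert 1 (Set.range gen) : Set GG).Finite := (Set.finite_range _).insert _
  refine log_le_ent _ hF (Set.mem_insert _ _) (by norm_num) fun n => ?_
  let ex : (Fin n → ZMod 3 × ZMod 3) → ℕ → ZMod 3 × ZMod 3 :=
    fun c i => if h : i < n then c ⟨i, h⟩ else 0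
  choose t ht hspec using fun c => exists_traj (ex c) n
  have hinj : Function.Injective t := by
    intro c d e
    have key : ∀ m : ℤ, ∑ i ∈ Finset.range n,
        (per2 (ex c i) (m + i) - per2 (ex d i) (m + i)) * gam (m + i) = 0 := by
      intro m
      have a1 := (hspec c m).2
      have a2 := (hspec d m).2
      rw [e, a2] at a1
      simp only [sub_mul, Finset.sum_sub_distrib]
      linear_combination (-gam m) * a1 - (∑ i ∈ Finset.range n, per2 (ex c i) (m + i) * gam (m + i)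
        - ∑ i ∈ Finset.range n, per2 (ex d i) (m + i) * gam (m + i)) * gam_sq m
    have k2 : ∀ r : ℤ, ∀ i < n, per2 (ex c i) (r + i) - per2 (ex d i) (r + i) = 0 := fun r =>
      noRec n r _ fun m => by
        rw [← key (2 * m + r)]
        refine Finset.sum_congr rfl fun i _ => ?_
        rw [add_assoc (2 * m), per2_add, per2_add]
    funext i
    have b0 := k2 (-(i : ℕ)) i i.2
    have b1 := k2 (1 - (i : ℕ)) i i.2
    simp only [ex, dif_pos i.2, neg_add_cancel, sub_add_cancel, per2] at b0 b1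
    norm_num at b0 b1
    exact Prod.ext (sub_eq_zero.1 b0) (sub_eq_zero.1 b1)
  have := Set.ncard_le_ncard_of_injOn (s := Set.univ) t (fun c _ => ht c) hinj.injOn
    (traj_finite _ hF n)
  rw [Set.ncard_univ, Nat.card_eq_fintype_card] at this
  simpa using this

theorem counter_lt : halg (QuotientGroup.map HH HH sh.toMonoidHom HH_inv) +
    halg (restr sh.toMonoidHom HH HH_inv) < halg sh.toMonoidHom := by
  rw [halg_eq_ent sh.toMonoidHom, halg_quot, halg_restr]
  refine lt_of_le_of_lt (add_le_add ent_quot_le ent_sub_le) (lt_of_lt_of_le ?_ ent_ge)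
  have h2 : (0 : ℝ) ≤ Real.log (2 : ℕ) := Real.log_natCast_nonneg _
  have h3 : (0 : ℝ) ≤ Real.log (3 : ℕ) := Real.log_natCast_nonneg _
  rw [← ENNReal.ofReal_add h2 h3, ← Real.log_mul (by norm_num) (by norm_num),
    ENNReal.ofReal_lt_ofReal_iff (Real.log_pos (by norm_num))]
  exact Real.log_lt_log (by norm_num) (by norm_num)

theorem GG_pow (g : GG) : g ^ 6 = 1 := by
  have : ∀ x : Aff3, x ^ 6 = 1 := by decide
  exact Subtype.ext (funext fun n => this _)

theorem HH_comm (a b : GG) (ha : a ∈ HH) (hb : b ∈ HH) : a * b = b * a := by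
  have : ∀ x y : Aff3, x.b = 0 → y.b = 0 → x * y = y * x := by decide
  exact Subtype.ext (funext fun n => this _ _ (ha n) (hb n))

theorem comm_mem_HH (a b : GG) : a * b * a⁻¹ * b⁻¹ ∈ HH := by
  have : ∀ x y : Aff3, (x * y * x⁻¹ * y⁻¹).b = 0 := by decide
  exact fun n => this _ _

theorem GG_locally_finite (S : Set GG) (hS : S.Finite) :
    (Subgroup.closure S : Set GG).Finite := by
  have : Finite S := hS
  let ty : ℤ → (S → Aff3) := fun n s => s.1.1 n
  let P : Subgroup GG :=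
    { carrier := {g | ∀ n m, ty n = ty m → g.1 n = g.1 m}
      one_mem' := fun _ _ _ => rfl
      mul_mem' := fun {x y} hx hy n m e => by
        change x.1 n * y.1 n = x.1 m * y.1 m
        rw [hx n m e, hy n m e]
      inv_mem' := fun {x} hx n m e => by
        change (x.1 n)⁻¹ = (x.1 m)⁻¹
        rw [hx n m e] }
  have hle : Subgroup.closure S ≤ P :=
    (Subgroup.closure_le P).2 fun s hs n m e => congrFun e ⟨s, hs⟩
  refine Set.Finite.subset (s := (P : Set GG)) ?_ hle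
  refine Set.Finite.of_finite_image
    (f := fun (g : GG) (v : Set.range ty) => g.1 v.2.choose) (Set.toFinite _) ?_
  intro g hg k hk e
  refine Subtype.ext (funext fun n => ?_)
  have hv : ty n ∈ Set.range ty := ⟨n, rfl⟩
  have := congrFun e ⟨ty n, hv⟩
  rw [hg n _ hv.choose_spec.symm, hk n _ hv.choose_spec.symm]
  exact this

end Pool.Agent.P.MP_8d62fb_al
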