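import Mathlib

/-! Algebraic entropy of group endomorphisms and the Addition Theorem: definitions. -/

namespace Pool.Agent.P.MP_8d62fb_al

open scoped Pointwise ENNReal

variable {G : Type*} [Group G]

/-- The trajectory `T_n(φ, F) = F · φ(F) ⋯ φ^(n-1)(F)`, with `T_0 = {1}`. -/
def traj (φ : G →* G) (F : Set G) : ℕ → Set G
  | 0 => {1}
  | n + 1 => traj φ F n * ((φ : G → G)^[n] '' F)

/-- `H_alg(φ, F) = limsup log |T_n(φ, F)| / n`. -/
noncomputable def Halg (φ : G →* G) (F : Set G) : ℝ :=
  Filter.limsup (fun n : ℕ => Real.log ((traj φ F n).ncard : ℝ) / (n : ℝ)) Filter.atTop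

/-- The algebraic entropy: supremum of `H_alg(φ, F)` over finite `F` containing `1`. -/
noncomputable def halg (φ : G →* G) : ℝ≥0∞ :=
  ⨆ (F : Set G) (_ : F.Finite ∧ (1 : G) ∈ F), ENNReal.ofReal (Halg φ F)

/-- The restriction of `φ` to a subgroup `H` with `φ(H) ≤ H`. -/
def restr (φ : G →* G) (H : Subgroup G) (h : H ≤ H.comap φ) : H →* H :=
  (φ.comp H.subtype).codRestrict H (fun x => h x.2)

/-- The Addition Theorem holds for `φ`. -/
def AdditionTheorem (φ : G →* G) : Prop :=
  ∀ (H : Subgroup G) [H.Normal] (h : H ≤ H.comap φ),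
    halg φ = halg (QuotientGroup.map H H φ h) + halg (restr φ H h)

/-- `XY = YX` for all subgroups. -/
def Quasihamiltonian (Q : Type*) [Group Q] : Prop :=
  ∀ X Y : Subgroup Q, (X : Set Q) * (Y : Set Q) = (Y : Set Q) * (X : Set Q)

/-- The terms of ascending series `1 = N_0 ≤ N_1 ≤ ...` (of any ordinal length, unions at limit
steps) of normal `φ`-invariant subgroups of `G` in which every element of `N_(a+1) / N_a` has only
finitely many conjugates in `G / N_a`. -/
inductive FCHyper (φ : G →* G) : Subgroup G → Prop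
  | bot : FCHyper φ ⊥
  | step (M N : Subgroup G) : FCHyper φ M → M ≤ N → N.Normal → N ≤ N.comap φ →
      (∀ x ∈ N, (Set.range fun g : G => (QuotientGroup.mk (g * x * g⁻¹) : G ⧸ M)).Finite) →
      FCHyper φ N
  | union (c : Set (Subgroup G)) : c.Nonempty → IsChain (· ≤ ·) c → (∀ M ∈ c, FCHyper φ M) →
      FCHyper φ (sSup c)

end Pool.Agent.P.MP_8d62fb_al
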