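import Pool.Agent.P.MP_8d62fb_al.Defs

/-! Normal subgroups inside the FC-hypercentre, and subgroups all of whose subgroups permute. -/

namespace Pool.Agent.P.MP_8d62fb_al

open scoped Pointwise

/-- `N` lies in the FC-hypercentre of `G`: for every normal subgroup `M` of `G` properly contained
in `N`, some element of `N` outside `M` has only finitely many conjugates modulo `M`. -/
def FCHypercentral {G : Type*} [Group G] (N : Subgroup G) : Prop :=
  ∀ M : Subgroup G, M.Normal → M < N → ∃ x ∈ N, x ∉ M ∧
    (Set.range fun g : G => (QuotientGroup.mk (g * x * g⁻¹) : G ⧸ M)).Finite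

/-- Every subgroup of `K` permutes with every subgroup of `Q`. -/
def AllPermutable {Q : Type*} [Group Q] (K : Subgroup Q) : Prop :=
  ∀ X Y : Subgroup Q, X ≤ K → (X : Set Q) * (Y : Set Q) = (Y : Set Q) * (X : Set Q)

end Pool.Agent.P.MP_8d62fb_al
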