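import Pool.Agent.P.MP_8d62fb_al.Step

/-! Additivity of the entropy along ascending FC-central series. -/

namespace Pool.Agent.P.MP_8d62fb_al

open scoped Pointwise ENNReal Topology
open Filter

variable {G : Type*} [Group G] {φ : G →* G}

theorem mem_sSup_chain {c : Set (Subgroup G)} (hne : c.Nonempty) (hc : IsChain (· ≤ ·) c)
    {x : G} : x ∈ sSup c ↔ ∃ M ∈ c, x ∈ M :=
  Subgroup.mem_sSup_of_directedOn hne hc.directedOn

theorem FCHyper.normal {M : Subgroup G} (h : FCHyper φ M) : M.Normal := by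
  induction h with
  | bot => infer_instance
  | step M N _ _ hn _ _ _ => exact hn
  | union c hne hc _ ih =>
    refine ⟨fun x hx g => ?_⟩
    obtain ⟨M, hM, hxM⟩ := (mem_sSup_chain hne hc).1 hx
    exact (mem_sSup_chain hne hc).2 ⟨M, hM, (ih M hM).conj_mem x hxM g⟩

theorem FCHyper.inv {M : Subgroup G} (h : FCHyper φ M) : M ≤ M.comap φ := by
  induction h with
  | bot => exact bot_le
  | step M N _ _ _ hi _ _ => exact hi
  | union c hne hc _ ih =>
    intro x hx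
    obtain ⟨M, hM, hxM⟩ := (mem_sSup_chain hne hc).1 hx
    exact (mem_sSup_chain hne hc).2 ⟨M, hM, ih M hM hxM⟩

theorem FCHyper.inf {M : Subgroup G} (h : FCHyper φ M) (H : Subgroup G) [hH : H.Normal]
    (hi : H ≤ H.comap φ) : FCHyper φ (M ⊓ H) := by
  induction h with
  | bot => rw [bot_inf_eq]; exact FCHyper.bot
  | step M N hM hMN hn hNi hfc ih =>
    refine FCHyper.step (M ⊓ H) (N ⊓ H) ih (inf_le_inf_right _ hMN) inferInstance
      (inf_inv hNi hi) fun x hx => ?_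
    refine Set.Finite.of_finite_image (f := Subgroup.quotientMapOfLE (inf_le_left : M ⊓ H ≤ M))
      ((hfc x hx.1).subset ?_) ?_
    · rintro _ ⟨_, ⟨g, rfl⟩, rfl⟩
      exact ⟨g, rfl⟩
    · rintro _ ⟨g, rfl⟩ _ ⟨k, rfl⟩ e
      have e' : (QuotientGroup.mk (g * x * g⁻¹) : G ⧸ M) = QuotientGroup.mk (k * x * k⁻¹) := e
      rw [QuotientGroup.eq] at e'
      exact QuotientGroup.eq.2 ⟨e', H.mul_mem (H.inv_mem (hH.conj_mem x hx.2 g))
        (hH.conj_mem x hx.2 k)⟩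
  | union c hne hc _ ih =>
    have hc' : IsChain (· ≤ ·) ((fun M => M ⊓ H) '' c) := by
      rintro _ ⟨A, hA, rfl⟩ _ ⟨B, hB, rfl⟩ _
      rcases hc.total hA hB with h | h
      · exact Or.inl (inf_le_inf_right _ h)
      · exact Or.inr (inf_le_inf_right _ h)
    have : sSup c ⊓ H = sSup ((fun M => M ⊓ H) '' c) := by
      ext x
      rw [Subgroup.mem_inf, mem_sSup_chain hne hc, mem_sSup_chain (hne.image _) hc']
      constructor
      · rintro ⟨⟨M, hM, hx⟩, hxH⟩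
        exact ⟨_, ⟨M, hM, rfl⟩, hx, hxH⟩
      · rintro ⟨_, ⟨M, hM, rfl⟩, hx⟩
        exact ⟨⟨M, hM, hx.1⟩, hx.2⟩
    rw [this]
    refine FCHyper.union _ (hne.image _) hc' ?_
    rintro _ ⟨M, hM, rfl⟩
    exact ih M hM

theorem mem_sup_normal {A K : Subgroup G} [K.Normal] {x : G} (hx : x ∈ A ⊔ K) :
    ∃ a ∈ A, ∃ k ∈ K, x = a * k := by
  have : x ∈ ((A ⊔ K : Subgroup G) : Set G) := hx
  rw [Subgroup.mul_normal] at this
  obtain ⟨a, ha, k, hk, rfl⟩ := this
  exact ⟨a, ha, k, hk, rfl⟩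

theorem finite_subset_chain {c : Set (Subgroup G)} (hne : c.Nonempty) (hc : IsChain (· ≤ ·) c)
    (K : Subgroup G) [K.Normal] {X : Set G} (hX : X.Finite)
    (hs : X ⊆ (sSup c ⊔ K : Subgroup G)) : ∃ M ∈ c, X ⊆ (M ⊔ K : Subgroup G) := by
  induction X, hX using Set.Finite.induction_on with
  | empty => obtain ⟨M, hM⟩ := hne; exact ⟨M, hM, Set.empty_subset _⟩
  | @insert a s _ _ ih =>
    obtain ⟨M, hM, hsM⟩ := ih ((Set.subset_insert _ _).trans hs)
    obtain ⟨b, hb, k, hk, e⟩ := mem_sup_normal (hs (Set.mem_insert a s))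
    obtain ⟨M', hM', hbM⟩ := (mem_sSup_chain hne hc).1 hb
    have ha : a ∈ M' ⊔ K := e ▸ Subgroup.mul_mem_sup hbM hk
    rcases hc.total hM hM' with h | h
    · exact ⟨M', hM', Set.insert_subset ha (hsM.trans (sup_le_sup_right h K))⟩
    · exact ⟨M, hM, Set.insert_subset ((sup_le_sup_right h K) ha) hsM⟩

theorem FCHyper.additive {M : Subgroup G} (h : FCHyper φ M) :
    ∀ (L K : Subgroup G) [K.Normal], L ≤ L.comap φ → K ≤ K.comap φ →
      (∀ F : Set G, F.Finite → (1 : G) ∈ F → F ⊆ L →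
        ENNReal.ofReal (HR φ F K) ≤ ENNReal.ofReal (HR φ F (M ⊔ K)) + ent φ (L ⊓ (M ⊔ K)) K) ∧
      ent φ L (M ⊔ K) + ent φ (L ⊓ (M ⊔ K)) K ≤ ent φ L K := by
  induction h with
  | bot =>
    intro L K _ hL hK
    rw [bot_sup_eq]
    refine ⟨fun F _ _ _ => le_self_add, ?_⟩
    rw [ent_of_le φ (inf_inv hL hK) inf_le_right, add_zero]
  | step M N hM hMN hn hNi hfc ih =>
    intro L K hKn hL hK
    have hMn := hM.normal
    have hMi := hM.inv
    have hle : M ⊔ K ≤ N ⊔ K := sup_le_sup_right hMN K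
    have hfc' : ∀ x ∈ N ⊔ K, (Set.range fun g : G =>
        (QuotientGroup.mk (g * x * g⁻¹) : G ⧸ (M ⊔ K))).Finite := by
      intro x hx
      obtain ⟨a, ha, k, hk, rfl⟩ := mem_sup_normal hx
      refine ((hfc a ha).image (Subgroup.quotientMapOfLE (le_sup_left : M ≤ M ⊔ K))).subset ?_
      rintro _ ⟨g, rfl⟩
      refine ⟨_, ⟨g, rfl⟩, ?_⟩
      change (QuotientGroup.mk (g * a * g⁻¹) : G ⧸ (M ⊔ K)) = QuotientGroup.mk (g * (a * k) * g⁻¹)
      rw [QuotientGroup.eq]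
      have : (g * a * g⁻¹)⁻¹ * (g * (a * k) * g⁻¹) = g * k * g⁻¹ := by group
      rw [this]
      exact Subgroup.mem_sup_right (hKn.conj_mem k hk g)
    have hL' : L ⊓ (N ⊔ K) ≤ (L ⊓ (N ⊔ K)).comap φ := inf_inv hL (sup_inv hNi hK)
    have e : L ⊓ (N ⊔ K) ⊓ (M ⊔ K) = L ⊓ (M ⊔ K) := by
      rw [inf_assoc, inf_eq_right.2 hle]
    obtain ⟨U1, D1⟩ := ih L K hL hK
    obtain ⟨U2, D2⟩ := ih (L ⊓ (N ⊔ K)) K hL' hK
    rw [e] at U2 D2
    constructor
    · intro F hF h1 hFL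
      have := upper1 φ hL (sup_inv hMi hK) (sup_inv hNi hK) hle hfc' hF h1 hFL
      calc ENNReal.ofReal (HR φ F K)
          ≤ ENNReal.ofReal (HR φ F (M ⊔ K)) + ent φ (L ⊓ (M ⊔ K)) K := U1 F hF h1 hFL
        _ ≤ ENNReal.ofReal (HR φ F (N ⊔ K)) + ent φ (L ⊓ (N ⊔ K)) (M ⊔ K) +
            ent φ (L ⊓ (M ⊔ K)) K := add_le_add this le_rfl
        _ ≤ _ := by rw [add_assoc]; exact add_le_add le_rfl D2
    · have l1 := lower1 φ hL (sup_inv hMi hK) (sup_inv hNi hK) hle hfc'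
      have u2 : ent φ (L ⊓ (N ⊔ K)) K ≤
          ent φ (L ⊓ (N ⊔ K)) (M ⊔ K) + ent φ (L ⊓ (M ⊔ K)) K :=
        ent_le fun F hF h1 hFL => (U2 F hF h1 hFL).trans
          (add_le_add (le_ent _ hF h1 hFL) le_rfl)
      calc ent φ L (N ⊔ K) + ent φ (L ⊓ (N ⊔ K)) K
          ≤ ent φ L (N ⊔ K) + (ent φ (L ⊓ (N ⊔ K)) (M ⊔ K) + ent φ (L ⊓ (M ⊔ K)) K) :=
            add_le_add le_rfl u2
        _ ≤ ent φ L (M ⊔ K) + ent φ (L ⊓ (M ⊔ K)) K := by
            rw [← add_assoc]; exact add_le_add l1 le_rfl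
        _ ≤ _ := D1
  | union c hne hc hall ih =>
    intro L K hKn hL hK
    have hS := FCHyper.union c hne hc hall
    have hSn := hS.normal
    have hSi := hS.inv
    constructor
    · intro F hF h1 hFL
      refine le_of_tendsto_add (HR_spec φ hF h1 _ (sup_inv hSi hK)).1 fun n hn => ?_
      have hE := traj_finite φ hF n
      obtain ⟨M, hM, hXM⟩ := finite_subset_chain hne hc K
        (X := ((traj φ F n)⁻¹ * traj φ F n) ∩ (sSup c ⊔ K : Subgroup G))
        ((hE.inv.mul hE).inter_of_left _) Set.inter_subset_right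
      have hMn := (hall M hM).normal
      have hMi := (hall M hM).inv
      have hle : M ⊔ K ≤ sSup c ⊔ K := sup_le_sup_right (le_sSup hM) K
      have hcnt : cnt φ F (M ⊔ K) n ≤ cnt φ F (sSup c ⊔ K) n :=
        ncard_image_le_of_imp hE _ _ fun x hx y hy hxy => by
          rw [QuotientGroup.eq] at hxy ⊢
          exact hXM ⟨⟨x⁻¹, by simpa using hx, y, hy, rfl⟩, hxy⟩
      refine ((ih M hM L K hL hK).1 F hF h1 hFL).trans (add_le_add (ENNReal.ofReal_le_ofReal ?_)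
        (ent_mono_left φ (inf_le_inf_left _ hle) K))
      refine ((HR_spec φ hF h1 _ (sup_inv hMi hK)).2.1 n hn).trans ?_
      refine div_le_div_of_nonneg_right (Real.log_le_log ?_ ?_) (Nat.cast_nonneg n)
      · exact_mod_cast cnt_pos φ hF h1 _ n
      · exact_mod_cast hcnt
    · refine ent_add_le φ fun F1 hF1 h11 hF1L F2 hF2 h12 hF2L => ?_
      obtain ⟨M, hM, hXM⟩ := finite_subset_chain hne hc K hF2 fun x hx => (hF2L hx).2
      have hMn := (hall M hM).normal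
      have hMi := (hall M hM).inv
      have hle : M ⊔ K ≤ sSup c ⊔ K := sup_le_sup_right (le_sSup hM) K
      refine le_trans (add_le_add ?_ ?_) (ih M hM L K hL hK).2
      · exact (le_ent _ hF1 h11 hF1L).trans
          (ent_anti_right φ L (sup_inv hMi hK) (sup_inv hSi hK) hle)
      · exact le_ent _ hF2 h12 fun x hx => ⟨(hF2L hx).1, hXM hx⟩

theorem FCHyper.ent_eq {M : Subgroup G} (h : FCHyper φ M) (L K : Subgroup G) [K.Normal]
    (hL : L ≤ L.comap φ) (hK : K ≤ K.comap φ) :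
    ent φ L K = ent φ L (M ⊔ K) + ent φ (L ⊓ (M ⊔ K)) K :=
  le_antisymm (ent_le fun F hF h1 hFL => ((h.additive L K hL hK).1 F hF h1 hFL).trans
    (add_le_add (le_ent _ hF h1 hFL) le_rfl)) (h.additive L K hL hK).2

/-- The Addition Theorem lifts from `G / N` to `G` when `N` has an ascending FC-central series. -/
theorem FCHyper.lift {N : Subgroup G} (h : FCHyper φ N) (H : Subgroup G) [H.Normal]
    (hH : H ≤ H.comap φ) (top : ent φ ⊤ N = ent φ ⊤ (N ⊔ H) + ent φ H N) :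
    ent φ ⊤ ⊥ = ent φ ⊤ H + ent φ H ⊥ := by
  have hNn := h.normal
  have hNi := h.inv
  have e1 := h.ent_eq ⊤ ⊥ (top_inv φ) (bot_inv φ)
  have e2 := h.ent_eq ⊤ H (top_inv φ) hH
  have e3 := h.ent_eq H ⊥ hH (bot_inv φ)
  have e4 := (h.inf H hH).ent_eq N ⊥ hNi (bot_inv φ)
  rw [sup_bot_eq, top_inf_eq] at e1
  rw [top_inf_eq, ent_sup φ N H hH] at e2
  rw [sup_bot_eq] at e3
  rw [sup_bot_eq, ← inf_assoc, inf_idem, ent_inf φ hNi, inf_comm] at e4
  rw [e1, e2, e3, e4, top]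
  ring

end Pool.Agent.P.MP_8d62fb_al
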