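import Pool.Agent.P.MP_8d62fb_al.Hyper
import Pool.Agent.P.MP_8d62fb_al.Defs2

/-! Reduction of the Addition Theorem for subgroups of the FC-hypercentre to invariant series. -/

namespace Pool.Agent.P.MP_8d62fb_al

open scoped Pointwise ENNReal Topology
open Filter

variable {G : Type*} [Group G]

theorem itr_comm (φ : G →* G) (m : ℕ) (x : G) : itr φ m (φ x) = φ (itr φ m x) := by
  rw [itr_apply, itr_apply, ← Function.iterate_succ_apply, Function.iterate_succ_apply']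

theorem itr_add (φ : G →* G) (a b : ℕ) (x : G) : itr φ (a + b) x = itr φ a (itr φ b x) := by
  rw [itr_apply, itr_apply, itr_apply, Function.iterate_add_apply]

theorem le_of_shift {u v : ℕ → ℕ} {a b : ℝ} (hu1 : ∀ n, 1 ≤ u n) (hv1 : ∀ n, 1 ≤ v n)
    (hu : Tendsto (fun n : ℕ => Real.log (u n : ℝ) / (n : ℝ)) atTop (𝓝 a))
    (hv : Tendsto (fun n : ℕ => Real.log (v n : ℝ) / (n : ℝ)) atTop (𝓝 b))
    {C m : ℕ} (hC : 1 ≤ C) (h : ∀ n, u (m + n) ≤ C * v n) : a ≤ b := by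
  have hsub : Tendsto (fun n : ℕ => m + n) atTop atTop := tendsto_atTop_mono
    (fun n => Nat.le_add_left n m) tendsto_id
  have t1 := hu.comp hsub
  have t2 := (tendsto_const_div_atTop_nhds_zero_nat (Real.log (C : ℝ))).add hv
  rw [zero_add] at t2
  refine le_of_tendsto_of_tendsto t1 t2 ?_
  filter_upwards [eventually_ne_atTop 0] with n hn
  simp only [Function.comp]
  have hn' : (0 : ℝ) < n := by exact_mod_cast Nat.pos_of_ne_zero hn
  have p1 : (0 : ℝ) < u (m + n) := by exact_mod_cast hu1 _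
  have p2 : (1 : ℝ) ≤ v n := by exact_mod_cast hv1 _
  have p3 : (1 : ℝ) ≤ C := by exact_mod_cast hC
  have hle : (u (m + n) : ℝ) ≤ C * v n := by exact_mod_cast h n
  have h1 := Real.log_le_log p1 hle
  rw [Real.log_mul (by linarith) (by linarith)] at h1
  have h2 : 0 ≤ Real.log (C : ℝ) + Real.log (v n : ℝ) :=
    add_nonneg (Real.log_nonneg p3) (Real.log_nonneg p2)
  rw [← add_div]
  refine (div_le_div_of_nonneg_right h1 (Nat.cast_nonneg _)).trans ?_
  refine div_le_div_of_nonneg_left h2 hn' ?_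
  push_cast
  linarith [(Nat.cast_nonneg m : (0 : ℝ) ≤ m)]

theorem HR_le_shift (φ : G →* G) {F : Set G} (hF : F.Finite) (h1 : (1 : G) ∈ F)
    (K : Subgroup G) [K.Normal] (hK : K ≤ K.comap φ) (m : ℕ) :
    HR φ F K ≤ HR φ (itr φ m '' F) K := by
  have hF' : (itr φ m '' F).Finite := hF.image _
  have h1' : (1 : G) ∈ itr φ m '' F := ⟨1, h1, map_one _⟩
  refine le_of_shift (cnt_pos φ hF h1 K) (cnt_pos φ hF' h1' K) (HR_spec φ hF h1 K hK).1
    (HR_spec φ hF' h1' K hK).1 (C := cnt φ F K m) (m := m) (cnt_pos φ hF h1 K m) fun n => ?_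
  unfold cnt
  rw [traj_add, ← coe_itr, image_traj (itr φ m) (itr_comm φ m)]
  have e : (QuotientGroup.mk : G → G ⧸ K) = QuotientGroup.mk' K := rfl
  rw [e, Set.image_mul]
  exact ncard_mul_le' ((traj_finite φ hF m).image _) ((traj_finite φ hF' n).image _)

/-- The saturation of an invariant subgroup. -/
def sat (φ : G →* G) (K : Subgroup G) (hK : K ≤ K.comap φ) : Subgroup G where
  carrier := {x | ∃ m, itr φ m x ∈ K}
  one_mem' := ⟨0, K.one_mem⟩
  inv_mem' := fun ⟨m, hm⟩ => ⟨m, by rw [map_inv]; exact K.inv_mem hm⟩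
  mul_mem' := fun {a b} ⟨m, hm⟩ ⟨n, hn⟩ => ⟨m + n, by
    rw [map_mul]
    refine K.mul_mem ?_ ?_
    · rw [add_comm, itr_add, itr_apply φ n]; exact iter_mem hK n hm
    · rw [itr_add, itr_apply φ m]; exact iter_mem hK m hn⟩

section satur

variable {φ : G →* G} {K : Subgroup G} (hK : K ≤ K.comap φ)

theorem le_sat : K ≤ sat φ K hK := fun _ hx => ⟨0, hx⟩

theorem sat_normal [hn : K.Normal] : (sat φ K hK).Normal :=
  ⟨fun x ⟨m, hm⟩ g => ⟨m, by rw [map_mul, map_mul, map_inv]; exact hn.conj_mem _ hm _⟩⟩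

theorem sat_inv : sat φ K hK ≤ (sat φ K hK).comap φ := fun x ⟨m, hm⟩ =>
  ⟨m, by rw [itr_comm]; exact hK hm⟩

theorem mem_sat_of_apply {x : G} (hx : φ x ∈ sat φ K hK) : x ∈ sat φ K hK := by
  obtain ⟨m, hm⟩ := hx
  exact ⟨m + 1, hm⟩

theorem exists_itr_of_finite {X : Set G} (hX : X.Finite) (hs : X ⊆ sat φ K hK) :
    ∃ m, ∀ x ∈ X, itr φ m x ∈ K := by
  induction X, hX using Set.Finite.induction_on with
  | empty => exact ⟨0, fun _ h => h.elim⟩
  | @insert a s _ _ ih =>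
    obtain ⟨m, hm⟩ := ih ((Set.subset_insert _ _).trans hs)
    obtain ⟨n, hn⟩ := hs (Set.mem_insert a s)
    refine ⟨m + n, fun x hx => ?_⟩
    rcases hx with rfl | hx
    · rw [itr_add, itr_apply φ m]; exact iter_mem hK m hn
    · rw [add_comm, itr_add, itr_apply φ n]; exact iter_mem hK n (hm x hx)

theorem HR_le_sat [K.Normal] {F : Set G} (hF : F.Finite) (h1 : (1 : G) ∈ F) :
    HR φ F K ≤ HR φ F (sat φ K hK) := by
  have := sat_normal hK
  refine ge_of_tendsto (HR_spec φ hF h1 _ (sat_inv hK)).1 ?_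
  filter_upwards [eventually_ne_atTop 0] with n hn
  have hE := traj_finite φ hF n
  obtain ⟨m, hm⟩ := exists_itr_of_finite hK
    (X := ((traj φ F n)⁻¹ * traj φ F n) ∩ sat φ K hK) ((hE.inv.mul hE).inter_of_left _)
    Set.inter_subset_right
  have hK' : K.comap (itr φ m) ≤ (K.comap (itr φ m)).comap φ := fun x hx => by
    rw [Subgroup.mem_comap, Subgroup.mem_comap, itr_comm]; exact hK hx
  have hcnt : cnt φ F (K.comap (itr φ m)) n ≤ cnt φ F (sat φ K hK) n :=
    ncard_image_le_of_imp hE _ _ fun x hx y hy hxy => by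
      rw [QuotientGroup.eq] at hxy ⊢
      exact hm _ ⟨⟨x⁻¹, by simpa using hx, y, hy, rfl⟩, hxy⟩
  refine (HR_le_shift φ hF h1 K hK m).trans ?_
  rw [HR_transfer (itr φ m) (itr_comm φ m) hF]
  refine ((HR_spec φ hF h1 _ hK').2.1 n hn).trans ?_
  refine div_le_div_of_nonneg_right (Real.log_le_log ?_ ?_) (Nat.cast_nonneg n)
  · exact_mod_cast cnt_pos φ hF h1 _ n
  · exact_mod_cast hcnt

theorem ent_sat_right [K.Normal] (L : Subgroup G) : ent φ L (sat φ K hK) = ent φ L K := by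
  have := sat_normal hK
  refine le_antisymm (ent_anti_right φ L hK (sat_inv hK) (le_sat hK)) ?_
  exact ent_le fun F hF h1 hL =>
    (ENNReal.ofReal_le_ofReal (HR_le_sat hK hF h1)).trans (le_ent _ hF h1 hL)

theorem ent_sat_left (M : Subgroup G) [M.Normal] (hM : M ≤ M.comap φ) :
    ent φ (sat φ K hK) M ≤ ent φ K M := by
  refine ent_le fun F hF h1 hL => ?_
  obtain ⟨m, hm⟩ := exists_itr_of_finite hK hF hL
  refine (ENNReal.ofReal_le_ofReal (HR_le_shift φ hF h1 M hM m)).trans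
    (le_ent _ (hF.image _) ⟨1, h1, map_one _⟩ ?_)
  rintro _ ⟨x, hx, rfl⟩
  exact hm x hx

end satur

theorem pow_le_cnt {φ : G →* G} {L K : Subgroup G} (hL : L ≤ L.comap φ)
    (hs : ∀ x, φ x ∈ K → x ∈ K) {F : Set G} (hF : F.Finite) (h1 : (1 : G) ∈ F) (hFL : F ⊆ L)
    (hi : ∀ x ∈ F, ∀ y ∈ F, x⁻¹ * y ∈ L.map φ ⊔ K → x = y) (n : ℕ) :
    F.ncard ^ n ≤ cnt φ F K n := by
  induction n with
  | zero => simpa using cnt_pos φ hF h1 K 0
  | succ n ih =>
    obtain ⟨R, hRT, hRc, hRi, -⟩ := exists_reps (traj_finite φ hF n) K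
    have : F.ncard * cnt φ F K n ≤ cnt φ F K (n + 1) := by
      unfold cnt
      rw [← hRc, ← Set.ncard_prod]
      refine Set.ncard_le_ncard_of_injOn
        (fun p : G × G => (QuotientGroup.mk (p.1 * φ p.2) : G ⧸ K)) (fun p hp => ?_) ?_
        ((traj_finite φ hF _).image _)
      · rw [traj_succ']
        exact ⟨_, ⟨p.1, hp.1, _, ⟨p.2, hRT hp.2, rfl⟩, rfl⟩, rfl⟩
      · rintro ⟨a, b⟩ ⟨ha, hb⟩ ⟨c, d⟩ ⟨hc, hd⟩ e
        simp only at e ha hb hc hd
        rw [QuotientGroup.eq] at e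
        have hbL : φ b ∈ L.map φ ⊔ K :=
          Subgroup.mem_sup_left ⟨b, traj_subset hL hFL n (hRT hb), rfl⟩
        have hdL : φ d ∈ L.map φ ⊔ K :=
          Subgroup.mem_sup_left ⟨d, traj_subset hL hFL n (hRT hd), rfl⟩
        have hac : a = c := by
          refine hi a ha c hc ?_
          have : a⁻¹ * c = φ b * ((a * φ b)⁻¹ * (c * φ d)) * (φ d)⁻¹ := by group
          rw [this]
          exact mul_mem (mul_mem hbL (Subgroup.mem_sup_right e)) (inv_mem hdL)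
        subst hac
        have : φ (b⁻¹ * d) ∈ K := by
          have e2 : φ (b⁻¹ * d) = (a * φ b)⁻¹ * (a * φ d) := by
            rw [map_mul, map_inv]; group
          rwa [e2]
        rw [hRi hb hd (QuotientGroup.eq.2 (hs _ this))]
    rw [pow_succ']
    exact (Nat.mul_le_mul_left _ ih).trans this

theorem finite_cosets {φ : G →* G} {L K : Subgroup G} [hn : K.Normal] (hL : L ≤ L.comap φ)
    (hK : K ≤ K.comap φ) (hs : ∀ x, φ x ∈ K → x ∈ K) (hfin : ent φ L K ≠ ⊤) :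
    ∃ R : Set G, R.Finite ∧ ∀ x ∈ L, ∃ r ∈ R, r⁻¹ * x ∈ L.map φ ⊔ K := by
  classical
  set J := L.map φ ⊔ K with hJ
  by_cases hf : ((QuotientGroup.mk : G → G ⧸ J) '' (L : Set G)).Finite
  · obtain ⟨R, -, hR⟩ := Set.exists_subset_bijOn (L : Set G) (QuotientGroup.mk : G → G ⧸ J)
    refine ⟨R, hR.finite_iff_finite.2 hf, fun x hx => ?_⟩
    obtain ⟨r, hr, e⟩ := hR.surjOn ⟨x, hx, rfl⟩
    exact ⟨r, hr, QuotientGroup.eq.1 e⟩
  exfalso
  apply hfin
  have key : ∀ s : ℕ, ENNReal.ofReal (Real.log ((s + 1 : ℕ) : ℝ)) ≤ ent φ L K := by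
    intro s
    have hinf : (((QuotientGroup.mk : G → G ⧸ J) '' (L : Set G)) \
        {QuotientGroup.mk 1}).Infinite := Set.Infinite.sdiff hf (Set.finite_singleton _)
    obtain ⟨T, hT, hTf, hTc⟩ := hinf.exists_subset_ncard_eq s
    have hT' : Set.SurjOn (QuotientGroup.mk : G → G ⧸ J) ((L : Set G) ∩ QuotientGroup.mk ⁻¹' T) T :=
      fun t ht => by
        obtain ⟨x, hx, rfl⟩ := (hT ht).1
        exact ⟨x, ⟨hx, ht⟩, rfl⟩
    obtain ⟨S, hSL, hSb⟩ := Set.exists_subset_bijOn ((L : Set G) ∩ QuotientGroup.mk ⁻¹' T)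
      (QuotientGroup.mk : G → G ⧸ J)
    have himg : (QuotientGroup.mk : G → G ⧸ J) '' ((L : Set G) ∩ QuotientGroup.mk ⁻¹' T) = T :=
      Set.Subset.antisymm (by rintro _ ⟨x, hx, rfl⟩; exact hx.2) hT'
    rw [himg] at hSb
    have hSf : S.Finite := hSb.finite_iff_finite.2 hTf
    have hSc : S.ncard = s := by rw [← hTc, ← hSb.image_eq, Set.InjOn.ncard_image hSb.injOn]
    have h1S : ∀ x ∈ S, (QuotientGroup.mk x : G ⧸ J) ≠ QuotientGroup.mk 1 := fun x hx e =>
      (hT (hSL hx).2).2 e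
    have hF : (insert 1 S).Finite := hSf.insert 1
    have hFL : insert 1 S ⊆ (L : Set G) := Set.insert_subset L.one_mem fun x hx => (hSL hx).1
    have hFc : (insert 1 S).ncard = s + 1 := by
      rw [Set.ncard_insert_of_notMem (fun h => h1S 1 h rfl) hSf, hSc]
    have hpow := pow_le_cnt hL hs hF (Set.mem_insert _ _) hFL (by
      intro x hx y hy e
      have e' : (QuotientGroup.mk x : G ⧸ J) = QuotientGroup.mk y := QuotientGroup.eq.2 e
      rcases hx with rfl | hx <;> rcases hy with rfl | hy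
      · rfl
      · exact absurd e'.symm (h1S y hy)
      · exact absurd e' (h1S x hx)
      · exact hSb.injOn hx hy e')
    refine le_trans (ENNReal.ofReal_le_ofReal ?_) (le_ent K hF (Set.mem_insert _ _) hFL)
    refine ge_of_tendsto (HR_spec φ hF (Set.mem_insert _ _) K hK).1 ?_
    filter_upwards [eventually_ne_atTop 0] with n hn
    have hn' : (0 : ℝ) < n := by exact_mod_cast Nat.pos_of_ne_zero hn
    rw [le_div_iff₀ hn', mul_comm, ← Real.log_pow]
    refine Real.log_le_log (by positivity) ?_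
    have := hpow n
    rw [hFc] at this
    exact_mod_cast this
  have ht : Tendsto (fun s : ℕ => ENNReal.ofReal (Real.log ((s + 1 : ℕ) : ℝ))) atTop (𝓝 ⊤) :=
    ENNReal.tendsto_ofReal_atTop.comp (Real.tendsto_log_atTop.comp
      (tendsto_natCast_atTop_atTop.comp (tendsto_add_atTop_nat 1)))
  exact top_le_iff.1 (le_of_tendsto' ht key)

/-- No element outside `Z` has finitely many conjugates modulo `Z`. -/
def FCClosed (Z : Subgroup G) : Prop :=
  ∀ x : G, (Set.range fun g : G => (QuotientGroup.mk (g * x * g⁻¹) : G ⧸ Z)).Finite → x ∈ Z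

/-- The preimage of the FC-centre of `G / M`. -/
def fcOver (M : Subgroup G) [M.Normal] : Subgroup G where
  carrier := {x | (Set.range fun g : G => (QuotientGroup.mk (g * x * g⁻¹) : G ⧸ M)).Finite}
  one_mem' := (Set.finite_singleton 1).subset (by rintro _ ⟨g, rfl⟩; simp)
  inv_mem' := fun {x} hx => (Set.Finite.inv hx).subset (by
    rintro _ ⟨g, rfl⟩
    exact ⟨g, by simp [mul_assoc]⟩)
  mul_mem' := fun {a b} ha hb => (Set.Finite.mul ha hb).subset (by
    rintro _ ⟨g, rfl⟩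
    exact ⟨_, ⟨g, rfl⟩, _, ⟨g, rfl⟩, by simp [mul_assoc]⟩)

theorem fcOver_normal (M : Subgroup G) [M.Normal] : (fcOver M).Normal :=
  ⟨fun x hx k => Set.Finite.subset hx (by
    rintro _ ⟨g, rfl⟩
    exact ⟨g * k, by simp [mul_assoc]⟩)⟩

theorem le_fcOver (M : Subgroup G) [hn : M.Normal] : M ≤ fcOver M := fun x hx =>
  (Set.finite_singleton 1).subset (by
    rintro _ ⟨g, rfl⟩
    exact (QuotientGroup.eq_one_iff _).2 (hn.conj_mem x hx g))

theorem exists_fcClosed (ψ : G →* G) {R : Set G} (hR : R.Finite)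
    (hcov : ∀ g : G, ∃ r ∈ R, ∃ a, g = r * ψ a) : ∃ N : Subgroup G, FCHyper ψ N ∧ FCClosed N := by
  obtain ⟨N, hN⟩ := zorn_le₀ {N : Subgroup G | FCHyper ψ N} fun c hc hch => by
    rcases c.eq_empty_or_nonempty with rfl | hne
    · exact ⟨⊥, FCHyper.bot, fun _ h => h.elim⟩
    · exact ⟨sSup c, FCHyper.union c hne hch hc, fun _ h => le_sSup h⟩
  have hN1 : FCHyper ψ N := hN.1
  have hn := hN1.normal
  have hi := hN1.inv
  refine ⟨N, hN1, fun x hx => hN.2 (y := fcOver N) ?_ (le_fcOver N) hx⟩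
  refine FCHyper.step N _ hN1 (le_fcOver N) (fcOver_normal N) (fun y hy => ?_) fun y hy => hy
  refine ((hR.prod hy).image fun p : G × (G ⧸ N) => (QuotientGroup.mk p.1 : G ⧸ N) *
    QuotientGroup.map N N ψ hi p.2 * (QuotientGroup.mk p.1)⁻¹).subset ?_
  rintro _ ⟨g, rfl⟩
  obtain ⟨r, hr, a, rfl⟩ := hcov g
  refine ⟨(r, QuotientGroup.mk (a * y * a⁻¹)), ⟨hr, a, rfl⟩, ?_⟩
  simp [mul_assoc]

theorem FCClosed.comap {Q : Type*} [Group Q] {N : Subgroup Q} [N.Normal] (h : FCClosed N)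
    (π : G →* Q) (hπ : Function.Surjective π) : FCClosed (N.comap π) := by
  intro x hx
  refine h (π x) ((hx.image (QuotientGroup.map (N.comap π) N π le_rfl)).subset ?_)
  rintro _ ⟨q, rfl⟩
  obtain ⟨g, rfl⟩ := hπ q
  exact ⟨_, ⟨g, rfl⟩, by simp⟩

theorem ent_eq_of_le_fcClosed (φ : G →* G) (H : Subgroup G) [H.Normal] (hH : H ≤ H.comap φ)
    (hc : ∀ Z : Subgroup G, Z.Normal → FCClosed Z → H ≤ Z) :
    ent φ ⊤ ⊥ = ent φ ⊤ H + ent φ H ⊥ := by
  by_cases h1 : ent φ ⊤ H = ⊤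
  · rw [h1, top_add, eq_top_iff, ← h1]
    exact ent_anti_right φ ⊤ (bot_inv φ) hH bot_le
  by_cases h2 : ent φ H ⊥ = ⊤
  · rw [h2, add_top, eq_top_iff, ← h2]
    exact ent_mono_left φ le_top ⊥
  set K := sat φ ⊥ (bot_inv φ) with hKdef
  set S := sat φ H hH with hSdef
  have hKn : K.Normal := sat_normal _
  have hSn : S.Normal := sat_normal _
  have hKi : K ≤ K.comap φ := sat_inv _
  have hSi : S ≤ S.comap φ := sat_inv _
  have hKS : K ≤ S := fun x ⟨m, hm⟩ => ⟨m, bot_le (a := H) hm⟩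
  obtain ⟨R1, hR1, c1⟩ := finite_cosets (top_inv φ) hSi (fun x => mem_sat_of_apply hH)
    (by rw [ent_sat_right]; exact h1)
  obtain ⟨R2, hR2, c2⟩ := finite_cosets hSi hKi (fun x => mem_sat_of_apply (bot_inv φ))
    (ne_top_of_le_ne_top h2 (by rw [ent_sat_right]; exact ent_sat_left hH ⊥ (bot_inv φ)))
  set π := QuotientGroup.mk' K with hπ
  set ψ := QuotientGroup.map K K φ hKi with hψ
  have hsurj : Function.Surjective π := QuotientGroup.mk'_surjective K
  obtain ⟨N, hN, hNc⟩ := exists_fcClosed ψ ((hR1.mul hR2).image π) (by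
    intro q
    obtain ⟨g, rfl⟩ := hsurj q
    obtain ⟨r1, hr1, e1⟩ := c1 g trivial
    obtain ⟨_, ⟨a, -, rfl⟩, s, hs, e1⟩ := mem_sup_normal e1
    obtain ⟨r2, hr2, e2⟩ := c2 _ (hSn.conj_mem s hs (φ a))
    obtain ⟨_, ⟨b, -, rfl⟩, k, hk, e2⟩ := mem_sup_normal e2
    refine ⟨π (r1 * r2), ⟨_, ⟨r1, hr1, r2, hr2, rfl⟩, rfl⟩, π (b * a), ?_⟩
    have hk1 : π k = 1 := (QuotientGroup.eq_one_iff _).2 hk
    have e3 : g = r1 * r2 * (φ b * k) * φ a := by
      rw [← e2, mul_assoc r1, mul_inv_cancel_left, mul_assoc, inv_mul_cancel_right, ← e1,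
        mul_inv_cancel_left]
    rw [← mk_comm φ K hKi, e3]
    simp only [map_mul, hk1, one_mul, mul_assoc]
    rfl)
  have hNn := hN.normal
  have hle : H.map π ≤ N := Subgroup.map_le_iff_le_comap.2
    (hc _ inferInstance (hNc.comap π hsurj))
  have hHn : (H.map π).Normal := Subgroup.Normal.map inferInstance _ hsurj
  have hH' := hN.inf (H.map π) (map_inv' _ (mk_comm φ K hKi) hH)
  rw [inf_eq_right.2 hle] at hH'
  have e := hH'.ent_eq ⊤ ⊥ (top_inv ψ) (bot_inv ψ)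
  rw [sup_bot_eq, top_inf_eq, ← Subgroup.map_top_of_surjective _ hsurj,
    ent_transfer _ (mk_comm φ K hKi), ent_transfer _ (mk_comm φ K hKi),
    ent_transfer _ (mk_comm φ K hKi), comap_mk_bot, Subgroup.comap_map_eq,
    QuotientGroup.ker_mk', ent_sat_right, ent_sat_right] at e
  rw [e]
  congr 1
  have hsup : H ⊔ K ≤ (H ⊔ K).comap φ := sup_inv hH hKi
  refine le_antisymm (ent_anti_right φ ⊤ hH hsup le_sup_left) ?_
  rw [← ent_sat_right hH]
  exact ent_anti_right φ ⊤ hsup hSi (sup_le (le_sat hH) hKS)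

end Pool.Agent.P.MP_8d62fb_al
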