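import Pool.Agent.P.MP_8d62fb_al.QH
import Pool.Agent.P.MP_8d62fb_al.Reduce

/-! A nontrivial normal subgroup all of whose subgroups are permutable contains a nontrivial
element with finitely many conjugates. -/

namespace Pool.Agent.P.MP_8d62fb_al

open scoped Pointwise ENNReal
open Subgroup

variable {Q : Type*} [Group Q]

theorem coe_sup_of_perm {X Y : Subgroup Q}
    (h : (X : Set Q) * (Y : Set Q) = (Y : Set Q) * (X : Set Q)) :
    ((X ⊔ Y : Subgroup Q) : Set Q) = (X : Set Q) * (Y : Set Q) := by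
  let P : Subgroup Q :=
    { carrier := (X : Set Q) * (Y : Set Q)
      one_mem' := ⟨1, X.one_mem, 1, Y.one_mem, one_mul _⟩
      mul_mem' := by
        rintro _ _ ⟨a, ha, b, hb, rfl⟩ ⟨c, hc, d, hd, rfl⟩
        have : b * c ∈ (X : Set Q) * (Y : Set Q) := h ▸ ⟨b, hb, c, hc, rfl⟩
        obtain ⟨e, he, f, hf, h⟩ := this
        refine ⟨a * e, X.mul_mem ha he, f * d, Y.mul_mem hf hd, ?_⟩
        simp only at h ⊢
        calc a * e * (f * d) = a * (e * f) * d := by group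
          _ = _ := by rw [h]; group
      inv_mem' := by
        rintro _ ⟨a, ha, b, hb, rfl⟩
        have : b⁻¹ * a⁻¹ ∈ (X : Set Q) * (Y : Set Q) :=
          h ▸ ⟨b⁻¹, Y.inv_mem hb, a⁻¹, X.inv_mem ha, rfl⟩
        simpa using this }
  apply Set.Subset.antisymm
  · have : X ⊔ Y ≤ P := sup_le (fun a ha => ⟨a, ha, 1, Y.one_mem, mul_one _⟩)
      (fun b hb => ⟨1, X.one_mem, b, hb, one_mul _⟩)
    exact this
  · rintro _ ⟨a, ha, b, hb, rfl⟩
    exact Subgroup.mul_mem_sup ha hb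

theorem AllPermutable.mem_sup {K : Subgroup Q} (hp : AllPermutable K) {x : Q} (hx : x ∈ K)
    {g z : Q} (h : z ∈ zpowers x ⊔ zpowers g) : ∃ i j : ℤ, z = x ^ i * g ^ j := by
  have : z ∈ ((zpowers x ⊔ zpowers g : Subgroup Q) : Set Q) := h
  rw [coe_sup_of_perm (hp _ _ ((zpowers_le_of_mem hx)))] at this
  obtain ⟨_, ⟨i, rfl⟩, _, ⟨j, rfl⟩, rfl⟩ := this
  exact ⟨i, j, rfl⟩

theorem AllPermutable.conj {K : Subgroup Q} (hp : AllPermutable K) {x : Q} (hx : x ∈ K) (g : Q) :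
    ∃ i j : ℤ, g * x * g⁻¹ = x ^ i * g ^ j :=
  hp.mem_sup hx (mul_mem (mul_mem (mem_sup_right (mem_zpowers g)) (mem_sup_left (mem_zpowers x)))
    (mem_sup_right (inv_mem (mem_zpowers g))))

theorem AllPermutable.map {K : Subgroup Q} (hp : AllPermutable K) {Q' : Type*} [Group Q']
    (π : Q →* Q') (hπ : Function.Surjective π) : AllPermutable (K.map π) := by
  intro X Y hX
  have e : X = (X.comap π ⊓ K).map π := by
    apply le_antisymm
    · intro x hx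
      obtain ⟨k, hk, rfl⟩ := hX hx
      exact ⟨k, ⟨hx, hk⟩, rfl⟩
    · rintro _ ⟨k, hk, rfl⟩
      exact hk.1
  rw [e, ← Subgroup.map_comap_eq_self_of_surjective hπ Y, Subgroup.coe_map, Subgroup.coe_map,
    ← Set.image_mul, ← Set.image_mul, hp _ _ inf_le_right]

theorem AllPermutable.quasihamiltonian {K : Subgroup Q} (hp : AllPermutable K) :
    Quasihamiltonian K := by
  intro X Y
  apply Set.image_injective.2 K.subtype_injective
  rw [Set.image_mul, Set.image_mul, ← Subgroup.coe_map, ← Subgroup.coe_map]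
  exact hp _ _ (Subgroup.map_subtype_le X)

theorem AllPermutable.torsionFree_case {K : Subgroup Q} [hn : K.Normal] (hp : AllPermutable K)
    (htf : ∀ k ∈ K, IsOfFinOrder k → k = 1) {x : Q} (hx : x ∈ K) (hx1 : x ≠ 1) :
    (Set.range fun g : Q => g * x * g⁻¹).Finite := by
  have hcomm : ∀ a ∈ K, ∀ b ∈ K, Commute a b := fun a ha b hb =>
    congrArg Subtype.val (hp.quasihamiltonian.comm_of_torsionFree
      (fun k hk => Subtype.ext (htf _ k.2 (K.subtype.isOfFinOrder hk))) ⟨a, ha⟩ ⟨b, hb⟩)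
  have hz : ∀ z ∈ K, ∀ i : ℤ, z ≠ 1 → z ^ i = 1 → i = 0 := fun z hzK i hz1 h => by
    by_contra hi
    exact hz1 (htf z hzK (isOfFinOrder_iff_zpow_eq_one.2 ⟨i, hi, h⟩))
  have key : ∀ g : Q, ∃ i : ℤ, g * x * g⁻¹ = x ^ i := by
    intro g
    obtain ⟨i, j, e⟩ := hp.conj hx g
    by_cases hu : g ^ j = 1
    · exact ⟨i, by rw [e, hu, mul_one]⟩
    have hyK : g * x * g⁻¹ ∈ K := hn.conj_mem x hx g
    have huK : g ^ j ∈ K := by
      have : g ^ j = (x ^ i)⁻¹ * (g * x * g⁻¹) := by rw [e]; group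
      rw [this]
      exact mul_mem (inv_mem (zpow_mem hx i)) hyK
    have hj : j ≠ 0 := fun h => hu (by rw [h, zpow_zero])
    by_cases hdep : ∃ a b : ℤ, a ≠ 0 ∧ x ^ a = g ^ b
    · obtain ⟨a, b, ha, h⟩ := hdep
      refine ⟨1, ?_⟩
      have h1 : (g * x * g⁻¹) ^ a = x ^ a := by rw [conj_zpow, h]; group
      have h2 : (g * x * g⁻¹ * x⁻¹) ^ a = 1 := by
        rw [(hcomm _ hyK _ (inv_mem hx)).mul_zpow, h1, inv_zpow, mul_inv_cancel]
      by_contra hne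
      refine ha (hz _ (mul_mem hyK (inv_mem hx)) a (fun h3 => hne ?_) h2)
      rw [zpow_one]; exact mul_inv_eq_one.1 h3
    exfalso
    have c1 : Commute (g ^ (j * (2 * j))) x := by
      rw [zpow_mul]; exact (hcomm _ huK _ hx).zpow_left _
    obtain ⟨i', l, e'⟩ := hp.conj hx (g ^ (1 + j * (2 * j)))
    have e2 : g ^ (1 + j * (2 * j)) * x * (g ^ (1 + j * (2 * j)))⁻¹ = g * x * g⁻¹ := by
      rw [zpow_add, zpow_one, mul_assoc g, c1.eq]; group
    rw [e2, e, ← zpow_mul] at e'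
    have e3 : x ^ (i - i') = g ^ ((1 + j * (2 * j)) * l - j) := by
      calc x ^ (i - i') = (x ^ i')⁻¹ * (x ^ i * g ^ j) * (g ^ j)⁻¹ := by group
        _ = _ := by rw [e']; group
    have hi : i - i' = 0 := by
      by_contra h
      exact hdep ⟨_, _, h, e3⟩
    rw [hi, zpow_zero] at e3
    have e4 : (g ^ j) ^ ((1 + j * (2 * j)) * l - j) = 1 := by
      rw [← zpow_mul, mul_comm, zpow_mul, ← e3, one_zpow]
    have e5 := hz _ huK _ hu e4
    have hd : (1 + j * (2 * j)) ∣ j := ⟨l, by linarith⟩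
    have := Int.le_of_dvd (abs_pos.2 hj) ((dvd_abs _ _).2 hd)
    have h6 : |j| ≤ j * j := by
      rw [← abs_mul_abs_self]; nlinarith [abs_pos.2 hj]
    nlinarith
  refine (Set.toFinite ({x, x⁻¹} : Set Q)).subset ?_
  rintro _ ⟨g, rfl⟩
  obtain ⟨i, hi⟩ := key g
  obtain ⟨k, hk⟩ := key g⁻¹
  have : x ^ (k * i - 1) = 1 := by
    rw [zpow_sub, zpow_one, mul_inv_eq_one, mul_comm, zpow_mul, ← hi, conj_zpow, ← hk]; group
  have h1 := hz x hx _ hx1 this
  rcases Int.eq_one_or_neg_one_of_mul_eq_one' (show k * i = 1 by linarith) with h | h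
  · left; simp only; rw [hi, h.2, zpow_one]
  · right; simp only; rw [hi, h.2]; simp

section prime

variable {p : ℕ}

theorem mem_zpowers_of_prime (hp : p.Prime) {g c d : Q} (hc : c ∈ zpowers g) (hd : d ∈ zpowers g)
    (hc1 : c ≠ 1) (hcp : c ^ p = 1) (hdp : d ^ p = 1) : d ∈ zpowers c := by
  obtain ⟨a, rfl⟩ := hc
  obtain ⟨b, rfl⟩ := hd
  simp only at *
  have hp' : Prime (p : ℤ) := Nat.prime_iff_prime_int.1 hp
  rw [← zpow_natCast, ← zpow_mul, ← orderOf_dvd_iff_zpow_eq_one] at hcp hdp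
  rw [Ne, ← orderOf_dvd_iff_zpow_eq_one] at hc1
  have hpn : (p : ℤ) ∣ (orderOf g : ℤ) := by
    by_contra h
    exact hc1 (((hp'.coprime_iff_not_dvd.2 h).symm).dvd_of_dvd_mul_right hcp)
  obtain ⟨n, hn⟩ := hpn
  rw [hn] at hcp hdp hc1
  rw [mul_comm a] at hcp
  rw [mul_comm b] at hdp
  obtain ⟨a', rfl⟩ := Int.dvd_of_mul_dvd_mul_left hp'.ne_zero hcp
  obtain ⟨b', rfl⟩ := Int.dvd_of_mul_dvd_mul_left hp'.ne_zero hdp
  have ha : ¬ (p : ℤ) ∣ a' := fun ⟨t, ht⟩ => hc1 ⟨t, by rw [ht]; ring⟩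
  obtain ⟨s, t, hst⟩ := hp'.coprime_iff_not_dvd.2 ha
  refine ⟨t * b', ?_⟩
  simp only
  rw [← zpow_mul, zpow_eq_zpow_iff_modEq, hn]
  refine (Int.modEq_iff_dvd.2 ⟨s * b', ?_⟩)
  have : t * a' = 1 - s * p := by linarith
  calc n * b' - n * a' * (t * b') = n * b' * (1 - t * a') := by ring
    _ = _ := by rw [this]; ring

theorem exists_split (hp : p.Prime) (g : Q) : ∃ g1 ∈ zpowers g, ∃ g2 ∈ zpowers g, g = g1 * g2 ∧
    (∃ a : ℕ, g1 ^ p ^ a = 1) ∧ ∀ u ∈ zpowers g2, u ^ p = 1 → u = 1 := by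
  by_cases h0 : orderOf g = 0
  · refine ⟨1, one_mem _, g, mem_zpowers g, (one_mul g).symm, ⟨0, one_pow _⟩, ?_⟩
    rintro _ ⟨b, rfl⟩ hu
    simp only at hu ⊢
    rw [← zpow_natCast, ← zpow_mul, ← orderOf_dvd_iff_zpow_eq_one, h0] at hu
    have : b * p = 0 := by simpa using hu
    have hb : b = 0 := by
      rcases mul_eq_zero.1 this with h | h
      · exact h
      · exact absurd (by exact_mod_cast h) hp.ne_zero
    rw [hb, zpow_zero]
  obtain ⟨a, m, hm, hn⟩ := Nat.exists_eq_pow_mul_and_not_dvd h0 p hp.ne_one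
  have hp' : Prime (p : ℤ) := Nat.prime_iff_prime_int.1 hp
  have hco : IsCoprime (p : ℤ) (m : ℤ) := hp'.coprime_iff_not_dvd.2 (by exact_mod_cast hm)
  obtain ⟨s, t, hst⟩ := (hco.pow_left (m := a))
  refine ⟨g ^ (t * m), ⟨_, rfl⟩, g ^ (s * p ^ a), ⟨_, rfl⟩, ?_, ⟨a, ?_⟩, ?_⟩
  · rw [← zpow_add, add_comm, hst, zpow_one]
  · rw [← zpow_natCast, ← zpow_mul, ← orderOf_dvd_iff_zpow_eq_one, hn]
    exact ⟨t, by push_cast; ring⟩
  · rintro _ ⟨b, rfl⟩ hu
    simp only at hu ⊢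
    have hm1 : ((g ^ (s * p ^ a)) ^ b) ^ (m : ℤ) = 1 := by
      rw [← zpow_mul, ← zpow_mul, ← orderOf_dvd_iff_zpow_eq_one, hn]
      exact ⟨s * b, by push_cast; ring⟩
    obtain ⟨s', t', h'⟩ := hco
    generalize (g ^ (s * p ^ a)) ^ b = u at hu hm1
    rw [← zpow_one u, ← h', zpow_add, mul_comm s', mul_comm t', zpow_mul,
      zpow_mul, hm1, zpow_natCast, hu, one_zpow, one_zpow, one_mul]

theorem AllPermutable.comm_mem {K : Subgroup Q} (hK : AllPermutable K) (hp : p.Prime) {x g : Q}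
    (hx : x ∈ K) (hxp : x ^ p = 1) {a : ℕ} (hg : g ^ p ^ a = 1) :
    x⁻¹ * g * x ∈ zpowers g := by
  by_cases hxg : x ∈ zpowers g
  · exact mul_mem (mul_mem (inv_mem hxg) (mem_zpowers g)) hxg
  set f : Q ⧸ zpowers g → Q ⧸ zpowers g := fun q => g • q with hf
  have hit : ∀ (n : ℕ) (y : Q), f^[n] (QuotientGroup.mk y) = QuotientGroup.mk (g ^ n * y) := by
    intro n y
    induction n with
    | zero => simp
    | succ n ih => rw [Function.iterate_succ_apply', ih, pow_succ', mul_assoc]; rfl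
  have hper : Function.IsPeriodicPt f (p ^ a) (QuotientGroup.mk x) := by
    rw [Function.IsPeriodicPt, Function.IsFixedPt, hit, hg, one_mul]
  obtain ⟨k, -, hk⟩ := (Nat.dvd_prime_pow hp).1 hper.minimalPeriod_dvd
  rcases Nat.eq_zero_or_pos k with rfl | hk0
  · rw [pow_zero, Function.minimalPeriod_eq_one_iff_isFixedPt] at hk
    have : (QuotientGroup.mk (g * x) : Q ⧸ zpowers g) = QuotientGroup.mk x := hk
    have := QuotientGroup.eq.1 this.symm
    rwa [← mul_assoc] at this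
  exfalso
  have hle : p ≤ Function.minimalPeriod f (QuotientGroup.mk x) := by
    rw [hk]; exact Nat.le_self_pow hk0.ne' p
  have hinj : Set.InjOn (fun n => f^[n] (QuotientGroup.mk x)) (Finset.range p : Set ℕ) :=
    Function.iterate_injOn_Iio_minimalPeriod.mono fun n hn =>
      lt_of_lt_of_le (by simpa using hn) hle
  classical
  have hmaps : Set.MapsTo (fun n => f^[n] (QuotientGroup.mk x)) (Finset.range p : Set ℕ)
      (((Finset.Ico 1 p).image fun i : ℕ => (QuotientGroup.mk (x ^ i) : Q ⧸ zpowers g)) :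
        Finset _) := by
    intro n _
    simp only [hit, Finset.coe_image, Finset.coe_Ico]
    obtain ⟨i, j, e⟩ := hK.mem_sup hx (g := g) (z := g ^ n * x)
      (mul_mem (mem_sup_right (pow_mem (mem_zpowers g) n)) (mem_sup_left (mem_zpowers x)))
    have hp0 : (0 : ℤ) < p := by exact_mod_cast hp.pos
    have e1 : x ^ i = x ^ (i % p).toNat := by
      rw [← zpow_natCast, Int.toNat_of_nonneg (Int.emod_nonneg _ hp0.ne')]
      exact zpow_eq_zpow_emod' i hxp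
    have hlt : (i % p).toNat < p := by
      have := Int.emod_lt_of_pos i hp0
      omega
    refine ⟨(i % p).toNat, ⟨?_, hlt⟩, ?_⟩
    · by_contra h0
      have h0' : (i % p).toNat = 0 := by omega
      rw [e1, h0', pow_zero, one_mul] at e
      apply hxg
      have : x = (g ^ n)⁻¹ * g ^ j := by rw [← e]; group
      rw [this]
      exact mul_mem (inv_mem (pow_mem (mem_zpowers g) n)) ⟨j, rfl⟩
    · simp only
      rw [e, ← e1, QuotientGroup.eq]
      exact ⟨j, by group⟩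
  have h1 := Finset.card_le_card_of_injOn _ hmaps hinj
  have h2 := h1.trans Finset.card_image_le
  rw [Finset.card_range, Nat.card_Ico] at h2
  have := hp.pos
  omega

/-- Elements of `K` of order dividing `p`. -/
def Om (K : Subgroup Q) (p : ℕ) (v : Q) : Prop := v ∈ K ∧ v ^ p = 1

variable {K : Subgroup Q}

theorem Om.zpow {v : Q} (h : Om K p v) (i : ℤ) : Om K p (v ^ i) :=
  ⟨zpow_mem h.1 i, by rw [← zpow_natCast, ← zpow_mul, mul_comm, zpow_mul, zpow_natCast, h.2,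
    one_zpow]⟩

theorem Om.inv {v : Q} (h : Om K p v) : Om K p v⁻¹ := ⟨inv_mem h.1, by rw [inv_pow, h.2, inv_one]⟩

theorem Om.of_mem {v u : Q} (h : Om K p v) (hu : u ∈ zpowers v) : Om K p u := by
  obtain ⟨i, rfl⟩ := hu
  exact h.zpow i

theorem Om.conj [hn : K.Normal] {v : Q} (h : Om K p v) (g : Q) : Om K p (g * v * g⁻¹) :=
  ⟨hn.conj_mem v h.1 g, by rw [conj_pow, h.2, mul_one, mul_inv_cancel]⟩

theorem commute_of_mem_zpowers {a b : Q} (h : a ∈ zpowers b) : Commute b a := by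
  obtain ⟨i, rfl⟩ := h
  exact Commute.self_zpow b i

variable (hK : AllPermutable K) (hp : p.Prime)
include hK hp

theorem Om.comm {x y : Q} (hx : Om K p x) (hy : Om K p y) : Commute x y := by
  have h1 := hK.comm_mem hp hy.1 hy.2 (g := x) (a := 1) (by rw [pow_one, hx.2])
  have h2 := hK.comm_mem hp hx.1 hx.2 (g := y) (a := 1) (by rw [pow_one, hy.2])
  have h3 : x⁻¹ * (y⁻¹ * x * y) ∈ zpowers x := mul_mem (inv_mem (mem_zpowers x)) h1
  have h4 : x⁻¹ * (y⁻¹ * x * y) ∈ zpowers y := by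
    have : x⁻¹ * (y⁻¹ * x * y) = (x⁻¹ * y * x)⁻¹ * y := by group
    rw [this]
    exact mul_mem (inv_mem h2) (mem_zpowers y)
  by_cases hc : x⁻¹ * (y⁻¹ * x * y) = 1
  · have : x * y = y * x := by
      calc x * y = y * x * (x⁻¹ * (y⁻¹ * x * y)) := by group
        _ = _ := by rw [hc, mul_one]
    exact this
  · have := mem_zpowers_of_prime hp h3 (mem_zpowers x) hc (hx.of_mem h3).2 hx.2
    exact (commute_of_mem_zpowers (zpowers_le_of_mem h4 this)).symm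

theorem Om.mul {x y : Q} (hx : Om K p x) (hy : Om K p y) : Om K p (x * y) :=
  ⟨mul_mem hx.1 hy.1, by rw [(hx.comm hK hp hy).mul_pow, hx.2, hy.2, one_mul]⟩

theorem Om.delta_mem {v g : Q} (hv : Om K p v) {a : ℕ} (hg : g ^ p ^ a = 1) :
    g * v * g⁻¹ * v⁻¹ ∈ zpowers g := by
  have h1 := hK.comm_mem hp hv.inv.1 hv.inv.2 hg
  have : g * v * g⁻¹ * v⁻¹ = g * (v⁻¹⁻¹ * g * v⁻¹)⁻¹ := by group
  rw [this]
  exact mul_mem (mem_zpowers g) (inv_mem h1)

variable [hn : K.Normal]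

theorem Om.delta {v : Q} (hv : Om K p v) (g : Q) : Om K p (g * v * g⁻¹ * v⁻¹) :=
  (hv.conj g).mul hK hp hv.inv

theorem Om.conj_mem {v g : Q} (hv : Om K p v) (hg : ∀ u ∈ zpowers g, u ^ p = 1 → u = 1) :
    g * v * g⁻¹ ∈ zpowers v := by
  obtain ⟨i, j, e⟩ := hK.conj hv.1 g
  have : g ^ j = (v ^ i)⁻¹ * (g * v * g⁻¹) := by rw [e]; group
  have h1 : g ^ j = 1 := hg _ ⟨j, rfl⟩ (this ▸ ((hv.zpow i).inv.mul hK hp (hv.conj g)).2)
  exact ⟨i, by rw [e, h1, mul_one]⟩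

omit hn in
theorem Om.fix_of_power {s c : Q} (hs : ∀ v, Om K p v → s * v * s⁻¹ ∈ zpowers v) (hc : Om K p c)
    (hc1 : c ≠ 1) (hsc : Commute s c) {v : Q} (hv : Om K p v) : s * v * s⁻¹ = v := by
  obtain ⟨i, hi⟩ := hs v hv
  obtain ⟨k, hk⟩ := hs _ (hv.mul hK hp hc)
  simp only at hi hk
  have h1 : v ^ k * c ^ k = v ^ i * c := by
    rw [← (hv.comm hK hp hc).mul_zpow, hk, hi]
    calc s * (v * c) * s⁻¹ = s * v * s⁻¹ * (s * c * s⁻¹) := by group
      _ = _ := by rw [hsc.eq, mul_inv_cancel_right]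
  have h2 : v ^ (i - k) = c ^ (k - 1) := by
    calc v ^ (i - k) = (v ^ k)⁻¹ * (v ^ i * c) * c⁻¹ := by group
      _ = _ := by rw [← h1]; group
  by_cases he : c ^ (k - 1) = 1
  · have : Fact p.Prime := ⟨hp⟩
    have ho : orderOf c = p := orderOf_eq_prime hc.2 hc1
    rw [← hi]
    have h3 : v ^ (i - k) = 1 := h2.trans he
    rw [← orderOf_dvd_iff_zpow_eq_one, ho] at he
    obtain ⟨l, hl⟩ := he
    have h4 : v ^ (k - 1) = 1 := by rw [hl, zpow_mul, zpow_natCast, hv.2, one_zpow]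
    calc v ^ i = v ^ (i - k) * v ^ (k - 1) * v := by group
      _ = v := by rw [h3, h4, one_mul, one_mul]
  · have h3 : v ∈ zpowers (c ^ (k - 1)) := mem_zpowers_of_prime hp (g := v) ⟨_, h2⟩
      (mem_zpowers v) he (hc.zpow _).2 hv.2
    obtain ⟨l, rfl⟩ := zpowers_le_of_mem (H := zpowers c) ⟨k - 1, rfl⟩ h3
    simp only
    rw [(hsc.zpow_right l).eq, mul_inv_cancel_right]

theorem Om.finite_of_central {z : Q} (hz : Om K p z)
    (h : ∀ (g : Q) (a : ℕ), g ^ p ^ a = 1 → g * z * g⁻¹ * z⁻¹ = 1) :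
    (Set.range fun g : Q => g * z * g⁻¹).Finite := by
  refine (finite_zpowers' (isOfFinOrder_iff_pow_eq_one.2 ⟨p, hp.pos, hz.2⟩)).subset ?_
  rintro _ ⟨g, rfl⟩
  obtain ⟨g1, -, g2, -, rfl, ⟨a, ha⟩, h2⟩ := exists_split hp g
  obtain ⟨i, hi⟩ := hz.conj_mem hK hp h2
  refine ⟨i, ?_⟩
  simp only at hi ⊢
  have h1 := mul_inv_eq_one.1 (h g1 a ha)
  calc z ^ i = (g1 * z * g1⁻¹) ^ i := by rw [h1]
    _ = g1 * (g2 * z * g2⁻¹) * g1⁻¹ := by rw [conj_zpow, hi]
    _ = _ := by group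

theorem Om.core (hinf : {v | Om K p v}.Infinite) {g h x : Q} {a b : ℕ} (hg : g ^ p ^ a = 1)
    (hh : h ^ p ^ b = 1) (hx : Om K p x) {z : Q} (hzd : z = g * x * g⁻¹ * x⁻¹) (hz1 : z ≠ 1) :
    h * z * h⁻¹ * z⁻¹ = 1 := by
  by_contra hw1
  set w := h * z * h⁻¹ * z⁻¹ with hwd
  have hz : Om K p z := hzd ▸ hx.delta hK hp g
  have hw : Om K p w := hz.delta hK hp h
  have hzg : z ∈ zpowers g := hzd ▸ hx.delta_mem hK hp hg
  have hwh : w ∈ zpowers h := hz.delta_mem hK hp hh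
  have dg : ∀ v, Om K p v → g * v * g⁻¹ * v⁻¹ ∈ zpowers z := fun v hv =>
    mem_zpowers_of_prime hp hzg (hv.delta_mem hK hp hg) hz1 hz.2 (hv.delta hK hp g).2
  have dh : ∀ v, Om K p v → h * v * h⁻¹ * v⁻¹ ∈ zpowers w := fun v hv =>
    mem_zpowers_of_prime hp hwh (hv.delta_mem hK hp hh) hw1 hw.2 (hv.delta hK hp h).2
  have hwz : w ∉ zpowers z := fun hm => by
    have h1 := mem_zpowers_of_prime hp hm (mem_zpowers z) hw1 hw.2 hz.2
    have h2 := commute_of_mem_zpowers (zpowers_le_of_mem hwh h1)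
    apply hw1
    rw [hwd, h2.eq]; group
  have fz := finite_zpowers' (isOfFinOrder_iff_pow_eq_one.2 ⟨p, hp.pos, hz.2⟩)
  have fw := finite_zpowers' (isOfFinOrder_iff_pow_eq_one.2 ⟨p, hp.pos, hw.2⟩)
  obtain ⟨v, hv, v', hv', hne, he⟩ := hinf.exists_ne_map_eq_of_mapsTo
    (f := fun v => (g * v * g⁻¹ * v⁻¹, h * v * h⁻¹ * v⁻¹))
    (t := (zpowers z : Set Q) ×ˢ (zpowers w : Set Q))
    (fun v hv => Set.mk_mem_prod (dg v hv) (dh v hv)) (fz.prod fw)
  simp only [Prod.mk.injEq] at he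
  have hc : Om K p (v⁻¹ * v') := (Om.inv hv).mul hK hp hv'
  have hc1 : v⁻¹ * v' ≠ 1 := fun e => hne (inv_mul_eq_one.1 e)
  have aux : ∀ y : Q, y * v * y⁻¹ * v⁻¹ = y * v' * y⁻¹ * v'⁻¹ → Commute y (v⁻¹ * v') := by
    intro y e
    have : y * (v⁻¹ * v') = v⁻¹ * v' * y := by
      calc y * (v⁻¹ * v') = v⁻¹ * (y * v * y⁻¹ * v⁻¹)⁻¹ * (y * v' * y⁻¹ * v'⁻¹) * v' * y := by
            group
        _ = _ := by rw [e]; group
    exact this
  obtain ⟨t1, -, t2, ht2, ht, ⟨a', ht1⟩, h2⟩ := exists_split hp (g * h)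
  have hct : Commute t2 (v⁻¹ * v') := by
    obtain ⟨i, rfl⟩ := ht2
    exact ((aux g he.1).mul_left (aux h he.2)).zpow_left i
  have fix : ∀ u, Om K p u → g * (h * u * h⁻¹) * g⁻¹ * u⁻¹ ∈ zpowers t1 := by
    intro u hu
    have h3 := Om.fix_of_power hK hp (fun y hy => hy.conj_mem hK hp h2) hc hc1 hct hu
    have : g * (h * u * h⁻¹) * g⁻¹ * u⁻¹ = t1 * u * t1⁻¹ * u⁻¹ := by
      calc g * (h * u * h⁻¹) * g⁻¹ * u⁻¹ = (g * h) * u * (g * h)⁻¹ * u⁻¹ := by group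
        _ = t1 * (t2 * u * t2⁻¹) * t1⁻¹ * u⁻¹ := by rw [ht]; group
        _ = _ := by rw [h3]
    rw [this]
    exact hu.delta_mem hK hp ht1
  have cgz : g * z * g⁻¹ = z := by rw [(commute_of_mem_zpowers hzg).eq, mul_inv_cancel_right]
  obtain ⟨k, hk⟩ := dh x hx
  simp only at hk
  have hx' : Om K p (x * (z ^ k)⁻¹) := hx.mul hK hp (hz.zpow k).inv
  have e1 : h * (x * (z ^ k)⁻¹) * h⁻¹ = x * (z ^ k)⁻¹ := by
    have a1 : h * x * h⁻¹ = w ^ k * x := by rw [hk]; group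
    have a2 : h * z * h⁻¹ = w * z := by rw [hwd]; group
    calc h * (x * (z ^ k)⁻¹) * h⁻¹ = h * x * h⁻¹ * ((h * z * h⁻¹) ^ k)⁻¹ := by
          rw [conj_zpow]; group
      _ = w ^ k * x * ((z * w) ^ k)⁻¹ := by rw [a1, a2, (hw.comm hK hp hz).eq]
      _ = w ^ k * (x * (w ^ k)⁻¹) * (z ^ k)⁻¹ := by
          rw [(hz.comm hK hp hw).mul_zpow]; group
      _ = _ := by rw [(hx.comm hK hp (hw.zpow k).inv).eq]; group
  have m1 := fix _ hx'
  have e2 : g * (x * (z ^ k)⁻¹) * g⁻¹ * (x * (z ^ k)⁻¹)⁻¹ = z := by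
    calc g * (x * (z ^ k)⁻¹) * g⁻¹ * (x * (z ^ k)⁻¹)⁻¹
        = g * x * g⁻¹ * ((g * z * g⁻¹) ^ k)⁻¹ * z ^ k * x⁻¹ := by rw [conj_zpow]; group
      _ = z := by rw [cgz, inv_mul_cancel_right, ← hzd]
  rw [e1, e2] at m1
  have m2 := fix _ hz
  have e3 : g * (h * z * h⁻¹) * g⁻¹ * z⁻¹ = g * w * g⁻¹ := by
    calc g * (h * z * h⁻¹) * g⁻¹ * z⁻¹ = g * w * g⁻¹ * (g * z * g⁻¹) * z⁻¹ := by rw [hwd]; group
      _ = _ := by rw [cgz, mul_inv_cancel_right]
  rw [e3] at m2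
  have m3 := mem_zpowers_of_prime hp m1 m2 hz1 hz.2 (hw.conj g).2
  apply hwz
  have : w = (g * w * g⁻¹ * w⁻¹)⁻¹ * (g * w * g⁻¹) := by group
  rw [this]
  exact mul_mem (inv_mem (dg w hw)) m3

theorem Om.exists_fc {x : Q} (hx : Om K p x) (hx1 : x ≠ 1) :
    ∃ z ∈ K, z ≠ 1 ∧ (Set.range fun g : Q => g * z * g⁻¹).Finite := by
  by_cases hinf : {v | Om K p v}.Finite
  · refine ⟨x, hx.1, hx1, hinf.subset ?_⟩
    rintro _ ⟨g, rfl⟩
    exact hx.conj g
  by_cases hall : ∀ (g : Q) (a : ℕ), g ^ p ^ a = 1 → g * x * g⁻¹ * x⁻¹ = 1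
  · exact ⟨x, hx.1, hx1, hx.finite_of_central hK hp hall⟩
  push Not at hall
  obtain ⟨g, a, hg, hz1⟩ := hall
  have hz := hx.delta hK hp g
  exact ⟨_, hz.1, hz1, hz.finite_of_central hK hp fun h b hh =>
    Om.core hK hp hinf hg hh hx rfl hz1⟩

end prime

theorem AllPermutable.exists_fc {K : Subgroup Q} [K.Normal] (hK : AllPermutable K) {x : Q}
    (hx : x ∈ K) (hx1 : x ≠ 1) : ∃ z ∈ K, z ≠ 1 ∧ (Set.range fun g : Q => g * z * g⁻¹).Finite := by
  by_cases htf : ∀ k ∈ K, IsOfFinOrder k → k = 1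
  · exact ⟨x, hx, hx1, hK.torsionFree_case htf hx hx1⟩
  push Not at htf
  obtain ⟨k, hk, hfin, hk1⟩ := htf
  have h1 : orderOf k ≠ 1 := fun h => hk1 (orderOf_eq_one_iff.1 h)
  obtain ⟨m, hm⟩ := Nat.minFac_dvd (orderOf k)
  have hp := Nat.minFac_prime h1
  have h0 := hfin.orderOf_pos
  have hm0 : 0 < m := Nat.pos_of_ne_zero fun h => by rw [h, mul_zero] at hm; omega
  refine Om.exists_fc hK hp (x := k ^ m) ⟨pow_mem hk m, ?_⟩ fun h => ?_
  · rw [← pow_mul, mul_comm, ← hm, pow_orderOf_eq_one]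
  · have h2 := Nat.le_of_dvd hm0 (orderOf_dvd_of_pow_eq_one h)
    have h3 := hp.two_le
    nlinarith

variable {G : Type*} [Group G]

theorem FCHypercentral.le_of_fcClosed {N Z : Subgroup G} [N.Normal] [Z.Normal]
    (hN : FCHypercentral N) (hZ : FCClosed Z) : N ≤ Z := by
  by_contra h
  obtain ⟨x, hx, hxM, hf⟩ := hN (N ⊓ Z) inferInstance
    (lt_of_le_of_ne inf_le_left fun e => h (inf_eq_left.1 e))
  refine hxM ⟨hx, hZ x ((hf.image (Subgroup.quotientMapOfLE inf_le_right)).subset ?_)⟩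
  rintro _ ⟨g, rfl⟩
  exact ⟨_, ⟨g, rfl⟩, rfl⟩

theorem le_of_allPermutable {N H Z : Subgroup G} [N.Normal] [H.Normal] [Z.Normal] (hNZ : N ≤ Z)
    (hp : AllPermutable (H.map (QuotientGroup.mk' N))) (hZ : FCClosed Z) : H ≤ Z := by
  intro x hx
  by_contra hxZ
  have hle : N ≤ Z.comap (MonoidHom.id G) := hNZ
  have hp' := hp.map (QuotientGroup.map N Z (MonoidHom.id G) hle) (by
    intro q
    obtain ⟨g, rfl⟩ := QuotientGroup.mk_surjective q
    exact ⟨QuotientGroup.mk g, rfl⟩)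
  rw [Subgroup.map_map] at hp'
  have e : (QuotientGroup.map N Z (MonoidHom.id G) hle).comp (QuotientGroup.mk' N) =
    QuotientGroup.mk' Z := by ext; rfl
  rw [e] at hp'
  have : (H.map (QuotientGroup.mk' Z)).Normal :=
    Subgroup.Normal.map inferInstance _ (QuotientGroup.mk'_surjective Z)
  obtain ⟨_, ⟨y, -, rfl⟩, hy1, hf⟩ := hp'.exists_fc (x := QuotientGroup.mk' Z x) ⟨x, hx, rfl⟩
    fun h => hxZ ((QuotientGroup.eq_one_iff _).1 h)
  refine hy1 ((QuotientGroup.eq_one_iff _).2 (hZ y (hf.subset ?_)))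
  rintro _ ⟨g, rfl⟩
  exact ⟨QuotientGroup.mk g, rfl⟩

theorem addition_of_fcHypercentral (φ : G →* G) (N H : Subgroup G) [N.Normal] [H.Normal]
    (h : H ≤ H.comap φ) (hN : FCHypercentral N)
    (hp : AllPermutable (H.map (QuotientGroup.mk' N))) :
    halg φ = halg (QuotientGroup.map H H φ h) + halg (restr φ H h) := by
  rw [halg_eq_ent, halg_quot, halg_restr]
  exact ent_eq_of_le_fcClosed φ H h fun Z _ hZ =>
    le_of_allPermutable (hN.le_of_fcClosed hZ) hp hZ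

end Pool.Agent.P.MP_8d62fb_al
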