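import Pool.Agent.P.MP_8d62fb_al.Hyper

/-! The Addition Theorem for quasihamiltonian groups. -/

namespace Pool.Agent.P.MP_8d62fb_al

open scoped Pointwise ENNReal Topology
open Filter Subgroup

variable {G : Type*} [Group G]

theorem Quasihamiltonian.coe_sup (hq : Quasihamiltonian G) (X Y : Subgroup G) :
    ((X ⊔ Y : Subgroup G) : Set G) = (X : Set G) * (Y : Set G) := by
  let P : Subgroup G :=
    { carrier := (X : Set G) * (Y : Set G)
      one_mem' := ⟨1, X.one_mem, 1, Y.one_mem, one_mul _⟩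
      mul_mem' := by
        rintro _ _ ⟨a, ha, b, hb, rfl⟩ ⟨c, hc, d, hd, rfl⟩
        have : b * c ∈ (X : Set G) * (Y : Set G) := hq X Y ▸ ⟨b, hb, c, hc, rfl⟩
        obtain ⟨e, he, f, hf, h⟩ := this
        refine ⟨a * e, X.mul_mem ha he, f * d, Y.mul_mem hf hd, ?_⟩
        simp only at h ⊢
        calc a * e * (f * d) = a * (e * f) * d := by group
          _ = _ := by rw [h]; group
      inv_mem' := by
        rintro _ ⟨a, ha, b, hb, rfl⟩
        have : b⁻¹ * a⁻¹ ∈ (X : Set G) * (Y : Set G) :=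
          hq X Y ▸ ⟨b⁻¹, Y.inv_mem hb, a⁻¹, X.inv_mem ha, rfl⟩
        simpa using this }
  apply Set.Subset.antisymm
  · have : X ⊔ Y ≤ P := sup_le (fun a ha => ⟨a, ha, 1, Y.one_mem, mul_one _⟩)
      (fun b hb => ⟨1, X.one_mem, b, hb, one_mul _⟩)
    exact this
  · rintro _ ⟨a, ha, b, hb, rfl⟩
    exact Subgroup.mul_mem_sup ha hb

theorem Quasihamiltonian.finite_sup (hq : Quasihamiltonian G) {X Y : Subgroup G}
    (hX : (X : Set G).Finite) (hY : (Y : Set G).Finite) : ((X ⊔ Y : Subgroup G) : Set G).Finite := by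
  rw [hq.coe_sup]; exact hX.mul hY

theorem Quasihamiltonian.mem_sup_zpowers (hq : Quasihamiltonian G) {x y z : G}
    (h : z ∈ zpowers x ⊔ zpowers y) : ∃ i j : ℤ, z = x ^ i * y ^ j := by
  have : z ∈ ((zpowers x ⊔ zpowers y : Subgroup G) : Set G) := h
  rw [hq.coe_sup] at this
  obtain ⟨_, ⟨i, rfl⟩, _, ⟨j, rfl⟩, rfl⟩ := this
  exact ⟨i, j, rfl⟩

theorem Quasihamiltonian.of_surjective (hq : Quasihamiltonian G) {Q : Type*} [Group Q]
    (π : G →* Q) (hπ : Function.Surjective π) : Quasihamiltonian Q := by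
  intro X Y
  rw [← Subgroup.map_comap_eq_self_of_surjective hπ X,
    ← Subgroup.map_comap_eq_self_of_surjective hπ Y, Subgroup.coe_map, Subgroup.coe_map,
    ← Set.image_mul, ← Set.image_mul, hq]

theorem finite_zpowers' {x : G} (h : IsOfFinOrder x) : (zpowers x : Set G).Finite := by
  rw [← h.powers_eq_zpowers]; exact finite_powers.2 h

theorem finOrder_of_mem {X : Subgroup G} (hX : (X : Set G).Finite) {x : G} (hx : x ∈ X) :
    IsOfFinOrder x := by
  have : Finite X := hX
  exact X.subtype.isOfFinOrder (isOfFinOrder_of_finite (⟨x, hx⟩ : X))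

theorem Quasihamiltonian.exists_finite (hq : Quasihamiltonian G) (ht : ∀ x : G, IsOfFinOrder x)
    {F : Set G} (hF : F.Finite) : ∃ X : Subgroup G, (X : Set G).Finite ∧ F ⊆ X := by
  induction F, hF using Set.Finite.induction_on with
  | empty => exact ⟨⊥, by simp, Set.empty_subset _⟩
  | @insert a s _ _ ih =>
    obtain ⟨X, hX, hs⟩ := ih
    exact ⟨zpowers a ⊔ X, hq.finite_sup (finite_zpowers' (ht a)) hX, Set.insert_subset
      (Subgroup.mem_sup_left (mem_zpowers a)) (hs.trans (le_sup_right : X ≤ zpowers a ⊔ X))⟩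

/-- The trajectory of a subgroup, as a subgroup. -/
def TS (φ : G →* G) (X : Subgroup G) : ℕ → Subgroup G
  | 0 => ⊥
  | n + 1 => TS φ X n ⊔ X.map (itr φ n)

theorem Quasihamiltonian.coe_TS (hq : Quasihamiltonian G) (φ : G →* G) (X : Subgroup G) (n : ℕ) :
    (TS φ X n : Set G) = traj φ X n := by
  induction n with
  | zero => simp [TS, traj_zero]
  | succ n ih => rw [TS, hq.coe_sup, ih, traj_succ, Subgroup.coe_map, coe_itr]

theorem Quasihamiltonian.TS_add (hq : Quasihamiltonian G) (φ : G →* G) (X : Subgroup G)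
    (a b : ℕ) : TS φ X (a + b) = TS φ X a ⊔ (TS φ X b).map (itr φ a) := by
  apply SetLike.coe_injective
  rw [hq.coe_sup, Subgroup.coe_map, hq.coe_TS, hq.coe_TS, hq.coe_TS, traj_add, coe_itr]

theorem Quasihamiltonian.ncard_sup_le (hq : Quasihamiltonian G) {E W Y : Subgroup G} {R : Set G}
    (hR : R.Finite) (hW : (W : Set G).Finite) (hY : (Y : Set G).Finite)
    (h : (E : Set G) ⊆ R * (W : Set G)) :
    ((E ⊔ Y : Subgroup G) : Set G).ncard ≤ R.ncard * ((W ⊔ Y : Subgroup G) : Set G).ncard := by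
  refine le_trans (Set.ncard_le_ncard ?_ (hR.mul (hq.finite_sup hW hY)))
    (ncard_mul_le' hR (hq.finite_sup hW hY))
  rw [hq.coe_sup, hq.coe_sup, ← mul_assoc]
  exact Set.mul_subset_mul_right h

theorem Quasihamiltonian.torsion_case (hq : Quasihamiltonian G) (ht : ∀ x : G, IsOfFinOrder x)
    (φ : G →* G) (H : Subgroup G) [H.Normal] (hH : H ≤ H.comap φ) :
    ent φ ⊤ ⊥ = ent φ ⊤ H + ent φ H ⊥ := by
  apply le_antisymm
  · refine ent_le fun F hF h1 _ => ?_
    obtain ⟨X, hX, hFX⟩ := hq.exists_finite ht hF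
    have hfin : ∀ (Z : Subgroup G), (Z : Set G).Finite → ∀ k, (TS φ Z k : Set G).Finite :=
      fun Z hZ k => hq.coe_TS φ Z k ▸ traj_finite φ hZ k
    have := upper_of_blocks φ hX X.one_mem H hH (S := ent φ H ⊥) fun n hn => by
      have hE := hfin X hX n
      have hW : ((TS φ X n ⊓ H : Subgroup G) : Set G).Finite := hE.subset fun x hx => hx.1
      refine ⟨(TS φ X n ⊓ H : Subgroup G), hW, Subgroup.one_mem _,
        le_ent ⊥ hW (Subgroup.one_mem _) fun x hx => hx.2, fun m => ?_⟩
      obtain ⟨R, hRT, hRc, -, hRs⟩ := exists_reps (traj_finite φ hX n) H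
      have hR : R.Finite := (traj_finite φ hX n).subset hRT
      have hER : (TS φ X n : Set G) ⊆ R * ((TS φ X n ⊓ H : Subgroup G) : Set G) := by
        intro e he
        obtain ⟨r, hr, hre⟩ := hRs e (hq.coe_TS φ X n ▸ he)
        have hrE : r ∈ TS φ X n := by
          have := hRT hr
          rwa [← hq.coe_TS] at this
        exact ⟨r, hr, r⁻¹ * e, ⟨(TS φ X n).mul_mem ((TS φ X n).inv_mem hrE) he, hre⟩, by simp⟩
      have key : ∀ Y : Subgroup G, (Y : Set G).Finite →
          ((TS φ X (m * n) ⊔ Y : Subgroup G) : Set G).ncard ≤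
          cnt φ X H n ^ m * ((TS φ (TS φ X n ⊓ H) (m * n) ⊔ Y : Subgroup G) : Set G).ncard := by
        induction m with
        | zero => intro Y _; simp [TS]
        | succ m ih =>
          intro Y hY
          have hmap : ∀ Z : Subgroup G, (Z : Set G).Finite →
              ((Z.map (itr φ (m * n)) : Subgroup G) : Set G).Finite :=
            fun Z hZ => by rw [Subgroup.coe_map]; exact hZ.image _
          rw [show (m + 1) * n = m * n + n by ring, hq.TS_add, hq.TS_add, sup_assoc]
          refine (ih _ (hq.finite_sup (hmap _ hE) hY)).trans ?_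
          rw [pow_succ, mul_assoc]
          refine Nat.mul_le_mul le_rfl ?_
          rw [sup_left_comm]
          refine (hq.ncard_sup_le (R := itr φ (m * n) '' R)
            (W := (TS φ X n ⊓ H).map (itr φ (m * n))) (hR.image _) (hmap _ hW)
            (hq.finite_sup (hfin _ hW _) hY) ?_).trans (Nat.mul_le_mul ?_ ?_)
          · rw [Subgroup.coe_map, Subgroup.coe_map, ← Set.image_mul]
            exact Set.image_mono hER
          · exact (Set.ncard_image_le hR).trans hRc.le
          · refine Set.ncard_le_ncard ?_ (hq.finite_sup (hq.finite_sup (hfin _ hW _)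
              (hmap _ (hfin _ hW _))) hY)
            have hle : TS φ X n ⊓ H ≤ TS φ (TS φ X n ⊓ H) n := by
              intro x hx
              have := subset_traj φ (F := (TS φ X n ⊓ H : Subgroup G)) (Subgroup.one_mem _) hn hx
              rwa [← hq.coe_TS] at this
            have : (TS φ X n ⊓ H).map (itr φ (m * n)) ⊔ (TS φ (TS φ X n ⊓ H) (m * n) ⊔ Y) ≤
                TS φ (TS φ X n ⊓ H) (m * n) ⊔ (TS φ (TS φ X n ⊓ H) n).map (itr φ (m * n)) ⊔ Y :=
              sup_le ((Subgroup.map_mono hle).trans (le_sup_right.trans le_sup_left))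
                (sup_le (le_sup_left.trans le_sup_left) le_sup_right)
            exact this
      have := key ⊥ (by simp)
      rwa [sup_bot_eq, sup_bot_eq, hq.coe_TS, hq.coe_TS] at this
    refine le_trans (ENNReal.ofReal_le_ofReal (HR_le_of_cnt_le φ hF h1 hX X.one_mem ⊥ ⊥
      (bot_inv φ) (bot_inv φ) (cnt_mono φ hX hFX ⊥))) (this.trans (add_le_add ?_ le_rfl))
    exact le_ent H hX X.one_mem (by simp)
  · refine ent_add_le φ fun F1 hF1 h11 _ W hW hW1 hWH => ?_
    obtain ⟨X, hX, hFX⟩ := hq.exists_finite ht (hF1.union hW)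
    refine (lower_of_prod φ hX X.one_mem hF1 h11 hW hW1 H hH hWH fun n t ht' v hv => ?_).trans
      (le_ent ⊥ hX X.one_mem (by simp))
    have a := traj_mono φ (Set.subset_union_left.trans hFX) n ht'
    have b := traj_mono φ (Set.subset_union_right.trans hFX) n hv
    rw [← hq.coe_TS] at a b ⊢
    exact (TS φ X n).mul_mem a b

/-- A torsion-free group that is a product of two cyclic groups with a common power is abelian. -/
theorem commute_of_common_power {K : Type*} [Group K] (htf : ∀ k : K, IsOfFinOrder k → k = 1)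
    {x y : K} (hg : ∀ k : K, ∃ i j : ℤ, k = x ^ i * y ^ j) {m n : ℤ} (hm : m ≠ 0) (hn : n ≠ 0)
    (h : x ^ m = y ^ n) : x * y = y * x := by
  have hz : x ^ m ∈ center K := by
    rw [Subgroup.mem_center_iff]
    intro k
    obtain ⟨i, j, rfl⟩ := hg k
    have c1 : Commute (x ^ i) (x ^ m) := Commute.zpow_zpow_self x i m
    have c2 : Commute (y ^ j) (x ^ m) := h ▸ Commute.zpow_zpow_self y j n
    exact (c1.mul_left c2).eq
  have hx : IsOfFinOrder (QuotientGroup.mk x : K ⧸ center K) :=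
    isOfFinOrder_iff_zpow_eq_one.2 ⟨m, hm, by
      rw [← QuotientGroup.mk_zpow, QuotientGroup.eq_one_iff]; exact hz⟩
  have hy : IsOfFinOrder (QuotientGroup.mk y : K ⧸ center K) :=
    isOfFinOrder_iff_zpow_eq_one.2 ⟨n, hn, by
      rw [← QuotientGroup.mk_zpow, QuotientGroup.eq_one_iff, ← h]; exact hz⟩
  have hfin : Finite (K ⧸ center K) := by
    refine Set.finite_univ_iff.1 (((finite_zpowers' hx).mul (finite_zpowers' hy)).subset ?_)
    intro q _
    obtain ⟨k, rfl⟩ := QuotientGroup.mk_surjective q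
    obtain ⟨i, j, rfl⟩ := hg k
    exact ⟨_, ⟨i, rfl⟩, _, ⟨j, rfl⟩, by simp⟩
  have : (center K).FiniteIndex := Subgroup.finiteIndex_of_finite_quotient
  have hinj : Function.Injective (MonoidHom.transferCenterPow K) := by
    rw [injective_iff_map_eq_one]
    intro a ha
    have := congrArg Subtype.val ha
    rw [MonoidHom.transferCenterPow_apply] at this
    exact htf a (isOfFinOrder_iff_pow_eq_one.2
      ⟨_, Nat.pos_of_ne_zero Subgroup.FiniteIndex.index_ne_zero, this⟩)
  apply hinj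
  rw [map_mul, map_mul]
  exact Subtype.ext (Subgroup.mem_center_iff.1 (MonoidHom.transferCenterPow K y).2 _)

theorem Quasihamiltonian.conj_mem_zpowers (hq : Quasihamiltonian G) {x y : G}
    (hxy : ∀ i j : ℤ, x ^ i = y ^ j → j = 0) : y⁻¹ * x * y ∈ zpowers x := by
  have hmem : y⁻¹ * x * y ∈ zpowers x ⊔ zpowers y :=
    mul_mem (mul_mem (mem_sup_right (inv_mem (mem_zpowers y))) (mem_sup_left (mem_zpowers x)))
      (mem_sup_right (mem_zpowers y))
  obtain ⟨i, j, e⟩ := hq.mem_sup_zpowers hmem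
  by_cases hj : j = 0
  · rw [e, hj, zpow_zero, mul_one]; exact ⟨i, rfl⟩
  exfalso
  set p : ℤ := |j| + 1 with hp
  let M : Subgroup G := zpowers x ⊔ zpowers (y ^ p)
  let M' : Subgroup G := M.map (MulAut.conj y⁻¹).toMonoidHom
  have hxM : x ∈ M := mem_sup_left (mem_zpowers x)
  have h1 : y⁻¹ * x * y ∈ M ⊔ M' := mem_sup_right ⟨x, hxM, by simp⟩
  have h2 : y ^ j ∈ M ⊔ M' := by
    have : y ^ j = (x ^ i)⁻¹ * (y⁻¹ * x * y) := by rw [e]; group
    rw [this]
    exact mul_mem (inv_mem (zpow_mem (mem_sup_left hxM) i)) h1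
  have h3 : y ^ p ∈ M ⊔ M' := mem_sup_left (mem_sup_right (mem_zpowers _))
  have h4 : y ^ |j| ∈ M ⊔ M' := by
    rcases abs_choice j with h | h
    · rwa [h]
    · rw [h, zpow_neg]; exact inv_mem h2
  have h5 : y ∈ M ⊔ M' := by
    have : y = (y ^ |j|)⁻¹ * y ^ p := by rw [hp]; group
    rw [this]
    exact mul_mem (inv_mem h4) h3
  have h6 : y ∈ ((M ⊔ M' : Subgroup G) : Set G) := h5
  rw [hq.coe_sup] at h6
  obtain ⟨a, ha, _, ⟨b, hb, rfl⟩, hab⟩ := h6
  have hyM : y ∈ M := by
    have : y = b * a := by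
      have h7 : a * (y⁻¹ * b * y) = y := by simpa using hab
      have h8 : a * y⁻¹ * b = 1 := by
        have : a * y⁻¹ * b * y = 1 * y := by
          rw [one_mul]
          calc a * y⁻¹ * b * y = a * (y⁻¹ * b * y) := by group
            _ = y := h7
        exact mul_right_cancel this
      calc y = b * (a * y⁻¹ * b)⁻¹ * a := by group
        _ = b * a := by rw [h8]; group
    rw [this]
    exact M.mul_mem hb ha
  obtain ⟨u, v, huv⟩ := hq.mem_sup_zpowers hyM
  have h9 : x ^ u = y ^ (1 - p * v) := by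
    rw [zpow_sub, zpow_one, zpow_mul, eq_mul_inv_iff_mul_eq, ← huv]
  have h10 := hxy _ _ h9
  have h11 : p ∣ 1 := ⟨v, by linarith⟩
  have h12 := Int.le_of_dvd one_pos h11
  have := abs_pos.2 hj
  omega

theorem Quasihamiltonian.comm_of_torsionFree (hq : Quasihamiltonian G)
    (htf : ∀ k : G, IsOfFinOrder k → k = 1) (x y : G) : x * y = y * x := by
  by_cases hx : x = 1
  · simp [hx]
  by_cases hy : y = 1
  · simp [hy]
  have hz : ∀ (z : G) (i : ℤ), z ≠ 1 → z ^ i = 1 → i = 0 := fun z i hz1 h => by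
    by_contra hi
    exact hz1 (htf z (isOfFinOrder_iff_zpow_eq_one.2 ⟨i, hi, h⟩))
  by_cases hc : ∃ m n : ℤ, m ≠ 0 ∧ n ≠ 0 ∧ x ^ m = y ^ n
  · obtain ⟨m, n, hm, hn, h⟩ := hc
    let K : Subgroup G := zpowers x ⊔ zpowers y
    have := commute_of_common_power (K := K)
      (fun k hk => Subtype.ext (htf _ (K.subtype.isOfFinOrder hk)))
      (x := ⟨x, mem_sup_left (mem_zpowers x)⟩) (y := ⟨y, mem_sup_right (mem_zpowers y)⟩)
      (fun k => by
        obtain ⟨i, j, e⟩ := hq.mem_sup_zpowers k.2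
        exact ⟨i, j, Subtype.ext (by simpa using e)⟩) hm hn (Subtype.ext (by simpa using h))
    exact congrArg Subtype.val this
  · have h0 : ∀ i j : ℤ, x ^ i = y ^ j → i = 0 ∧ j = 0 := by
      intro i j h
      by_cases hi : i = 0
      · exact ⟨hi, hz y j hy (by rw [← h, hi, zpow_zero])⟩
      · by_cases hj : j = 0
        · exact ⟨hz x i hx (by rw [h, hj, zpow_zero]), hj⟩
        · exact absurd ⟨i, j, hi, hj, h⟩ hc
    obtain ⟨a, ha⟩ := hq.conj_mem_zpowers (x := x) (y := y) fun i j h => (h0 i j h).2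
    obtain ⟨b, hb⟩ := hq.conj_mem_zpowers (x := y) (y := x) fun i j h => (h0 j i h.symm).1
    simp only at ha hb
    have e : x ^ (a - 1) = y ^ (1 - b) := by
      calc x ^ (a - 1) = x⁻¹ * x ^ a := by group
        _ = (x⁻¹ * y * x)⁻¹ * y := by rw [ha]; group
        _ = y ^ (1 - b) := by rw [← hb]; group
    have := (h0 _ _ e).1
    have ha1 : a = 1 := by omega
    rw [ha1, zpow_one] at ha
    calc x * y = y * (y⁻¹ * x * y) := by group
      _ = y * x := by rw [← ha]

/-- The torsion elements of a quasihamiltonian group form a subgroup. -/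
def Quasihamiltonian.tors (hq : Quasihamiltonian G) : Subgroup G where
  carrier := {x | IsOfFinOrder x}
  one_mem' := IsOfFinOrder.one
  mul_mem' := fun {a b} ha hb => finOrder_of_mem
    (hq.finite_sup (finite_zpowers' ha) (finite_zpowers' hb))
    (Subgroup.mul_mem_sup (mem_zpowers a) (mem_zpowers b))
  inv_mem' := fun h => IsOfFinOrder.inv h

theorem Quasihamiltonian.tors_normal (hq : Quasihamiltonian G) : hq.tors.Normal :=
  ⟨fun _ hx g => (MulAut.conj g).toMonoidHom.isOfFinOrder hx⟩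

theorem Quasihamiltonian.fcHyper_top (hq : Quasihamiltonian G) (φ : G →* G) {g0 : G}
    (hg0 : ¬ IsOfFinOrder g0) : FCHyper φ ⊤ := by
  have hn := hq.tors_normal
  have key : ∀ (g a : G), ¬ IsOfFinOrder g → IsOfFinOrder a → g⁻¹ * a * g ∈ zpowers a := by
    intro g a hg ha
    refine hq.conj_mem_zpowers fun i j h => ?_
    by_contra hj
    have : IsOfFinOrder (g ^ j) := h ▸ ha.zpow
    obtain ⟨k, hk, e⟩ := isOfFinOrder_iff_zpow_eq_one.1 this
    exact hg (isOfFinOrder_iff_zpow_eq_one.2 ⟨j * k, mul_ne_zero hj hk, by rw [zpow_mul, e]⟩)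
  have key2 : ∀ (g a : G), IsOfFinOrder a → g * a * g⁻¹ ∈ zpowers a := by
    intro g a ha
    by_cases hg : IsOfFinOrder g
    · have h1 : ¬ IsOfFinOrder (g0 * g⁻¹) := fun h => hg0 (by
        have : g0 * g⁻¹ * g ∈ hq.tors := hq.tors.mul_mem h hg
        rw [inv_mul_cancel_right] at this
        exact this)
      obtain ⟨k, hk⟩ := key g0⁻¹ a (by simpa using hg0) ha
      obtain ⟨l, hl⟩ := key (g0 * g⁻¹) (a ^ k) h1 ha.zpow
      simp only at hk hl
      refine ⟨k * l, ?_⟩
      simp only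
      rw [zpow_mul, hl, hk]
      group
    · simpa using key g⁻¹ a (by simpa using hg) ha
  have hT : FCHyper φ hq.tors := by
    refine FCHyper.step ⊥ _ FCHyper.bot bot_le hn (fun x hx => φ.isOfFinOrder hx) fun x hx => ?_
    refine ((finite_zpowers' hx).image QuotientGroup.mk).subset ?_
    rintro _ ⟨g, rfl⟩
    exact ⟨_, key2 g x hx, rfl⟩
  refine FCHyper.step _ ⊤ hT le_top inferInstance (top_inv φ) fun x _ => ?_
  have hq' : Quasihamiltonian (G ⧸ hq.tors) :=
    hq.of_surjective (QuotientGroup.mk' _) (QuotientGroup.mk'_surjective _)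
  have hcomm := hq'.comm_of_torsionFree fun k hk => by
    obtain ⟨k, rfl⟩ := QuotientGroup.mk_surjective k
    obtain ⟨n, hn0, e⟩ := isOfFinOrder_iff_pow_eq_one.1 hk
    rw [← QuotientGroup.mk_pow, QuotientGroup.eq_one_iff] at e
    rw [QuotientGroup.eq_one_iff]
    exact IsOfFinOrder.of_pow e hn0.ne'
  refine (Set.finite_singleton (QuotientGroup.mk x)).subset ?_
  rintro _ ⟨g, rfl⟩
  simp only [QuotientGroup.mk_mul, QuotientGroup.mk_inv, Set.mem_singleton_iff]
  rw [hcomm (QuotientGroup.mk g), mul_inv_cancel_right]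

theorem Quasihamiltonian.ent_eq (hq : Quasihamiltonian G) (φ : G →* G) (H : Subgroup G)
    [H.Normal] (hH : H ≤ H.comap φ) : ent φ ⊤ ⊥ = ent φ ⊤ H + ent φ H ⊥ := by
  by_cases ht : ∀ x : G, IsOfFinOrder x
  · exact hq.torsion_case ht φ H hH
  · obtain ⟨g0, hg0⟩ := not_forall.1 ht
    have := ((hq.fcHyper_top φ hg0).inf H hH).ent_eq ⊤ ⊥ (top_inv φ) (bot_inv φ)
    simpa using this

theorem additionTheorem_of {φ : G →* G} {N : Subgroup G} [N.Normal] (hN : FCHyper φ N)
    (hq : Quasihamiltonian (G ⧸ N)) : AdditionTheorem φ := by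
  intro H _ hH
  rw [halg_eq_ent, halg_quot, halg_restr]
  refine hN.lift H hH ?_
  have hNi := hN.inv
  have : (H.map (QuotientGroup.mk' N)).Normal :=
    Subgroup.Normal.map inferInstance _ (QuotientGroup.mk'_surjective N)
  have e := hq.ent_eq (QuotientGroup.map N N φ hNi) (H.map (QuotientGroup.mk' N))
    (map_inv' _ (mk_comm φ N hNi) hH)
  rw [← Subgroup.map_top_of_surjective _ (QuotientGroup.mk'_surjective N),
    ent_transfer _ (mk_comm φ N hNi), ent_transfer _ (mk_comm φ N hNi),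
    ent_transfer _ (mk_comm φ N hNi), comap_mk_bot, Subgroup.comap_map_eq,
    QuotientGroup.ker_mk', sup_comm] at e
  exact e

end Pool.Agent.P.MP_8d62fb_al
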