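import Pool.Agent.P.MP_8d62fb_al.Basic

/-! Additivity of the entropy along an FC-central normal subgroup. -/

namespace Pool.Agent.P.MP_8d62fb_al

open scoped Pointwise ENNReal Topology
open Filter

variable {G : Type*} [Group G]

theorem le_of_tendsto_add {a : ℕ → ℝ} {l : ℝ} (ha : Tendsto a atTop (𝓝 l)) {x S : ℝ≥0∞}
    (h : ∀ n, n ≠ 0 → x ≤ ENNReal.ofReal (a n) + S) : x ≤ ENNReal.ofReal l + S := by
  have ht : Tendsto (fun n => ENNReal.ofReal (a n) + S) atTop (𝓝 (ENNReal.ofReal l + S)) :=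
    (ENNReal.tendsto_ofReal ha).add_const S
  refine ge_of_tendsto ht ?_
  filter_upwards [eventually_ne_atTop 0] with n hn using h n hn

theorem bot_inv (φ : G →* G) : (⊥ : Subgroup G) ≤ (⊥ : Subgroup G).comap φ := bot_le

theorem top_inv (φ : G →* G) : (⊤ : Subgroup G) ≤ (⊤ : Subgroup G).comap φ := by simp

theorem inf_inv {φ : G →* G} {A B : Subgroup G} (hA : A ≤ A.comap φ) (hB : B ≤ B.comap φ) :
    A ⊓ B ≤ (A ⊓ B).comap φ := fun _ hx => ⟨hA hx.1, hB hx.2⟩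

theorem sup_inv {φ : G →* G} {A B : Subgroup G} (hA : A ≤ A.comap φ) (hB : B ≤ B.comap φ) :
    A ⊔ B ≤ (A ⊔ B).comap φ :=
  sup_le (hA.trans (Subgroup.comap_mono le_sup_left)) (hB.trans (Subgroup.comap_mono le_sup_right))

theorem upper_of_blocks (φ : G →* G) {F : Set G} (hF : F.Finite) (h1 : (1 : G) ∈ F)
    (N : Subgroup G) [N.Normal] (hN : N ≤ N.comap φ) {S : ℝ≥0∞}
    (h : ∀ n, n ≠ 0 → ∃ W : Set G, W.Finite ∧ (1 : G) ∈ W ∧ ENNReal.ofReal (HR φ W ⊥) ≤ S ∧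
      ∀ m, (traj φ F (m * n)).ncard ≤ cnt φ F N n ^ m * (traj φ W (m * n)).ncard) :
    ENNReal.ofReal (HR φ F ⊥) ≤ ENNReal.ofReal (HR φ F N) + S := by
  refine le_of_tendsto_add (HR_spec φ hF h1 N hN).1 fun n hn => ?_
  obtain ⟨W, hW, hW1, hS, hm⟩ := h n hn
  have hc : (0 : ℝ) < cnt φ F N n := by exact_mod_cast cnt_pos φ hF h1 N n
  have hsub : Tendsto (fun m : ℕ => m * n) atTop atTop :=
    tendsto_id.atTop_mul_const' (Nat.pos_of_ne_zero hn)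
  have t1 := (HR_spec φ hF h1 ⊥ (bot_inv φ)).1.comp hsub
  have t2 := ((HR_spec φ hW hW1 ⊥ (bot_inv φ)).1.comp hsub).const_add
    (Real.log (cnt φ F N n : ℝ) / (n : ℝ))
  have key : HR φ F ⊥ ≤ Real.log (cnt φ F N n : ℝ) / (n : ℝ) + HR φ W ⊥ := by
    refine le_of_tendsto_of_tendsto t1 t2 ?_
    filter_upwards [eventually_ne_atTop 0] with m hm0
    simp only [Function.comp]
    have hn' : (0 : ℝ) < n := by exact_mod_cast Nat.pos_of_ne_zero hn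
    have hm' : (0 : ℝ) < m := by exact_mod_cast Nat.pos_of_ne_zero hm0
    have p1 : (0 : ℝ) < cnt φ F ⊥ (m * n) := by exact_mod_cast cnt_pos φ hF h1 ⊥ _
    have p2 : (0 : ℝ) < cnt φ W ⊥ (m * n) := by exact_mod_cast cnt_pos φ hW hW1 ⊥ _
    have hle : (cnt φ F ⊥ (m * n) : ℝ) ≤ (cnt φ F N n : ℝ) ^ m * cnt φ W ⊥ (m * n) := by
      rw [cnt_bot φ hF, cnt_bot φ hW]; exact_mod_cast hm m
    have := Real.log_le_log p1 hle
    rw [Real.log_mul (pow_pos hc m).ne' p2.ne', Real.log_pow] at this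
    have e : Real.log (cnt φ F N n : ℝ) / (n : ℝ) =
        (m * Real.log (cnt φ F N n : ℝ)) / ((m * n : ℕ) : ℝ) := by
      push_cast; field_simp
    rw [e, ← add_div]
    exact div_le_div_of_nonneg_right this (Nat.cast_nonneg _)
  calc ENNReal.ofReal (HR φ F ⊥)
      ≤ ENNReal.ofReal (Real.log (cnt φ F N n : ℝ) / (n : ℝ) + HR φ W ⊥) :=
        ENNReal.ofReal_le_ofReal key
    _ ≤ _ := ENNReal.ofReal_add_le.trans (add_le_add le_rfl hS)

theorem exists_reps {T : Set G} (_hT : T.Finite) (N : Subgroup G) :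
    ∃ R : Set G, R ⊆ T ∧ R.ncard = ((QuotientGroup.mk : G → G ⧸ N) '' T).ncard ∧
      Set.InjOn (QuotientGroup.mk : G → G ⧸ N) R ∧ ∀ t ∈ T, ∃ r ∈ R, r⁻¹ * t ∈ N := by
  obtain ⟨R, hRT, hR⟩ := Set.exists_subset_bijOn T (QuotientGroup.mk : G → G ⧸ N)
  refine ⟨R, hRT, ?_, hR.injOn, fun t ht => ?_⟩
  · rw [← hR.image_eq, Set.InjOn.ncard_image hR.injOn]
  · obtain ⟨r, hr, e⟩ := hR.surjOn ⟨t, ht, rfl⟩
    exact ⟨r, hr, QuotientGroup.eq.1 e⟩

theorem lower_of_prod (φ : G →* G) {F F1 W : Set G} (hF : F.Finite) (h1 : (1 : G) ∈ F)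
    (hF1 : F1.Finite) (h11 : (1 : G) ∈ F1) (hW : W.Finite) (hW1 : (1 : G) ∈ W)
    (N : Subgroup G) [N.Normal] (hN : N ≤ N.comap φ) (hWN : W ⊆ N)
    (h : ∀ n, ∀ t ∈ traj φ F1 n, ∀ v ∈ traj φ W n, t * v ∈ traj φ F n) :
    ENNReal.ofReal (HR φ F1 N) + ENNReal.ofReal (HR φ W ⊥) ≤ ENNReal.ofReal (HR φ F ⊥) := by
  have s1 := HR_spec φ hF1 h11 N hN
  have s2 := HR_spec φ hW hW1 ⊥ (bot_inv φ)
  have s3 := HR_spec φ hF h1 ⊥ (bot_inv φ)
  rw [← ENNReal.ofReal_add s1.2.2 s2.2.2]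
  refine ENNReal.ofReal_le_ofReal (le_of_tendsto_of_tendsto' (s1.1.add s2.1) s3.1 fun n => ?_)
  have p1 : (0 : ℝ) < cnt φ F1 N n := by exact_mod_cast cnt_pos φ hF1 h11 N _
  have p2 : (0 : ℝ) < cnt φ W ⊥ n := by exact_mod_cast cnt_pos φ hW hW1 ⊥ _
  rw [← add_div, ← Real.log_mul p1.ne' p2.ne']
  refine div_le_div_of_nonneg_right (Real.log_le_log (mul_pos p1 p2) ?_) (Nat.cast_nonneg _)
  rw [cnt_bot φ hW, cnt_bot φ hF]
  obtain ⟨R, hRT, hRc, hRi, -⟩ := exists_reps (traj_finite φ hF1 n) N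
  have : cnt φ F1 N n * (traj φ W n).ncard ≤ (traj φ F n).ncard := by
    unfold cnt
    rw [← hRc, ← Set.ncard_prod]
    refine Set.ncard_le_ncard_of_injOn (fun p : G × G => p.1 * p.2)
      (fun p hp => h n _ (hRT hp.1) _ hp.2) ?_ (traj_finite φ hF n)
    rintro ⟨a, b⟩ ⟨ha, hb⟩ ⟨c, d⟩ ⟨hc, hd⟩ e
    simp only at e ha hb hc hd
    have hac : a = c := by
      refine hRi ha hc (QuotientGroup.eq.2 ?_)
      have : a⁻¹ * c = b * d⁻¹ := by
        rw [inv_mul_eq_iff_eq_mul, ← mul_assoc, e, mul_inv_cancel_right]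
      rw [this]
      exact N.mul_mem (traj_subset hN hWN n hb) (N.inv_mem (traj_subset hN hWN n hd))
    subst hac
    rw [mul_left_cancel e]
  exact_mod_cast this

/-- A finite subset of an FC-central subgroup lies in a finite conjugation invariant set. -/
theorem exists_conj_closed {L N : Subgroup G} [hn : N.Normal]
    (hfc : ∀ x ∈ N, (Set.range fun g : G => g * x * g⁻¹).Finite) {W0 : Set G} (hW0 : W0.Finite)
    (hs : W0 ⊆ (L ⊓ N : Subgroup G)) :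
    ∃ W : Set G, W.Finite ∧ (1 : G) ∈ W ∧ W0 ⊆ W ∧ W ⊆ (L ⊓ N : Subgroup G) ∧
      ∀ g ∈ L, ∀ w ∈ W, g * w * g⁻¹ ∈ W := by
  refine ⟨{y | ∃ w ∈ insert 1 W0, ∃ g ∈ L, y = g * w * g⁻¹}, ?_, ⟨1, Set.mem_insert _ _, 1,
    L.one_mem, by simp⟩, fun w hw => ⟨w, Set.mem_insert_of_mem _ hw, 1, L.one_mem, by simp⟩, ?_, ?_⟩
  · have hs' : insert 1 W0 ⊆ (L ⊓ N : Subgroup G) := Set.insert_subset (Subgroup.one_mem _) hs
    refine ((hW0.insert 1).biUnion fun w hw => hfc w (hs' hw).2).subset ?_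
    rintro _ ⟨w, hw, g, -, rfl⟩
    exact Set.mem_biUnion hw ⟨g, rfl⟩
  · have hs' : insert 1 W0 ⊆ (L ⊓ N : Subgroup G) := Set.insert_subset (Subgroup.one_mem _) hs
    rintro _ ⟨w, hw, g, hg, rfl⟩
    exact ⟨L.mul_mem (L.mul_mem hg (hs' hw).1) (L.inv_mem hg), hn.conj_mem _ (hs' hw).2 _⟩
  · rintro g hg _ ⟨w, hw, k, hk, rfl⟩
    exact ⟨w, hw, g * k, L.mul_mem hg hk, by group⟩

theorem upper0 (φ : G →* G) {L N : Subgroup G} [N.Normal] (hL : L ≤ L.comap φ)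
    (hN : N ≤ N.comap φ) (hfc : ∀ x ∈ N, (Set.range fun g : G => g * x * g⁻¹).Finite)
    {F : Set G} (hF : F.Finite) (h1 : (1 : G) ∈ F) (hFL : F ⊆ L) :
    ENNReal.ofReal (HR φ F ⊥) ≤ ENNReal.ofReal (HR φ F N) + ent φ (L ⊓ N) ⊥ := by
  refine upper_of_blocks φ hF h1 N hN fun n hn => ?_
  have hE := traj_finite φ hF n
  have hEL := traj_subset hL hFL n
  obtain ⟨R, hRT, hRc, -, hRs⟩ := exists_reps hE N
  have hR : R.Finite := hE.subset hRT
  obtain ⟨W, hW, hW1, hW0, hWs, hWc⟩ := exists_conj_closed (L := L) hfc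
    (W0 := ((traj φ F n)⁻¹ * traj φ F n) ∩ N) ((hE.inv.mul hE).inter_of_left _) (by
      rintro _ ⟨⟨a, ha, b, hb, rfl⟩, hx⟩
      exact ⟨L.mul_mem (by simpa using L.inv_mem (hEL ha)) (hEL hb), hx⟩)
  refine ⟨W, hW, hW1, le_ent ⊥ hW hW1 hWs, fun m => ?_⟩
  have key : ∃ S : Set G, S.Finite ∧ S ⊆ L ∧ S.ncard ≤ cnt φ F N n ^ m ∧
      traj φ F (m * n) ⊆ S * traj φ W (m * n) := by
    induction m with
    | zero => exact ⟨{1}, Set.finite_singleton _, by simp, by simp, by simp [traj_zero]⟩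
    | succ m ih =>
      obtain ⟨S, hS, hSL, hSc, hsub⟩ := ih
      refine ⟨R * ((φ : G → G)^[n] '' S), hR.mul (hS.image _), ?_, ?_, ?_⟩
      · rintro _ ⟨a, ha, _, ⟨b, hb, rfl⟩, rfl⟩
        exact L.mul_mem (hEL (hRT ha)) (iter_mem hL n (hSL hb))
      · refine (ncard_mul_le' hR (hS.image _)).trans ?_
        rw [pow_succ', hRc]
        exact Nat.mul_le_mul le_rfl ((Set.ncard_image_le hS).trans hSc)
      · rw [show (m + 1) * n = n + m * n by ring, traj_add, traj_add]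
        rintro _ ⟨e, he, _, ⟨p, hp, rfl⟩, rfl⟩
        obtain ⟨s, hs, t, ht, rfl⟩ := hsub hp
        obtain ⟨r, hr, hre⟩ := hRs e he
        have hw : r⁻¹ * e ∈ W := hW0 ⟨⟨r⁻¹, by simpa using hRT hr, e, he, rfl⟩, hre⟩
        have hs' : (φ : G → G)^[n] s ∈ L := iter_mem hL n (hSL hs)
        have hw' := hWc _ (L.inv_mem hs') _ hw
        refine ⟨r * (φ : G → G)^[n] s, ⟨r, hr, _, ⟨s, hs, rfl⟩, rfl⟩, _,
          ⟨_, subset_traj φ hW1 hn hw', _, ⟨t, ht, rfl⟩, rfl⟩, ?_⟩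
        simp only [← itr_apply, map_mul]
        group
  obtain ⟨S, hS, -, hSc, hsub⟩ := key
  refine (Set.ncard_le_ncard hsub (hS.mul (traj_finite φ hW _))).trans ?_
  exact (ncard_mul_le' hS (traj_finite φ hW _)).trans (Nat.mul_le_mul hSc le_rfl)

theorem ent_add_le (φ : G →* G) {L1 K1 L2 K2 : Subgroup G} {c : ℝ≥0∞}
    (h : ∀ F1 : Set G, F1.Finite → (1 : G) ∈ F1 → F1 ⊆ L1 → ∀ F2 : Set G, F2.Finite →
      (1 : G) ∈ F2 → F2 ⊆ L2 → ENNReal.ofReal (HR φ F1 K1) + ENNReal.ofReal (HR φ F2 K2) ≤ c) :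
    ent φ L1 K1 + ent φ L2 K2 ≤ c := by
  unfold ent
  refine ENNReal.biSup_add_biSup_le' ⟨{1}, Set.finite_singleton _, rfl, by simp⟩
    ⟨{1}, Set.finite_singleton _, rfl, by simp⟩ fun F1 h1 F2 h2 =>
    h F1 h1.1 h1.2.1 h1.2.2 F2 h2.1 h2.2.1 h2.2.2

theorem lower0 (φ : G →* G) {L N : Subgroup G} [N.Normal] (hL : L ≤ L.comap φ)
    (hN : N ≤ N.comap φ) (hfc : ∀ x ∈ N, (Set.range fun g : G => g * x * g⁻¹).Finite) :
    ent φ L N + ent φ (L ⊓ N) ⊥ ≤ ent φ L ⊥ := by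
  refine ent_add_le φ fun F1 hF1 h11 hF1L W0 hW0 hW01 hW0s => ?_
  obtain ⟨W, hW, hW1, hsub, hWs, hWc⟩ := exists_conj_closed (L := L) hfc hW0 hW0s
  have hF : (F1 * W).Finite := hF1.mul hW
  have h1 : (1 : G) ∈ F1 * W := ⟨1, h11, 1, hW1, one_mul _⟩
  have hFL : F1 * W ⊆ L := by
    rintro _ ⟨a, ha, b, hb, rfl⟩
    exact L.mul_mem (hF1L ha) (hWs hb).1
  have := lower_of_prod φ hF h1 hF1 h11 hW hW1 N hN (fun x hx => (hWs hx).2) (by
    intro n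
    induction n with
    | zero =>
      rintro t ht v hv
      rw [traj_zero] at *
      rw [ht, hv, one_mul]; rfl
    | succ n ih =>
      rw [traj_succ', traj_succ', traj_succ']
      rintro _ ⟨f, hf, _, ⟨t, ht, rfl⟩, rfl⟩ _ ⟨w, hw, _, ⟨v, hv, rfl⟩, rfl⟩
      have htL : φ t ∈ L := hL (traj_subset hL hF1L n ht)
      refine ⟨_, ⟨f, hf, _, hWc _ htL _ hw, rfl⟩, _, ⟨_, ih t ht v hv, rfl⟩, ?_⟩
      simp only [map_mul]
      group)
  refine le_trans (add_le_add le_rfl (ENNReal.ofReal_le_ofReal ?_))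
    (this.trans (le_ent ⊥ hF h1 hFL))
  exact HR_le_of_cnt_le φ hW0 hW01 hW hW1 ⊥ ⊥ (bot_inv φ) (bot_inv φ) (cnt_mono φ hW hsub ⊥)

section rel

variable (φ : G →* G) {L K N : Subgroup G} [K.Normal] [hn : N.Normal] (hL : L ≤ L.comap φ)
  (hK : K ≤ K.comap φ) (hN : N ≤ N.comap φ) (hKN : K ≤ N)
  (hfc : ∀ x ∈ N, (Set.range fun g : G => (QuotientGroup.mk (g * x * g⁻¹) : G ⧸ K)).Finite)

theorem map_inv' {Q : Type*} [Group Q] {φ : G →* G} {ψ : Q →* Q} (π : G →* Q)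
    (hπ : ∀ x, π (φ x) = ψ (π x)) {L : Subgroup G} (hL : L ≤ L.comap φ) :
    L.map π ≤ (L.map π).comap ψ := by
  rintro _ ⟨x, hx, rfl⟩
  exact ⟨φ x, hL hx, hπ x⟩

omit hn in
include hKN in
theorem comap_map_mk : (N.map (QuotientGroup.mk' K)).comap (QuotientGroup.mk' K) = N := by
  rw [Subgroup.comap_map_eq, QuotientGroup.ker_mk', sup_eq_left.2 hKN]

omit hn in
include hKN in
theorem map_inf_mk : L.map (QuotientGroup.mk' K) ⊓ N.map (QuotientGroup.mk' K) =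
    (L ⊓ N).map (QuotientGroup.mk' K) := by
  apply le_antisymm
  · rintro _ ⟨⟨x, hx, rfl⟩, hy⟩
    refine ⟨x, ⟨hx, ?_⟩, rfl⟩
    have : x ∈ (N.map (QuotientGroup.mk' K)).comap (QuotientGroup.mk' K) := hy
    rwa [comap_map_mk hKN] at this
  · exact le_inf (Subgroup.map_mono inf_le_left) (Subgroup.map_mono inf_le_right)

omit hn in
include hfc in
theorem fc_quot : ∀ x ∈ N.map (QuotientGroup.mk' K),
    (Set.range fun g : G ⧸ K => g * x * g⁻¹).Finite := by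
  rintro _ ⟨x, hx, rfl⟩
  refine (hfc x hx).subset ?_
  rintro _ ⟨g, rfl⟩
  obtain ⟨g, rfl⟩ := QuotientGroup.mk_surjective g
  exact ⟨g, rfl⟩

include hL hK hN hKN hfc in
theorem upper1 {F : Set G} (hF : F.Finite) (h1 : (1 : G) ∈ F) (hFL : F ⊆ L) :
    ENNReal.ofReal (HR φ F K) ≤ ENNReal.ofReal (HR φ F N) + ent φ (L ⊓ N) K := by
  have : (N.map (QuotientGroup.mk' K)).Normal := hn.map _ (QuotientGroup.mk'_surjective K)
  have := upper0 (QuotientGroup.map K K φ hK) (map_inv' _ (mk_comm φ K hK) hL)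
    (map_inv' _ (mk_comm φ K hK) hN) (fc_quot hfc) (hF.image (QuotientGroup.mk' K))
    ⟨1, h1, map_one _⟩ (Set.image_mono hFL)
  rwa [HR_transfer _ (mk_comm φ K hK) hF, HR_transfer _ (mk_comm φ K hK) hF, map_inf_mk hKN,
    ent_transfer _ (mk_comm φ K hK), comap_mk_bot, comap_map_mk hKN] at this

include hL hK hN hKN hfc in
theorem lower1 : ent φ L N + ent φ (L ⊓ N) K ≤ ent φ L K := by
  have : (N.map (QuotientGroup.mk' K)).Normal := hn.map _ (QuotientGroup.mk'_surjective K)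
  have := lower0 (QuotientGroup.map K K φ hK) (map_inv' _ (mk_comm φ K hK) hL)
    (map_inv' _ (mk_comm φ K hK) hN) (fc_quot hfc)
  rwa [map_inf_mk hKN, ent_transfer _ (mk_comm φ K hK), ent_transfer _ (mk_comm φ K hK),
    ent_transfer _ (mk_comm φ K hK), comap_mk_bot, comap_map_mk hKN] at this

end rel

end Pool.Agent.P.MP_8d62fb_al
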